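import Mathlib

set_option autoImplicit false

/-!
MODULE CRT (the positions): Chinese remainder theorem for the positions of the primes.
-/

namespace Pool.Agent.Work.MP_bd2dcc_nt

open Finset

/-- the primes used for the positions -/
private noncomputable def crtQ (B h : ℕ) : ℕ := Nat.nth Nat.Prime (B + h)

private theorem crtQ_prime (B h : ℕ) : (crtQ B h).Prime :=
  Nat.nth_mem_of_infinite Nat.infinite_setOfPred_prime _

private theorem crtQ_lt (B h : ℕ) : B + h < crtQ B h := by
  have h1 : ∀ n : ℕ, n < Nat.nth Nat.Prime n := by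
    intro n
    have h2 : Nat.nth Nat.Prime 0 = 2 := Nat.nth_prime_zero_eq_two
    induction n with
    | zero => rw [h2]; omega
    | succ m ih =>
      have h3 := Nat.nth_strictMono Nat.infinite_setOfPred_prime (Nat.lt_succ_self m)
      have h4 : Nat.nth Nat.Prime m < Nat.nth Nat.Prime (m + 1) := h3
      omega
  exact h1 _

private theorem crtQ_inj (B h k : ℕ) (hk : h ≠ k) : crtQ B h ≠ crtQ B k := by
  intro h1
  have h2 := (Nat.nth_strictMono Nat.infinite_setOfPred_prime).injective h1
  omega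

private theorem crt_cop_primorial (p D : ℕ) (hp : p.Prime) (hD : D < p) :
    Nat.Coprime p (primorial D) := by
  unfold primorial
  apply Nat.Coprime.prod_right
  intro q hq
  rw [Finset.mem_filter, Finset.mem_range] at hq
  rw [Nat.coprime_primes hp hq.2]
  omega

theorem crt (K D₀ : ℕ) (S : Finset ℕ) :
    ∃ (d W v : ℕ) (q : ℕ → ℕ), 0 < d ∧ 0 < W ∧ primorial D₀ ∣ W ∧ d ∣ W ∧ K * d < W ∧
      (∀ j < K, q j ∣ W ∧ q j ∣ v + j * d ∧ Nat.Coprime ((v + j * d) / q j) W ∧
        (j ∈ S → q j = 1) ∧ (j ∉ S → (q j).Prime)) ∧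
      (∀ h < K * d, (¬ ∃ j ∈ S, h = j * d) → ∃ p : ℕ, p.Prime ∧ p ∣ W ∧ p ∣ v + h) := by
  classical
  obtain ⟨d, hd⟩ : ∃ d, d = primorial D₀ := ⟨_, rfl⟩
  have hd0 : 0 < d := hd ▸ primorial_pos D₀
  obtain ⟨M, hM⟩ : ∃ M, M = K * d := ⟨_, rfl⟩
  obtain ⟨B, hB⟩ : ∃ B, B = M + D₀ := ⟨_, rfl⟩
  set Q : ℕ → ℕ := crtQ B with hQdef
  have hQp : ∀ h, (Q h).Prime := fun h => crtQ_prime B h
  have hQlt : ∀ h, B + h < Q h := fun h => crtQ_lt B h
  have hQinj : ∀ h k, h ≠ k → Q h ≠ Q k := fun h k => crtQ_inj B h k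
  set s : ℕ → ℕ := fun i => if i < M then (Q i) ^ 2 else if i = M then d else Q (M + 1) with hs
  set t : Finset ℕ := (Finset.range (M + 2)).filter
    (fun i => M ≤ i ∨ ¬ ∃ j ∈ S, i = j * d) with ht
  set a : ℕ → ℕ := fun i => if i < M then Q i - i else 1 with ha
  have hsM : s M = d := by simp [hs]
  have hsM1 : s (M + 1) = Q (M + 1) := by simp [hs]
  have hslt : ∀ i, i < M → s i = (Q i) ^ 2 := fun i hi => by simp [hs, hi]
  have hMt : M ∈ t := by rw [ht, Finset.mem_filter, Finset.mem_range]; exact ⟨by omega, Or.inl le_rfl⟩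
  have hM1t : M + 1 ∈ t := by
    rw [ht, Finset.mem_filter, Finset.mem_range]; exact ⟨by omega, Or.inl (by omega)⟩
  have hsne : ∀ i ∈ t, s i ≠ 0 := by
    intro i _
    simp only [hs]
    split_ifs
    · exact pow_ne_zero 2 (hQp i).ne_zero
    · exact hd0.ne'
    · exact (hQp _).ne_zero
  have hcQd : ∀ h, Nat.Coprime (Q h) d := by
    intro h
    rw [hd]
    exact crt_cop_primorial _ _ (hQp h) (by have := hQlt h; omega)
  have hpair : Set.Pairwise (t : Set ℕ) (Function.onFun Nat.Coprime s) := by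
    have key : ∀ i k, i < k → k ≤ M + 1 → Nat.Coprime (s i) (s k) := by
      intro i k hik hk
      have hcop : Nat.Coprime (Q i) (Q k) :=
        (Nat.coprime_primes (hQp i) (hQp k)).2 (hQinj i k (by omega))
      rcases lt_trichotomy k M with h1 | h1 | h1
      · rw [hslt i (by omega), hslt k h1]
        exact Nat.Coprime.pow 2 2 hcop
      · rw [h1, hsM, hslt i (by omega)]
        exact Nat.Coprime.pow_left 2 (hcQd i)
      · have h2 : k = M + 1 := by omega
        rcases lt_or_eq_of_le (show i ≤ M by omega) with h3 | h3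
        · rw [h2, hsM1, hslt i h3]
          rw [h2] at hcop
          exact Nat.Coprime.pow_left 2 hcop
        · rw [h2, hsM1, h3, hsM]
          exact (hcQd _).symm
    intro i hi k hk hik
    have hi' : i < M + 2 := by
      have := (Finset.mem_filter.1 (Finset.mem_coe.1 hi)).1
      exact Finset.mem_range.1 this
    have hk' : k < M + 2 := by
      have := (Finset.mem_filter.1 (Finset.mem_coe.1 hk)).1
      exact Finset.mem_range.1 this
    rcases lt_or_gt_of_ne hik with h1 | h1
    · exact key i k h1 (by omega)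
    · exact (key k i h1 (by omega)).symm
  obtain ⟨v, hv⟩ := Nat.chineseRemainderOfFinset a s t hsne hpair
  obtain ⟨W, hW⟩ : ∃ W, W = ∏ i ∈ t, s i := ⟨_, rfl⟩
  have hW0 : 0 < W := by
    rw [hW]
    exact Finset.prod_pos fun i hi => Nat.pos_of_ne_zero (hsne i hi)
  have hsW : ∀ i ∈ t, s i ∣ W := fun i hi => by rw [hW]; exact Finset.dvd_prod_of_mem s hi
  have hbig : M < W := by
    have h1 : Q (M + 1) ≤ W := Nat.le_of_dvd hW0 (hsM1 ▸ hsW _ hM1t)
    have h2 := hQlt (M + 1)
    omega
  -- congruences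
  have hcI : ∀ h ∈ t, h < M → v + h ≡ Q h [MOD (Q h) ^ 2] := by
    intro h hht hhM
    have h1 := hv h hht
    rw [hslt h hhM] at h1
    have h2 : a h = Q h - h := by simp [ha, hhM]
    rw [h2] at h1
    have h3 := h1.add_right h
    have h4 := hQlt h
    rwa [show Q h - h + h = Q h by omega] at h3
  have hdvI : ∀ h ∈ t, h < M → Q h ∣ v + h := by
    intro h hht hhM
    have h1 := (hcI h hht hhM).of_dvd (dvd_pow_self (Q h) two_ne_zero)
    exact (Nat.modEq_zero_iff_dvd.1 (h1.trans (Nat.modEq_zero_iff_dvd.2 dvd_rfl)))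
  have hvd : v ≡ 1 [MOD d] := by
    have h1 := hv M hMt
    rw [hsM] at h1
    simpa [ha] using h1
  have hvE : v ≡ 1 [MOD Q (M + 1)] := by
    have h1 := hv (M + 1) hM1t
    rw [hsM1] at h1
    simpa [ha] using h1
  have hjt : ∀ j < K, j ∉ S → j * d ∈ t ∧ j * d < M := by
    intro j hj hjS
    have h1 : j * d < M := by rw [hM]; exact Nat.mul_lt_mul_of_pos_right hj hd0
    refine ⟨?_, h1⟩
    rw [ht, Finset.mem_filter, Finset.mem_range]
    refine ⟨by omega, Or.inr ?_⟩
    rintro ⟨j', hj', h2⟩
    have h3 : j = j' := Nat.eq_of_mul_eq_mul_right hd0 h2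
    exact hjS (h3 ▸ hj')
  refine ⟨d, W, v, fun j => if j ∈ S then 1 else Q (j * d), hd0, hW0, ?_, ?_, ?_, ?_, ?_⟩
  · rw [← hd]; exact hsM ▸ hsW _ hMt
  · exact hsM ▸ hsW _ hMt
  · rw [← hM]; exact hbig
  · intro j hj
    have hjM : j * d < M := by rw [hM]; exact Nat.mul_lt_mul_of_pos_right hj hd0
    have hqd : (if j ∈ S then 1 else Q (j * d)) ∣ v + j * d := by
      by_cases hjS : j ∈ S
      · simp [hjS]
      · simp only [hjS, if_false]
        exact hdvI _ (hjt j hj hjS).1 (hjt j hj hjS).2
    refine ⟨?_, hqd, ?_, ?_, ?_⟩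
    · by_cases hjS : j ∈ S
      · simp [hjS]
      · simp only [hjS, if_false]
        have h1 := hsW _ (hjt j hj hjS).1
        rw [hslt _ (hjt j hj hjS).2] at h1
        exact (dvd_pow_self (Q (j * d)) two_ne_zero).trans h1
    · have hmd : (v + j * d) / (if j ∈ S then 1 else Q (j * d)) ∣ v + j * d :=
        Nat.div_dvd_of_dvd hqd
      rw [hW]
      apply Nat.Coprime.prod_right
      intro i hi
      have hi2 : i < M + 2 := Finset.mem_range.1 (Finset.mem_filter.1 hi).1
      rcases lt_trichotomy i M with h1 | h1 | h1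
      · rw [hslt i h1]
        apply Nat.Coprime.pow_right
        rw [Nat.coprime_comm, (hQp i).coprime_iff_not_dvd]
        intro hdv
        by_cases hij : i = j * d
        · have hjS : j ∉ S := by
            intro hjS
            rcases (Finset.mem_filter.1 hi).2 with h2 | h2
            · omega
            · exact h2 ⟨j, hjS, hij⟩
          simp only [hjS, if_false] at hdv
          rw [← hij] at hdv
          have h2 : Q i ∣ v + i := hdvI i hi h1
          obtain ⟨c, hc⟩ := hdv
          have h3 : v + i = (Q i) ^ 2 * c := by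
            rw [← Nat.div_mul_cancel h2, hc]; ring
          have h4 : (Q i) ^ 2 ∣ Q i := by
            have h5 := hcI i hi h1
            have h6 : (Q i) ^ 2 ∣ v + i := ⟨c, h3⟩
            exact (Nat.modEq_zero_iff_dvd.1 (h5.symm.trans (Nat.modEq_zero_iff_dvd.2 h6)))
          have h5 := Nat.le_of_dvd (hQp i).pos h4
          have h6 := (hQp i).one_lt
          nlinarith
        · have h2 : Q i ∣ v + j * d := hdv.trans hmd
          have h3 : Q i ∣ v + i := hdvI i hi h1
          have h4 := hQlt i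
          rcases lt_or_gt_of_ne hij with h5 | h5
          · have h6 : Q i ∣ (v + j * d) - (v + i) := Nat.dvd_sub h2 h3
            have h7 := Nat.le_of_dvd (by omega) h6
            omega
          · have h6 : Q i ∣ (v + i) - (v + j * d) := Nat.dvd_sub h3 h2
            have h7 := Nat.le_of_dvd (by omega) h6
            omega
      · rw [h1, hsM]
        apply Nat.Coprime.coprime_dvd_left hmd
        have h2 : v + j * d ≡ 1 [MOD d] := by
          have h3 := hvd.add (Nat.modEq_zero_iff_dvd.2 (Dvd.intro_left j rfl) : j * d ≡ 0 [MOD d])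
          simpa using h3
        have h3 := h2.gcd_eq
        rw [Nat.coprime_iff_gcd_eq_one, Nat.gcd_comm]
        rw [Nat.gcd_comm, h3]
        simp
      · have h2 : i = M + 1 := by omega
        rw [h2, hsM1]
        apply Nat.Coprime.coprime_dvd_left hmd
        rw [Nat.coprime_comm, (hQp _).coprime_iff_not_dvd]
        intro hdv
        have h3 : 1 + j * d ≡ 0 [MOD Q (M + 1)] :=
          (hvE.symm.add_right (j * d)).trans (Nat.modEq_zero_iff_dvd.2 hdv)
        have h4 := Nat.le_of_dvd (by omega) (Nat.modEq_zero_iff_dvd.1 h3)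
        have h5 := hQlt (M + 1)
        omega
    · intro hjS; simp [hjS]
    · intro hjS; simp only [hjS, if_false]; exact hQp _
  · intro h hh hS
    rw [← hM] at hh
    have hht : h ∈ t := by
      rw [ht, Finset.mem_filter, Finset.mem_range]
      exact ⟨by omega, Or.inr hS⟩
    refine ⟨Q h, hQp h, ?_, hdvI h hht hh⟩
    have h1 := hsW h hht
    rw [hslt h hh] at h1
    exact (dvd_pow_self (Q h) two_ne_zero).trans h1

end Pool.Agent.Work.MP_bd2dcc_nt
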