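import Mathlib
import Pool.Agent.Work.MP_70e905_nt.MT.Defs

set_option autoImplicit false

/-!
Definitions for MP_bd2dcc_nt (almost prime affine combinations of consecutive primes).

Everything is built on the Maynard-Tao library Work/MP_70e905_nt/MT (labelled sets `LS`, weights `ff`,
configurations `Cfg`), see MT/Defs.lean and MP_73869e_nt/TH/TDef.lean.
-/

namespace Pool.Agent.Work.MP_bd2dcc_nt

open Finset Pool.Agent.Work.MP_73869e_nt.TH Pool.Agent.Work.MP_70e905_nt.MT

/-- the coefficients of the weight after conditioning on `(r, j)` being in the outcome -/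
noncomputable def Yr {K : ℕ} (r : ℕ) (j : Fin K) (Y : Finset (ℕ × Fin K) → ℝ)
    (A : Finset (ℕ × Fin K)) : ℝ :=
  Y A - (1 - gg r) * Y (insert (r, j) A) + gg r * ∑ i ∈ univ.erase j, Y (insert (r, i) A)

/-- the blocks with a prime: `cl i` is the block of the form `i` -/
def Bz {K : ℕ} (c : Cfg K) (cl : Fin K → ℕ) (J z : ℕ) : Finset ℕ :=
  (range J).filter (fun b => ∃ i, cl i = b ∧ (c.a i * z + c.b i).Prime)

/-- no form has a prime factor at most `y` -/
def Rg {K : ℕ} (c : Cfg K) (y : ℝ) (z : ℕ) : Prop :=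
  ∀ j, ∀ r : ℕ, r.Prime → r ∣ c.a j * z + c.b j → y < r

end Pool.Agent.Work.MP_bd2dcc_nt
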