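import Mathlib
import Pool.Agent.Work.MP_bd2dcc_nt.Defs

set_option autoImplicit false

/-!
MODULE F1 (the configuration of the positions).
-/

namespace Pool.Agent.Work.MP_bd2dcc_nt

open Finset Pool.Agent.Work.MP_70e905_nt.MT

/-- the configuration of the forms `(W z + v + i d) / q i` -/
def mkC (K d W v x : ℕ) (q : ℕ → ℕ) : Cfg K :=
  ⟨x, 0, fun i => W / q i, fun i => (v + i * d) / q i⟩

theorem mkC_ok (K D₀ d W v x : ℕ) (q : ℕ → ℕ) (hKD : K ≤ D₀) (hd : 0 < d) (hW : 0 < W)
    (hprim : primorial D₀ ∣ W) (hdW : d ∣ W) (hx : 1 ≤ x)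
    (hq : ∀ j < K, q j ∣ W ∧ q j ∣ v + j * d ∧ Nat.Coprime ((v + j * d) / q j) W) :
    (mkC K d W v x q).Ok D₀ W W (v + K * d) ∧
      (∀ p : ℕ, p.Prime → ¬ p ∣ W → ¬ bd (mkC K d W v x q).a (mkC K d W v x q).b p) ∧
      ∀ (i : Fin K) (z : ℕ), q i * ((mkC K d W v x q).a i * z + (mkC K d W v x q).b i) =
        W * z + v + i * d := by
  have hA : ∀ i : Fin K, q i * (W / q i) = W := fun i => Nat.mul_div_cancel' (hq i i.2).1
  have hB : ∀ i : Fin K, q i * ((v + i * d) / q i) = v + i * d :=
    fun i => Nat.mul_div_cancel' (hq i i.2).2.1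
  refine ⟨⟨hW, hprim, ?_, ?_, ?_, ?_, ?_, ?_⟩, ?_, ?_⟩
  · intro i
    show 1 ≤ W / q i
    rcases Nat.eq_zero_or_pos (W / q i) with h | h
    · have h1 := hA i
      rw [h, mul_zero] at h1
      omega
    · exact h
  · intro i
    exact Nat.div_le_self _ _
  · intro i p _ hp2
    exact hp2.trans (Nat.div_dvd_of_dvd (hq i i.2).1)
  · intro i
    show (v + i * d) / q i ≤ (v + K * d) * x
    have h1 : (v + (i : ℕ) * d) / q i ≤ v + i * d := Nat.div_le_self _ _
    have h2 : (i : ℕ) * d ≤ K * d := Nat.mul_le_mul_right d i.2.le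
    have h3 : v + K * d ≤ (v + K * d) * x := Nat.le_mul_of_pos_right _ hx
    omega
  · intro i
    show Nat.Coprime (W / q i * 0 + (v + i * d) / q i) W
    rw [mul_zero, zero_add]
    exact (hq i i.2).2.2
  · intro i j hij h
    have h0 : W / q i * ((v + j * d) / q j) = W / q j * ((v + i * d) / q i) := h
    have h1 : W * (v + j * d) = W * (v + i * d) := by
      calc W * (v + j * d) = (q i * (W / q i)) * (q j * ((v + j * d) / q j)) := by rw [hA i, hB j]
        _ = q i * q j * (W / q i * ((v + j * d) / q j)) := by ring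
        _ = q i * q j * (W / q j * ((v + i * d) / q i)) := by rw [h0]
        _ = (q j * (W / q j)) * (q i * ((v + i * d) / q i)) := by ring
        _ = W * (v + i * d) := by rw [hA j, hB i]
    have h2 := Nat.eq_of_mul_eq_mul_left hW h1
    have h3 : (j : ℕ) * d = i * d := by omega
    exact hij (Fin.ext (Nat.eq_of_mul_eq_mul_right hd h3).symm)
  · rintro p hp hpW ⟨i, j, hij, h⟩
    have h0 : W / q i * ((v + j * d) / q j) ≡ W / q j * ((v + i * d) / q i) [MOD p] := h
    have h1 : W * (v + j * d) ≡ W * (v + i * d) [MOD p] := by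
      have h2 := h0.mul_left (q i * q j)
      calc W * (v + j * d) = (q i * (W / q i)) * (q j * ((v + j * d) / q j)) := by rw [hA i, hB j]
        _ = q i * q j * (W / q i * ((v + j * d) / q j)) := by ring
        _ ≡ q i * q j * (W / q j * ((v + i * d) / q i)) [MOD p] := h2
        _ = (q j * (W / q j)) * (q i * ((v + i * d) / q i)) := by ring
        _ = W * (v + i * d) := by rw [hA j, hB i]
    have hcop : p.gcd W = 1 := (hp.coprime_iff_not_dvd).2 hpW
    have h2 := Nat.ModEq.cancel_left_of_coprime hcop h1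
    have h3 : (j : ℕ) * d ≡ i * d [MOD p] := Nat.ModEq.add_left_cancel' v h2
    have hcd : p.gcd d = 1 := (hp.coprime_iff_not_dvd).2 (fun hh => hpW (hh.trans hdW))
    have h4 : (j : ℕ) ≡ i [MOD p] := Nat.ModEq.cancel_right_of_coprime hcd h3
    have hpK : p ≤ K := by
      by_contra hlt
      push Not at hlt
      have h5 := h4.eq_of_lt_of_lt (lt_trans j.2 hlt) (lt_trans i.2 hlt)
      exact hij (Fin.ext h5.symm)
    have h5 : p ∣ primorial D₀ := by
      unfold primorial
      apply Finset.dvd_prod_of_mem (fun p => p)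
      rw [Finset.mem_filter, Finset.mem_range]
      exact ⟨by omega, hp⟩
    exact hpW (h5.trans hprim)
  · intro i z
    show q i * (W / q i * z + (v + i * d) / q i) = W * z + v + i * d
    rw [mul_add, ← mul_assoc, hA i, hB i]
    ring

end Pool.Agent.Work.MP_bd2dcc_nt
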