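import Mathlib

set_option autoImplicit false

/-!
MODULE F2 (the consecutive primes of the window).
-/

namespace Pool.Agent.Work.MP_bd2dcc_nt

open Finset

theorem window (n K d N : ℕ) (S : Finset ℕ) (hS : ∀ l ∈ S, l < K) (hd : 0 < d)
    (hcomp : ∀ h < K * d, (¬ ∃ l ∈ S, h = l * d) → ¬ (n + h).Prime)
    (hcard : N + 1 ≤ #(S.filter (fun l => (n + l * d).Prime))) :
    ∀ i ≤ N, ∃ l ∈ S, Nat.nth Nat.Prime (Nat.count Nat.Prime n + i) = n + l * d := by
  classical
  have h1 : N + 1 ≤ Nat.count (fun k => (n + k).Prime) (K * d) := by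
    rw [Nat.count_eq_card_filter_range]
    refine hcard.trans ?_
    have h2 : (S.filter (fun l => (n + l * d).Prime)).image (fun l => l * d) ⊆
        (Finset.range (K * d)).filter (fun k => (n + k).Prime) := by
      intro x hx
      obtain ⟨l, hl, rfl⟩ := Finset.mem_image.1 hx
      rw [Finset.mem_filter] at hl
      rw [Finset.mem_filter, Finset.mem_range]
      exact ⟨Nat.mul_lt_mul_of_pos_right (hS l hl.1) hd, hl.2⟩
    have h3 : #((S.filter (fun l => (n + l * d).Prime)).image (fun l => l * d)) =
        #(S.filter (fun l => (n + l * d).Prime)) := by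
      apply Finset.card_image_of_injective
      intro x y hxy
      exact Nat.eq_of_mul_eq_mul_right hd hxy
    rw [← h3]
    exact Finset.card_le_card h2
  have h2 : Nat.count Nat.Prime n + (N + 1) ≤ Nat.count Nat.Prime (n + K * d) := by
    rw [Nat.count_add]
    omega
  intro i hi
  have h3 : Nat.nth Nat.Prime (Nat.count Nat.Prime n + i) < n + K * d :=
    Nat.nth_lt_of_lt_count (by omega)
  have h4 : n ≤ Nat.nth Nat.Prime (Nat.count Nat.Prime n + i) := by
    by_contra hlt
    push Not at hlt
    have h5 := Nat.count_nth_of_infinite (Nat.infinite_setOfPred_prime)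
      (Nat.count Nat.Prime n + i)
    have h6 := Nat.count_monotone Nat.Prime (show Nat.nth Nat.Prime (Nat.count Nat.Prime n + i) + 1 ≤ n by omega)
    rw [Nat.count_succ, h5, if_pos (Nat.nth_mem_of_infinite Nat.infinite_setOfPred_prime _)] at h6
    omega
  have h5 : (Nat.nth Nat.Prime (Nat.count Nat.Prime n + i)).Prime :=
    Nat.nth_mem_of_infinite Nat.infinite_setOfPred_prime _
  by_contra hno
  push Not at hno
  refine hcomp (Nat.nth Nat.Prime (Nat.count Nat.Prime n + i) - n) (by omega) ?_ ?_
  · rintro ⟨l, hl, hl2⟩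
    exact hno l hl (by omega)
  · rwa [show n + (Nat.nth Nat.Prime (Nat.count Nat.Prime n + i) - n) =
      Nat.nth Nat.Prime (Nat.count Nat.Prime n + i) by omega]

end Pool.Agent.Work.MP_bd2dcc_nt
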