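import Mathlib

set_option autoImplicit false

/-!
MODULE F3 (the positions of the primes and of the affine combinations, and the blocks).
-/

namespace Pool.Agent.Work.MP_bd2dcc_nt

open Finset

/-- the number of positions -/
def KK (N B U : ℕ) : ℕ := 2 * (B.factorial * (B * (N + 1) * U)) + 1

/-- the positions of the primes -/
def SS (N B U : ℕ) : Finset ℕ := (range U).image (fun u => B.factorial * (B * (N + 1) * U + u))

theorem SS_lt (N B U : ℕ) (hB : 1 ≤ B) : ∀ l ∈ SS N B U, l < KK N B U := by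
  intro l hl
  unfold SS at hl
  obtain ⟨u, hu, rfl⟩ := Finset.mem_image.1 hl
  rw [Finset.mem_range] at hu
  unfold KK
  have h1 : 0 < B.factorial := Nat.factorial_pos B
  have h2 : u ≤ B * (N + 1) * U := by
    have h3 : 1 ≤ B * (N + 1) := Nat.mul_pos hB (Nat.succ_pos N)
    nlinarith
  have h3 : B.factorial * (B * (N + 1) * U + u) ≤ 2 * (B.factorial * (B * (N + 1) * U)) := by
    nlinarith
  omega

theorem affine (N B U : ℕ) (l : ℕ → ℕ) (hl : ∀ i ≤ N, l i ∈ SS N B U) (g : ℕ) (hg : 1 ≤ g)
    (hgB : g ≤ B) (a : ℕ → ℤ) (ha : ∀ i ≤ N, |a i| ≤ B) (hsum : ∑ i ∈ range (N + 1), a i = g) :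
    ∃ l' < KK N B U, ∑ i ∈ range (N + 1), a i * (l i : ℤ) = g * (l' : ℤ) := by
  classical
  have h1 : ∀ i, ∃ u, i ≤ N → u < U ∧ B.factorial * (B * (N + 1) * U + u) = l i := by
    intro i
    by_cases hi : i ≤ N
    · have h2 := hl i hi
      unfold SS at h2
      obtain ⟨u, hu, h3⟩ := Finset.mem_image.1 h2
      exact ⟨u, fun _ => ⟨Finset.mem_range.1 hu, h3⟩⟩
    · exact ⟨0, fun h => absurd h hi⟩
  choose u hu using h1
  obtain ⟨e, he⟩ : g ∣ B.factorial := Nat.dvd_factorial hg hgB
  have he0 : 0 < e := by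
    rcases Nat.eq_zero_or_pos e with h | h
    · rw [h, mul_zero] at he
      exact absurd he (Nat.factorial_pos B).ne'
    · exact h
  set s : ℕ := B * (N + 1) * U with hs
  set T : ℤ := ∑ i ∈ range (N + 1), a i * (u i : ℤ) with hT
  have hTabs : |T| ≤ (s : ℤ) := by
    rw [hT]
    refine (Finset.abs_sum_le_sum_abs _ _).trans ?_
    have h2 : ∀ i ∈ range (N + 1), |a i * (u i : ℤ)| ≤ (B : ℤ) * U := by
      intro i hi
      have hi' : i ≤ N := by have := Finset.mem_range.1 hi; omega
      rw [abs_mul, Nat.abs_cast]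
      have h3 := ha i hi'
      have h4 : (u i : ℤ) ≤ U := by exact_mod_cast (hu i hi').1.le
      exact mul_le_mul h3 h4 (by positivity) (by positivity)
    refine (Finset.sum_le_sum h2).trans ?_
    rw [Finset.sum_const, Finset.card_range, hs]
    push_cast
    rw [nsmul_eq_mul]
    push_cast
    nlinarith
  have hmain : ∑ i ∈ range (N + 1), a i * (l i : ℤ) = g * ((B.factorial : ℤ) * s + e * T) := by
    have h2 : ∀ i ∈ range (N + 1), a i * (l i : ℤ) =
        (B.factorial : ℤ) * s * a i + (B.factorial : ℤ) * (a i * (u i : ℤ)) := by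
      intro i hi
      have hi' : i ≤ N := by have := Finset.mem_range.1 hi; omega
      rw [← (hu i hi').2]
      push_cast
      ring
    rw [Finset.sum_congr rfl h2, Finset.sum_add_distrib, ← Finset.mul_sum, ← Finset.mul_sum, hsum,
      ← hT]
    have h3 : (B.factorial : ℤ) = g * e := by exact_mod_cast he
    rw [h3]
    ring
  have he' : (e : ℤ) ≤ B.factorial := by
    have h3 : e ≤ B.factorial := by rw [he]; exact Nat.le_mul_of_pos_left e hg
    exact_mod_cast h3
  have habs : |(e : ℤ) * T| ≤ (B.factorial : ℤ) * s := by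
    rw [abs_mul, Nat.abs_cast]
    exact mul_le_mul he' hTabs (abs_nonneg _) (by positivity)
  have h5 := abs_le.1 habs
  have h6 : 0 ≤ (B.factorial : ℤ) * s + e * T := by linarith [h5.1]
  obtain ⟨l', hl'⟩ := Int.eq_ofNat_of_zero_le h6
  refine ⟨l', ?_, ?_⟩
  · unfold KK
    rw [← hs]
    have h7 : (l' : ℤ) ≤ 2 * ((B.factorial : ℤ) * s) := by
      rw [← hl']; linarith [h5.2]
    have h8 : l' ≤ 2 * (B.factorial * s) := by exact_mod_cast h7
    omega
  · rw [hmain, hl']

theorem blocks (N B J m : ℕ) (hB : 1 ≤ B) (hm : 0 < m) : ∃ cl : Fin (KK N B (J * m)) → ℕ,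
    (∀ b < J, #(univ.filter (fun i => cl i = b)) = m) ∧
      ∀ i, cl i < J → (i : ℕ) ∈ SS N B (J * m) := by
  classical
  set f : ℕ := B.factorial with hf
  have hf0 : 0 < f := Nat.factorial_pos B
  set s : ℕ := B * (N + 1) * (J * m) with hs
  have hmem : ∀ i, i ∈ SS N B (J * m) ↔ ∃ u < J * m, f * (s + u) = i := by
    intro i
    unfold SS
    rw [Finset.mem_image]
    constructor
    · rintro ⟨u, hu, h⟩; exact ⟨u, Finset.mem_range.1 hu, h⟩
    · rintro ⟨u, hu, h⟩; exact ⟨u, Finset.mem_range.2 hu, h⟩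
  refine ⟨fun i => if (i : ℕ) ∈ SS N B (J * m) then ((i : ℕ) / f - s) / m else J, ?_, ?_⟩
  · intro b hb
    have hbm : m * (b + 1) ≤ J * m := by
      rw [mul_comm J m]; exact Nat.mul_le_mul_left m hb
    have h1 : ∀ k : Fin m, f * (s + (m * b + (k : ℕ))) < KK N B (J * m) := by
      intro k
      apply SS_lt N B (J * m) hB
      rw [hmem]
      exact ⟨m * b + k, by have := k.2; nlinarith, rfl⟩
    have h2 : (univ.filter (fun i : Fin (KK N B (J * m)) =>
        (if (i : ℕ) ∈ SS N B (J * m) then ((i : ℕ) / f - s) / m else J) = b)) =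
        (univ : Finset (Fin m)).image (fun k : Fin m =>
          (⟨f * (s + (m * b + (k : ℕ))), h1 k⟩ : Fin (KK N B (J * m)))) := by
      ext i
      simp only [Finset.mem_filter, Finset.mem_univ, true_and, Finset.mem_image]
      constructor
      · intro h
        split_ifs at h with h3
        · obtain ⟨u, hu, h4⟩ := (hmem _).1 h3
          rw [← h4, Nat.mul_div_cancel_left _ hf0, Nat.add_sub_cancel_left] at h
          have h5 : u % m < m := Nat.mod_lt _ hm
          refine ⟨⟨u % m, h5⟩, ?_⟩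
          apply Fin.ext
          simp only
          rw [← h, Nat.div_add_mod, h4]
        · omega
      · rintro ⟨k, rfl⟩
        simp only
        rw [if_pos]
        · rw [Nat.mul_div_cancel_left _ hf0, Nat.add_sub_cancel_left, Nat.mul_add_div hm,
            Nat.div_eq_of_lt k.2, add_zero]
        · rw [hmem]
          exact ⟨m * b + k, by have := k.2; nlinarith, rfl⟩
    rw [h2, Finset.card_image_of_injective, Finset.card_univ, Fintype.card_fin]
    intro x y hxy
    have h3 := congrArg Fin.val hxy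
    simp only at h3
    have h4 := Nat.eq_of_mul_eq_mul_left hf0 h3
    exact Fin.ext (by omega)
  · intro i hi
    by_contra h
    simp only [h, if_false] at hi
    omega

theorem size (N B m : ℕ) (hB : 1 ≤ B) (hm : 0 < m) : m ≤ KK N B (10 * (N + 1) * m) ∧
    KK N B (10 * (N + 1) * m) ≤ (20 * B.factorial * B * (N + 1) ^ 2 + 1) * m := by
  unfold KK
  have h1 : 1 ≤ B.factorial := Nat.factorial_pos B
  constructor
  · have h2 : 1 ≤ B.factorial * (B * (N + 1) * (10 * (N + 1))) :=
      Nat.mul_pos h1 (Nat.mul_pos (Nat.mul_pos hB (Nat.succ_pos N)) (by omega))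
    calc m = 1 * m := (one_mul m).symm
      _ ≤ (B.factorial * (B * (N + 1) * (10 * (N + 1)))) * m := Nat.mul_le_mul_right m h2
      _ = B.factorial * (B * (N + 1) * (10 * (N + 1) * m)) := by ring
      _ ≤ _ := by omega
  · nlinarith [hm]

end Pool.Agent.Work.MP_bd2dcc_nt
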