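import Mathlib
import Pool.Agent.Work.MP_bd2dcc_nt.Defs

set_option autoImplicit false

/-!
MODULE B1 (one block has a prime with probability at least 23/100), size S-M, Mathlib only.
Let S0 = the left hand mass restricted to {z : ∃ i ∈ B, q z i} (the right side), M z = number of i ∈ B with q z i,
V = sum over i ∈ B of sum over z ∈ dom, q z i of w z = sum over z of w z * M z (only z in that set matter). Cauchy-Schwarz:
V^2 ≤ S0 * (sum over z of w z (M z)^2) and the last sum is V + (sum over ordered pairs i ≠ j in B) ≤ V + m^2 T3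
(compare the lemma `cluster` of MT/G1, whose proof can be copied). V ≥ m T2 =: a ≥ 6 T1 > 0 and V^2 / (V + m^2 T3) is increasing
in V ≥ 0, so S0 ≥ a^2 / (a + m^2 T3) ≥ a^2 / (a + (41/10) a^2 / T1) = T1 a / (T1 + (41/10) a) ≥ T1 * 6 / (1 + 24.6) ≥ (23/100) T1.
-/

namespace Pool.Agent.Work.MP_bd2dcc_nt

open Finset

private theorem B1_cs {K : ℕ} (dom : Finset ℕ) (w : ℕ → ℝ) (hw : ∀ z, 0 ≤ w z) (B : Finset (Fin K))
    (q : ℕ → Fin K → Prop) [∀ z i, Decidable (q z i)] :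
    (∑ i ∈ B, ∑ z ∈ dom.filter (fun z => q z i), w z) ^ 2 ≤
      (∑ z ∈ dom.filter (fun z => ∃ i ∈ B, q z i), w z) *
        (∑ i ∈ B, ∑ z ∈ dom.filter (fun z => q z i), w z +
          ∑ i ∈ B, ∑ j ∈ B.erase i, ∑ z ∈ dom.filter (fun z => q z i ∧ q z j), w z) := by
  classical
  set D := dom.filter (fun z => ∃ i ∈ B, q z i) with hD
  set N : ℕ → ℝ := fun z => ∑ i ∈ B, if q z i then (1 : ℝ) else 0 with hN
  have hres : ∀ i ∈ B, dom.filter (fun z => q z i) = D.filter (fun z => q z i) := by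
    intro i hi
    ext z
    simp only [hD, mem_filter]
    exact ⟨fun h => ⟨⟨h.1, i, hi, h.2⟩, h.2⟩, fun h => ⟨h.1.1, h.2⟩⟩
  have hres2 : ∀ i ∈ B, ∀ j, dom.filter (fun z => q z i ∧ q z j) =
      D.filter (fun z => q z i ∧ q z j) := by
    intro i hi j
    ext z
    simp only [hD, mem_filter]
    exact ⟨fun h => ⟨⟨h.1, i, hi, h.2.1⟩, h.2⟩, fun h => ⟨h.1.1, h.2⟩⟩
  have h1 : ∑ i ∈ B, ∑ z ∈ dom.filter (fun z => q z i), w z = ∑ z ∈ D, w z * N z := by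
    rw [sum_congr rfl (fun i hi => by rw [hres i hi])]
    simp only [Finset.sum_filter]
    rw [Finset.sum_comm]
    refine Finset.sum_congr rfl fun z _ => ?_
    rw [hN]
    simp only [Finset.mul_sum, mul_ite, mul_one, mul_zero]
  have h2 : ∑ i ∈ B, ∑ z ∈ dom.filter (fun z => q z i), w z +
        ∑ i ∈ B, ∑ j ∈ B.erase i, ∑ z ∈ dom.filter (fun z => q z i ∧ q z j), w z =
      ∑ z ∈ D, w z * N z ^ 2 := by
    have e0 : ∑ i ∈ B, ∑ z ∈ dom.filter (fun z => q z i), w z =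
        ∑ i ∈ B, ∑ z ∈ D, if q z i then w z else 0 :=
      sum_congr rfl (fun i hi => by rw [hres i hi, sum_filter])
    have e2 : ∑ i ∈ B, ∑ j ∈ B.erase i, ∑ z ∈ dom.filter (fun z => q z i ∧ q z j), w z =
        ∑ i ∈ B, ∑ j ∈ B.erase i, ∑ z ∈ D, if q z i ∧ q z j then w z else 0 :=
      sum_congr rfl (fun i hi => sum_congr rfl fun j _ => by rw [hres2 i hi j, sum_filter])
    have e3 : ∀ z, w z * N z ^ 2 = ∑ i ∈ B, ((if q z i then w z else 0) +
        ∑ j ∈ B.erase i, if q z i ∧ q z j then w z else 0) := by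
      intro z
      rw [hN, sq, Finset.sum_mul_sum, Finset.mul_sum]
      refine Finset.sum_congr rfl fun i hi => ?_
      rw [← add_sum_erase B _ hi, mul_add, mul_sum]
      congr 1
      · by_cases h : q z i <;> simp [h]
      · refine sum_congr rfl fun j _ => ?_
        by_cases h : q z i <;> by_cases h' : q z j <;> simp [h, h']
    rw [e0, e2, ← sum_add_distrib]
    simp only [e3]
    rw [sum_comm]
    refine sum_congr rfl fun i _ => ?_
    rw [sum_add_distrib, sum_comm (s := B.erase i)]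
  rw [h2, h1]
  have h3 := Finset.sum_mul_sq_le_sq_mul_sq D (fun z => √(w z)) (fun z => √(w z) * N z)
  have e4 : ∀ z, √(w z) * (√(w z) * N z) = w z * N z := by
    intro z
    rw [← mul_assoc, Real.mul_self_sqrt (hw z)]
  have e5 : ∀ z, √(w z) ^ 2 = w z := fun z => Real.sq_sqrt (hw z)
  have e6 : ∀ z, (√(w z) * N z) ^ 2 = w z * N z ^ 2 := by
    intro z
    rw [mul_pow, Real.sq_sqrt (hw z)]
  simp only [e4, e5, e6] at h3
  exact h3

private theorem B1_num (S0 V E T1 T2 T3 m : ℝ) (hT1 : 0 < T1) (hT3 : 0 ≤ T3) (hm : 0 ≤ m)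
    (hS0 : 0 ≤ S0) (hV : m * T2 ≤ V) (hE : E ≤ m ^ 2 * T3) (hC : V ^ 2 ≤ S0 * (V + E))
    (hT : T1 * T3 ≤ 41 / 10 * T2 ^ 2) (h6 : 6 * T1 ≤ m * T2) : 23 / 100 * T1 ≤ S0 := by
  have ha : 0 < m * T2 := by linarith
  have hV0 : 0 < V := by linarith
  -- m^2 T1 T3 ≤ 4.1 (m T2)^2 ≤ 4.1 V^2
  have h1 : T1 * E ≤ 41 / 10 * V ^ 2 := by
    calc T1 * E ≤ T1 * (m ^ 2 * T3) := by gcongr
      _ = m ^ 2 * (T1 * T3) := by ring
      _ ≤ m ^ 2 * (41 / 10 * T2 ^ 2) := by gcongr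
      _ = 41 / 10 * (m * T2) ^ 2 := by ring
      _ ≤ 41 / 10 * V ^ 2 := by gcongr
  have h2 : T1 * V ^ 2 ≤ S0 * (T1 * V + 41 / 10 * V ^ 2) := by
    calc T1 * V ^ 2 ≤ T1 * (S0 * (V + E)) := by gcongr
      _ = S0 * (T1 * V + T1 * E) := by ring
      _ ≤ S0 * (T1 * V + 41 / 10 * V ^ 2) := by gcongr
  have h3 : T1 * V ≤ 1 / 6 * V ^ 2 := by
    have : T1 ≤ 1 / 6 * V := by linarith
    nlinarith
  have h4 : T1 * V ^ 2 ≤ S0 * ((1 / 6 + 41 / 10) * V ^ 2) := by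
    refine h2.trans ?_
    gcongr
    linarith
  have h5 : T1 ≤ S0 * (1 / 6 + 41 / 10) := by
    have hV2 : 0 < V ^ 2 := by positivity
    have : T1 * V ^ 2 ≤ S0 * (1 / 6 + 41 / 10) * V ^ 2 := by linarith
    exact le_of_mul_le_mul_right this hV2
  linarith

theorem block {K : ℕ} (dom : Finset ℕ) (w : ℕ → ℝ) (hw : ∀ z, 0 ≤ w z) (B : Finset (Fin K))
    (q : ℕ → Fin K → Prop) [∀ z i, Decidable (q z i)] (m : ℕ) (hm : #B = m) (T1 T2 T3 : ℝ)
    (hT1 : 0 < T1) (hT2 : 0 ≤ T2) (hT3 : 0 ≤ T3)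
    (hlow : ∀ i ∈ B, T2 ≤ ∑ z ∈ dom.filter (fun z => q z i), w z)
    (hup : ∀ i ∈ B, ∀ j ∈ B, i ≠ j → ∑ z ∈ dom.filter (fun z => q z i ∧ q z j), w z ≤ T3)
    (hT : T1 * T3 ≤ 41 / 10 * T2 ^ 2) (h6 : 6 * T1 ≤ m * T2) :
    23 / 100 * T1 ≤ ∑ z ∈ dom.filter (fun z => ∃ i ∈ B, q z i), w z := by
  refine B1_num _ _ _ T1 T2 T3 m hT1 hT3 (Nat.cast_nonneg m) (sum_nonneg fun z _ => hw z) ?_ ?_
    (B1_cs dom w hw B q) hT h6
  · calc (m : ℝ) * T2 = ∑ _i ∈ B, T2 := by rw [sum_const, hm, nsmul_eq_mul]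
      _ ≤ _ := sum_le_sum hlow
  · calc ∑ i ∈ B, ∑ j ∈ B.erase i, ∑ z ∈ dom.filter (fun z => q z i ∧ q z j), w z
        ≤ ∑ i ∈ B, ∑ j ∈ B.erase i, T3 :=
          sum_le_sum fun i hi => sum_le_sum fun j hj =>
            hup i hi j (mem_of_mem_erase hj) (ne_of_mem_erase hj).symm
      _ ≤ ∑ i ∈ B, m * T3 := by
          refine sum_le_sum fun i _ => ?_
          rw [sum_const, nsmul_eq_mul]
          refine mul_le_mul_of_nonneg_right ?_ hT3
          rw [← hm]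
          exact_mod_cast card_le_card (erase_subset i B)
      _ = (m : ℝ) ^ 2 * T3 := by
          rw [sum_const, hm, nsmul_eq_mul]
          ring

end Pool.Agent.Work.MP_bd2dcc_nt
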