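import Mathlib
import Pool.Agent.Work.MP_bd2dcc_nt.Defs

set_option autoImplicit false

/-!
MODULE B2 (many blocks with primes), size S, Mathlib only.
sum over z of w z * #(S z) = sum over b < 10 N of sum over z with b ∈ S z of w z ≥ 10 N * (23/100) T1 = 2.3 N T1, and it is
≤ (N - 1) * (sum over #(S z) < N of w z) + 10 N * G ≤ (N - 1) T1 + 10 N G with G the right side. So
G ≥ (1.3 N + 1) T1 / (10 N) ≥ T1 / 10.
-/

namespace Pool.Agent.Work.MP_bd2dcc_nt

open Finset

theorem many (N : ℕ) (hN : 1 ≤ N) (dom : Finset ℕ) (w : ℕ → ℝ) (hw : ∀ z, 0 ≤ w z)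
    (S : ℕ → Finset ℕ) (hS : ∀ z, S z ⊆ range (10 * N)) (T1 : ℝ) (hT1 : 0 ≤ T1)
    (h0 : ∑ z ∈ dom, w z ≤ T1)
    (hb : ∀ b < 10 * N, 23 / 100 * T1 ≤ ∑ z ∈ dom.filter (fun z => b ∈ S z), w z) :
    1 / 10 * T1 ≤ ∑ z ∈ dom.filter (fun z => N ≤ #(S z)), w z := by
  have hNr : (1 : ℝ) ≤ N := by exact_mod_cast hN
  set G := ∑ z ∈ dom.filter (fun z => N ≤ #(S z)), w z with hG
  have h1 : (10 * N : ℝ) * (23 / 100 * T1) ≤ ∑ z ∈ dom, w z * #(S z) := by
    calc (10 * N : ℝ) * (23 / 100 * T1) = ∑ _b ∈ range (10 * N), 23 / 100 * T1 := by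
          rw [sum_const, card_range, nsmul_eq_mul]
          push_cast
          ring
      _ ≤ ∑ b ∈ range (10 * N), ∑ z ∈ dom.filter (fun z => b ∈ S z), w z :=
          sum_le_sum fun b hb' => hb b (mem_range.1 hb')
      _ = ∑ z ∈ dom, w z * #(S z) := by
          simp only [sum_filter]
          rw [sum_comm]
          refine sum_congr rfl fun z _ => ?_
          rw [← sum_filter, sum_const, nsmul_eq_mul, mul_comm]
          congr 3
          ext b
          rw [mem_filter]
          exact ⟨fun h => h.2, fun h => ⟨hS z h, h⟩⟩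
  have h2 : ∑ z ∈ dom, w z * #(S z) ≤ (N - 1) * T1 + 10 * N * G := by
    have h3 : ∀ z ∈ dom, w z * #(S z) ≤ (N - 1) * w z +
        (if N ≤ #(S z) then 10 * N * w z else 0) := by
      intro z _
      have h4 : (#(S z) : ℝ) ≤ 10 * N := by
        have := card_le_card (hS z)
        rw [card_range] at this
        exact_mod_cast this
      split_ifs with h5
      · have h6 : 0 ≤ ((N : ℝ) - 1) * w z := mul_nonneg (by linarith) (hw z)
        have h7 : w z * #(S z) ≤ w z * (10 * N) := mul_le_mul_of_nonneg_left h4 (hw z)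
        linarith
      · have h6 : (#(S z) : ℝ) ≤ N - 1 := by
          have : #(S z) + 1 ≤ N := by omega
          have h8 : ((#(S z) + 1 : ℕ) : ℝ) ≤ N := by exact_mod_cast this
          push_cast at h8
          linarith
        have h7 : w z * #(S z) ≤ w z * (N - 1) := mul_le_mul_of_nonneg_left h6 (hw z)
        linarith
    calc ∑ z ∈ dom, w z * #(S z) ≤ ∑ z ∈ dom, ((N - 1) * w z +
          (if N ≤ #(S z) then 10 * N * w z else 0)) := sum_le_sum h3
      _ = (N - 1) * ∑ z ∈ dom, w z + 10 * N * G := by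
          rw [sum_add_distrib, ← mul_sum, ← sum_filter, ← mul_sum]
      _ ≤ _ := by
          have : (0 : ℝ) ≤ (N : ℝ) - 1 := by linarith
          gcongr
  have h3 : (10 * N : ℝ) * (23 / 100 * T1) ≤ (N - 1) * T1 + 10 * N * G := h1.trans h2
  have hN0 : (0 : ℝ) < 10 * N := by linarith
  have h4 : (10 * N : ℝ) * (1 / 10 * T1) ≤ 10 * N * G := by
    have h5 : 0 ≤ (3 / 10 * (N : ℝ) + 1) * T1 := by positivity
    nlinarith
  exact le_of_mul_le_mul_left h4 hN0

end Pool.Agent.Work.MP_bd2dcc_nt
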