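import Mathlib
import Pool.Agent.Work.MP_70e905_nt.MT.G2

set_option autoImplicit false

/-!
MODULE Q (the inequality for the expected number of primes, with a factor R), size S. Same computation as `ineq_6` of MT/G2
(copy the proof): K T2 ≥ 6 R T1 because L ≥ 5 * 10^8 * R * C₀^2; then K ≤ R m and T2 ≥ 0 give R (6 T1) ≤ K T2 ≤ R m T2, so
6 T1 ≤ m T2 (R > 0).
-/

namespace Pool.Agent.Work.MP_bd2dcc_nt

theorem ineq_6R (K L m R : ℕ) (hK : 1 ≤ K) (hR : 1 ≤ R) (hKm : K ≤ R * m)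
    (C₀ t₀ g rW' r k lx X q2 U1' U2' : ℝ) (hC₀ : 1 ≤ C₀)
    (hL : 5 * 10 ^ 8 * R * C₀ ^ 2 ≤ L) (ht₀ : t₀ = 1 / 1000 * (1 / 1000) / (8 * K * C₀ * L)) (hg : 1 ≤ g)
    (hg' : g ≤ 1 + 1 / 1000) (hrW : 0 < rW') (hr : 0 ≤ r) (hk : 0 < k) (hlx : 0 < lx) (hX : 0 < X)
    (hq2 : 0 ≤ q2) (hU1 : k * lx * L * t₀ ≤ U1') (hU2 : 0 < U2') (hU2' : U2' ≤ 8 * (C₀ * (k * lx)) * t₀)
    (hrk : rW' * r ≤ (1 + 1 / 1000) * k) :
    6 * ((g + 1 / 1000) * (X * rW' * lx) * (q2 * r) * U2' ^ K) ≤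
      m * ((1 - 4 * (1 / 1000)) * X * q2 * U1' ^ 2 * U2' ^ (K - 1)) := by
  have hRp : (1 : ℝ) ≤ R := by exact_mod_cast hR
  have hmain : 6 * R * ((g + 1 / 1000) * (X * rW' * lx) * (q2 * r) * U2' ^ K) ≤
      K * ((1 - 4 * (1 / 1000)) * X * q2 * U1' ^ 2 * U2' ^ (K - 1)) := by
    obtain ⟨n, rfl⟩ : ∃ n, K = n + 1 := ⟨K - 1, by omega⟩
    have e2 : n + 1 - 1 = n := by omega
    rw [e2]
    have hKp : (0 : ℝ) < ((n + 1 : ℕ) : ℝ) := by positivity
    have hLp : (0 : ℝ) < L := lt_of_lt_of_le (by positivity) hL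
    have ht0 : 0 < t₀ := by
      rw [ht₀]
      positivity
    set κ : ℝ := ((n + 1 : ℕ) : ℝ) with hκ
    -- remove the common factor
    have hM0 : 0 ≤ X * q2 * U2' ^ n := by positivity
    have key : 6 * R * ((g + 1 / 1000) * lx * (rW' * r) * U2') ≤
        κ * ((1 - 4 * (1 / 1000)) * U1' ^ 2) := by
      have a1 : (g + 1 / 1000) * lx * (rW' * r) * U2' ≤
          (1 + 2 / 1000) * lx * ((1 + 1 / 1000) * k) * (8 * (C₀ * (k * lx)) * t₀) := by
        have b1 : (g + 1 / 1000) * lx ≤ (1 + 2 / 1000) * lx :=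
          mul_le_mul_of_nonneg_right (by linarith) hlx.le
        have b2 : (g + 1 / 1000) * lx * (rW' * r) ≤ (1 + 2 / 1000) * lx * ((1 + 1 / 1000) * k) :=
          mul_le_mul b1 hrk (by positivity) (by positivity)
        exact mul_le_mul b2 hU2' hU2.le (by positivity)
      have a2 : (k * lx * L * t₀) ^ 2 ≤ U1' ^ 2 :=
        pow_le_pow_left₀ (by positivity) hU1 2
      have a3 : κ * C₀ * L * t₀ = 1 / 8000000 := by
        rw [ht₀]
        field_simp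
        norm_num
      have a4 : 6 * R * ((1 + 2 / 1000) * lx * ((1 + 1 / 1000) * k) * (8 * (C₀ * (k * lx)) * t₀)) ≤
          κ * ((1 - 4 * (1 / 1000)) * (k * lx * L * t₀) ^ 2) := by
        have c1 : κ * ((1 - 4 * (1 / 1000)) * (k * lx * L * t₀) ^ 2) =
            (1 - 4 * (1 / 1000)) * (k * lx) ^ 2 * t₀ * (L / C₀) * (κ * C₀ * L * t₀) := by
          field_simp
        rw [c1, a3]
        have c2 : 5 * 10 ^ 8 * R * C₀ ≤ L / C₀ := by
          rw [le_div_iff₀ (by linarith)]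
          linarith
        have c3 : 6 * R * ((1 + 2 / 1000) * lx * ((1 + 1 / 1000) * k) * (8 * (C₀ * (k * lx)) * t₀)) =
            (48 * (1 + 2 / 1000) * (1 + 1 / 1000)) * (R * C₀) * ((k * lx) ^ 2 * t₀) := by ring
        have c4 : (1 - 4 * (1 / 1000)) * (k * lx) ^ 2 * t₀ * (L / C₀) * (1 / 8000000) =
            ((1 - 4 * (1 / 1000)) / 8000000) * (L / C₀) * ((k * lx) ^ 2 * t₀) := by ring
        rw [c3, c4]
        refine mul_le_mul_of_nonneg_right ?_ (by positivity)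
        have c5 : ((1 - 4 * (1 / 1000)) / 8000000) * (5 * 10 ^ 8 * R * C₀) ≤
            ((1 - 4 * (1 / 1000)) / 8000000) * (L / C₀) :=
          mul_le_mul_of_nonneg_left c2 (by norm_num)
        refine le_trans ?_ c5
        have hRC : 0 ≤ (R : ℝ) * C₀ := by positivity
        have : (48 * (1 + 2 / 1000) * (1 + 1 / 1000)) * ((R : ℝ) * C₀) ≤
            ((1 - 4 * (1 / 1000)) / 8000000) * (5 * 10 ^ 8) * ((R : ℝ) * C₀) :=
          mul_le_mul_of_nonneg_right (by norm_num) hRC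
        linarith
      calc _ ≤ 6 * R * ((1 + 2 / 1000) * lx * ((1 + 1 / 1000) * k) * (8 * (C₀ * (k * lx)) * t₀)) :=
            mul_le_mul_of_nonneg_left a1 (by positivity)
        _ ≤ _ := a4
        _ ≤ _ := by
            refine mul_le_mul_of_nonneg_left ?_ hKp.le
            exact mul_le_mul_of_nonneg_left a2 (by norm_num)
    have e5 : 6 * R * ((g + 1 / 1000) * (X * rW' * lx) * (q2 * r) * U2' ^ (n + 1)) =
        6 * R * ((g + 1 / 1000) * lx * (rW' * r) * U2') * (X * q2 * U2' ^ n) := by ring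
    have e6 : κ * ((1 - 4 * (1 / 1000)) * X * q2 * U1' ^ 2 * U2' ^ n) =
        κ * ((1 - 4 * (1 / 1000)) * U1' ^ 2) * (X * q2 * U2' ^ n) := by ring
    rw [e5, e6]
    exact mul_le_mul_of_nonneg_right key hM0
  have hKm' : (K : ℝ) ≤ R * m := by exact_mod_cast hKm
  have hT2 : 0 ≤ (1 - 4 * (1 / 1000)) * X * q2 * U1' ^ 2 * U2' ^ (K - 1) := by
    have : (0 : ℝ) ≤ 1 - 4 * (1 / 1000) := by norm_num
    positivity
  have h1 := hmain.trans (mul_le_mul_of_nonneg_right hKm' hT2)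
  have h2 : (R : ℝ) * (6 * ((g + 1 / 1000) * (X * rW' * lx) * (q2 * r) * U2' ^ K)) ≤
      R * (m * ((1 - 4 * (1 / 1000)) * X * q2 * U1' ^ 2 * U2' ^ (K - 1))) := by
    calc _ = 6 * R * ((g + 1 / 1000) * (X * rW' * lx) * (q2 * r) * U2' ^ K) := by ring
      _ ≤ _ := h1
      _ = _ := by ring
  exact le_of_mul_le_mul_left h2 (by linarith)

end Pool.Agent.Work.MP_bd2dcc_nt
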