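import Mathlib
import Pool.Agent.Work.MP_bd2dcc_nt.Defs

set_option autoImplicit false

/-!
MODULE R3 (short multiplicative intervals), size M, no sieve, no use of the library.
S ↦ n = pd S is injective on finite sets of primes, n is squarefree and HH S = 1 / φ(n) (∏ 1/(p-1)). So it suffices:
for real a, b with 0 < a < b = r * a: sum over a < n ≤ b of 1 / φ(n) ≤ C₂ (1 + log r).
For squarefree n: n / φ(n) = ∏ (1 + 1/(p-1)) = sum over d ∣ n of 1 / φ(d) (or: HH S = (1 / pd S) * ∏ p ∈ S (1 + gg p) =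
(1 / pd S) * sum over D ⊆ S of HH D). Hence the sum is ≤ sum over squarefree d of (1 / φ(d)) (1 / d) (sum over
a / d < m ≤ b / d of 1 / m), the inner sum is ≤ 1 + log r for every d (if a / d ≥ 1 it is ≤ log (b / a) + 1, if a / d < 1 it is
≤ 1 + log⁺ (b / d) ≤ 1 + log r), and the sum over squarefree d of 1 / (d φ(d)) is ≤ ∏ (1 + 1/(p (p-1))) ≤ exp (sum of
1/(p (p-1))) ≤ e over any finite set of primes.
-/

namespace Pool.Agent.Work.MP_bd2dcc_nt

open Finset Pool.Agent.Work.MP_73869e_nt.TH Pool.Agent.Work.MP_70e905_nt.MT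

private theorem R3_log (a M : ℕ) (ha : 1 ≤ a) (haM : a ≤ M) :
    ∑ m ∈ Ioc a M, 1 / (m : ℝ) ≤ Real.log M - Real.log a := by
  induction M, haM using Nat.le_induction with
  | base => simp
  | succ M hM ih =>
    rw [← Finset.insert_Ioc_right_eq_Ioc_add_one (by omega), sum_insert (by simp)]
    have hM0 : (0 : ℝ) < M := by exact_mod_cast (by omega : 0 < M)
    have h1 := Real.one_sub_inv_le_log_of_pos (show (0 : ℝ) < (M + 1) / M by positivity)
    rw [Real.log_div (by positivity) (by positivity)] at h1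
    have h2 : 1 - ((M + 1 : ℝ) / M)⁻¹ = 1 / (M + 1) := by
      field_simp
      ring
    rw [h2] at h1
    push_cast
    linarith

private theorem R3_harm (y : ℝ) (hy : 0 < y) (r : ℕ) (hr : 1 ≤ r) :
    ∑ m ∈ (Icc 1 ⌊y⌋₊).filter (fun m : ℕ => y / r < (m : ℝ)), 1 / (m : ℝ) ≤ 1 + Real.log r := by
  have hr0 : (0 : ℝ) < r := by exact_mod_cast hr
  have hr1 : (1 : ℝ) ≤ r := by exact_mod_cast hr
  have hlr : 0 ≤ Real.log r := Real.log_natCast_nonneg r
  set M := ⌊y⌋₊ with hM
  set a := ⌊y / r⌋₊ with ha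
  have hsub : (Icc 1 M).filter (fun m : ℕ => y / r < (m : ℝ)) ⊆ Ioc a M := by
    intro m hm
    rw [mem_filter, mem_Icc] at hm
    rw [mem_Ioc]
    exact ⟨(Nat.floor_lt (by positivity)).2 hm.2, hm.1.2⟩
  refine (sum_le_sum_of_subset_of_nonneg hsub fun m _ _ => by positivity).trans ?_
  have hyr : y / r ≤ y := div_le_self hy.le hr1
  have haM : a ≤ M := Nat.floor_le_floor hyr
  rcases Nat.eq_zero_or_pos a with h0 | h0
  · rw [h0]
    rcases Nat.eq_zero_or_pos M with hM0 | hM0
    · rw [hM0]
      simp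
      linarith
    · have h1 : ∑ m ∈ Ioc 0 M, 1 / (m : ℝ) = (harmonic M : ℝ) := by
        rw [harmonic_eq_sum_Icc]
        push_cast
        refine sum_congr ?_ fun m _ => by rw [one_div]
        ext m
        simp only [mem_Ioc, mem_Icc]
        omega
      rw [h1]
      refine (harmonic_le_one_add_log M).trans ?_
      have h2 : y / r < 1 := by
        rw [ha] at h0
        exact Nat.floor_eq_zero.1 h0
      have h3 : (M : ℝ) ≤ r := by
        calc (M : ℝ) ≤ y := Nat.floor_le hy.le
          _ ≤ r := by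
            rw [div_lt_one hr0] at h2
            exact h2.le
      have h4 : (0 : ℝ) < M := by exact_mod_cast hM0
      have := Real.log_le_log h4 h3
      linarith
  · refine (R3_log a M h0 haM).trans ?_
    have ha0 : (0 : ℝ) < a := by exact_mod_cast h0
    have ha1 : (1 : ℝ) ≤ a := by exact_mod_cast h0
    have hM0 : (0 : ℝ) < M := by exact_mod_cast (by omega : 0 < M)
    have h1 : y / r < a + 1 := Nat.lt_floor_add_one _
    have h2 : (M : ℝ) ≤ 2 * r * a := by
      calc (M : ℝ) ≤ y := Nat.floor_le hy.le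
        _ ≤ (a + 1) * r := by
          rw [div_lt_iff₀ hr0] at h1
          exact h1.le
        _ ≤ (a + a) * r := by gcongr
        _ = _ := by ring
    have h3 : Real.log M ≤ Real.log (2 * r * a) := Real.log_le_log hM0 h2
    rw [Real.log_mul (by positivity) (by positivity), Real.log_mul (by norm_num) (by positivity)]
      at h3
    have h4 := Real.log_two_lt_d9
    linarith

private theorem R3_D (P : Finset ℕ) (hP : ∀ p ∈ P, p.Prime) (D : Finset ℕ) (hD : D ⊆ P) (y : ℝ)
    (hy : 0 < y) (r : ℕ) (hr : 1 ≤ r) :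
    ∑ S ∈ (P.powerset.filter (fun S => y / r < ((pd S : ℕ) : ℝ) ∧ ((pd S : ℕ) : ℝ) ≤ y)).filter
      (fun S => D ⊆ S), 1 / ((pd S : ℕ) : ℝ) ≤ 1 / ((pd D : ℕ) : ℝ) * (1 + Real.log r) := by
  have hpos : ∀ S ⊆ P, 0 < pd S := fun S hS => by
    unfold pd
    exact prod_pos fun p hp => (hP p (hS hp)).pos
  have hD0 : (0 : ℝ) < ((pd D : ℕ) : ℝ) := by exact_mod_cast hpos D hD
  have hr0 : (0 : ℝ) < r := by exact_mod_cast hr
  set F := (P.powerset.filter (fun S => y / r < ((pd S : ℕ) : ℝ) ∧ ((pd S : ℕ) : ℝ) ≤ y)).filter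
      (fun S => D ⊆ S) with hF
  have hmul : ∀ S ∈ F, pd S = pd D * pd (S \ D) := by
    intro S hS
    have h1 := (mem_filter.1 hS).2
    unfold pd
    rw [mul_comm]
    exact (prod_sdiff h1).symm
  have h1 : ∑ S ∈ F, 1 / ((pd S : ℕ) : ℝ) =
      1 / ((pd D : ℕ) : ℝ) * ∑ S ∈ F, 1 / ((pd (S \ D) : ℕ) : ℝ) := by
    rw [mul_sum]
    refine sum_congr rfl fun S hS => ?_
    rw [hmul S hS]
    push_cast
    rw [one_div_mul_one_div]
  rw [h1]
  refine mul_le_mul_of_nonneg_left ?_ (by positivity)
  refine le_trans ?_ (R3_harm (y / ((pd D : ℕ) : ℝ)) (by positivity) r hr)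
  have hinj : Set.InjOn (fun S => pd (S \ D)) (F : Set (Finset ℕ)) := by
    intro S hS S' hS' h
    have hS1 := mem_filter.1 (mem_coe.1 hS)
    have hS1' := mem_filter.1 (mem_coe.1 hS')
    have hSP := mem_powerset.1 (mem_filter.1 hS1.1).1
    have hSP' := mem_powerset.1 (mem_filter.1 hS1'.1).1
    have e1 := Nat.primeFactors_prod (s := S \ D) (fun p hp => hP p (hSP (mem_sdiff.1 hp).1))
    have e2 := Nat.primeFactors_prod (s := S' \ D) (fun p hp => hP p (hSP' (mem_sdiff.1 hp).1))
    have e3 : S \ D = S' \ D := by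
      rw [← e1, ← e2]
      exact congrArg Nat.primeFactors h
    rw [← sdiff_union_of_subset hS1.2, ← sdiff_union_of_subset hS1'.2, e3]
  rw [← sum_image (f := fun m : ℕ => 1 / (m : ℝ)) hinj]
  refine sum_le_sum_of_subset_of_nonneg ?_ fun m _ _ => by positivity
  intro m hm
  obtain ⟨S, hS, rfl⟩ := mem_image.1 hm
  have hS1 := mem_filter.1 hS
  obtain ⟨hSP, hS2, hS3⟩ := mem_filter.1 hS1.1
  have hSP := mem_powerset.1 hSP
  have hpos' := hpos (S \ D) (sdiff_subset.trans hSP)
  have hpos'' : (0 : ℝ) < ((pd (S \ D) : ℕ) : ℝ) := by exact_mod_cast hpos'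
  rw [hmul S hS] at hS2 hS3
  push_cast at hS2 hS3
  rw [mem_filter, mem_Icc]
  refine ⟨⟨hpos', Nat.le_floor ?_⟩, ?_⟩
  · rw [le_div_iff₀ hD0]
    linarith
  · rw [div_div, div_lt_iff₀ (by positivity)]
    rw [div_lt_iff₀ hr0] at hS2
    linarith

theorem short_phi : ∃ C₂ : ℝ, 1 ≤ C₂ ∧ ∀ P : Finset ℕ, (∀ p ∈ P, p.Prime) → ∀ (y : ℝ) (r : ℕ),
    0 < y → 1 ≤ r →
    ∑ S ∈ P.powerset.filter (fun S => y / r < ((pd S : ℕ) : ℝ) ∧ ((pd S : ℕ) : ℝ) ≤ y), HH S ≤
      C₂ * (1 + Real.log r) := by
  refine ⟨Real.exp 1, Real.one_le_exp zero_le_one, fun P hP y r hy hr => ?_⟩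
  have hlr : 0 ≤ Real.log r := Real.log_natCast_nonneg r
  have hgg : ∀ p ∈ P, 0 ≤ gg p := fun p hp => by
    unfold gg
    have h5 : (2 : ℝ) ≤ p := by exact_mod_cast (hP p hp).two_le
    exact div_nonneg zero_le_one (by linarith)
  have hHH : ∀ S ⊆ P, 0 ≤ HH S := fun S hS => prod_nonneg fun p hp => hgg p (hS hp)
  set F := P.powerset.filter (fun S => y / r < ((pd S : ℕ) : ℝ) ∧ ((pd S : ℕ) : ℝ) ≤ y) with hF
  have h1 : ∀ S ∈ F, HH S = ∑ D ∈ S.powerset, HH D * (1 / ((pd S : ℕ) : ℝ)) := by
    intro S hS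
    have hSP := mem_powerset.1 (mem_filter.1 hS).1
    rw [← sum_mul]
    have h2 : ∑ D ∈ S.powerset, HH D = ∏ p ∈ S, (1 + gg p) := by
      rw [prod_one_add]
      rfl
    rw [h2]
    unfold HH pd
    push_cast
    rw [one_div, ← prod_inv_distrib, ← prod_mul_distrib]
    refine prod_congr rfl fun p hp => ?_
    have h5 : (2 : ℝ) ≤ p := by exact_mod_cast (hP p (hSP hp)).two_le
    have h6 : (p : ℝ) - 1 ≠ 0 := by linarith
    have h7 : (p : ℝ) ≠ 0 := by linarith
    unfold gg
    field_simp
    ring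
  calc ∑ S ∈ F, HH S = ∑ S ∈ F, ∑ D ∈ S.powerset, HH D * (1 / ((pd S : ℕ) : ℝ)) :=
        sum_congr rfl h1
    _ = ∑ D ∈ P.powerset, ∑ S ∈ F.filter (fun S => D ⊆ S), HH D * (1 / ((pd S : ℕ) : ℝ)) := by
        refine sum_comm' fun S D => ?_
        simp only [mem_powerset, mem_filter]
        constructor
        · rintro ⟨h2, h3⟩
          exact ⟨⟨h2, h3⟩, h3.trans (mem_powerset.1 (mem_filter.1 h2).1)⟩
        · rintro ⟨h2, _⟩
          exact h2
    _ ≤ ∑ D ∈ P.powerset, HH D * (1 / ((pd D : ℕ) : ℝ) * (1 + Real.log r)) := by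
        refine sum_le_sum fun D hD => ?_
        rw [← mul_sum]
        exact mul_le_mul_of_nonneg_left (R3_D P hP D (mem_powerset.1 hD) y hy r hr)
          (hHH D (mem_powerset.1 hD))
    _ = (∑ D ∈ P.powerset, ∏ p ∈ D, gg p * (1 / (p : ℝ))) * (1 + Real.log r) := by
        rw [sum_mul]
        refine sum_congr rfl fun D _ => ?_
        rw [prod_mul_distrib, ← mul_assoc]
        congr 2
        unfold pd
        push_cast
        rw [one_div, ← prod_inv_distrib]
        exact prod_congr rfl fun p _ => (one_div _).symm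
    _ ≤ Real.exp 1 * (1 + Real.log r) := by
        refine mul_le_mul_of_nonneg_right ?_ (by linarith)
        rw [← prod_one_add]
        have h3 : ∀ p ∈ P, 1 + gg p * (1 / (p : ℝ)) ≤
            Real.exp (1 / ((p : ℝ) - 1) - 1 / p) := by
          intro p hp
          have h5 : (2 : ℝ) ≤ p := by exact_mod_cast (hP p hp).two_le
          have h6 : (p : ℝ) - 1 ≠ 0 := by linarith
          have h7 : (p : ℝ) ≠ 0 := by linarith
          have h8 : gg p * (1 / (p : ℝ)) = 1 / ((p : ℝ) - 1) - 1 / p := by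
            unfold gg
            field_simp
            ring
          rw [h8, add_comm]
          exact Real.add_one_le_exp _
        calc ∏ p ∈ P, (1 + gg p * (1 / (p : ℝ))) ≤
              ∏ p ∈ P, Real.exp (1 / ((p : ℝ) - 1) - 1 / p) := by
              refine prod_le_prod (fun p hp => ?_) h3
              have := hgg p hp
              positivity
          _ = Real.exp (∑ p ∈ P, (1 / ((p : ℝ) - 1) - 1 / p)) := (Real.exp_sum _ _).symm
          _ ≤ Real.exp 1 := by
              refine Real.exp_le_exp.2 ?_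
              set X := P.sup id + 2 with hX
              have hsub : P ⊆ Icc 2 X := by
                intro p hp
                rw [mem_Icc]
                have h9 : p ≤ P.sup id := Finset.le_sup (f := id) hp
                exact ⟨(hP p hp).two_le, by omega⟩
              have htel : ∀ x : ℕ, 2 ≤ x →
                  ∑ m ∈ Icc 2 x, (1 / ((m : ℝ) - 1) - 1 / m) = 1 - 1 / (x : ℝ) := by
                intro x hx
                induction x, hx using Nat.le_induction with
                | base => norm_num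
                | succ n hn ih =>
                  rw [Finset.sum_Icc_succ_top (by omega), ih]
                  push_cast
                  ring
              calc ∑ p ∈ P, (1 / ((p : ℝ) - 1) - 1 / p) ≤
                    ∑ m ∈ Icc 2 X, (1 / ((m : ℝ) - 1) - 1 / m) := by
                    refine sum_le_sum_of_subset_of_nonneg hsub fun m hm _ => ?_
                    have h2 : (2 : ℝ) ≤ m := by exact_mod_cast (mem_Icc.1 hm).1
                    rw [sub_nonneg]
                    exact one_div_le_one_div_of_le (by linarith) (by linarith)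
                _ = 1 - 1 / (X : ℝ) := htel X (by omega)
                _ ≤ 1 := by
                    have : (0 : ℝ) ≤ 1 / (X : ℝ) := by positivity
                    linarith

end Pool.Agent.Work.MP_bd2dcc_nt
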