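import Mathlib
import Pool.Agent.Work.MP_bd2dcc_nt.Defs
import Pool.Agent.Work.MP_73869e_nt.TH.T01

set_option autoImplicit false

/-!
MODULE R1 (conditioning on one prime), size S.
P = insert r (P.erase r). ff gg P Y ω = sum over A ∈ LS K P of Y A * xx gg A ω; by sum_LS_insert (TH/T01) it is the sum
over A ∈ LS K (P.erase r) of Y A * xx gg A ω + sum over i of Y (insert (r, i) A) * xx gg (insert (r, i) A) ω. Here
(r, i) ∉ A (notMem_of_LS), so xx gg (insert (r, i) A) ω = (gg r - 1[(r, i) ∈ ω]) * xx gg A ω, and since ω has at most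
one label per prime and (r, j) ∈ ω, (r, i) ∈ ω iff i = j.
-/

namespace Pool.Agent.Work.MP_bd2dcc_nt

open Finset Pool.Agent.Work.MP_73869e_nt.TH Pool.Agent.Work.MP_70e905_nt.MT

theorem ff_cond {K : ℕ} (P : Finset ℕ) (r : ℕ) (hr : r ∈ P) (j : Fin K)
    (Y : Finset (ℕ × Fin K) → ℝ) (ω : Finset (ℕ × Fin K)) (hω : Lab ω) (hj : (r, j) ∈ ω) :
    ff gg P Y ω = ff gg (P.erase r) (Yr r j Y) ω := by
  have hn : r ∉ P.erase r := notMem_erase r P
  unfold ff
  conv_lhs => rw [← insert_erase hr]
  rw [sum_LS_insert (P.erase r) r hn]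
  refine sum_congr rfl fun A hA => ?_
  have h1 : ∀ i : Fin K, xx gg (insert (r, i) A) ω =
      (gg r - if i = j then 1 else 0) * xx gg A ω := by
    intro i
    unfold xx
    rw [prod_insert (notMem_of_LS hn hA i)]
    congr 2
    have h2 : (r, i) ∈ ω ↔ i = j := by
      constructor
      · intro h
        have h3 := hω (r, i) h (r, j) hj rfl
        exact (Prod.mk.inj h3).2
      · intro h
        rw [h]
        exact hj
    by_cases h : i = j
    · rw [if_pos h, if_pos (h2.2 h)]
    · rw [if_neg h, if_neg (fun h' => h (h2.1 h'))]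
  have h2 : ∑ i : Fin K, Y (insert (r, i) A) * xx gg (insert (r, i) A) ω =
      (-((1 - gg r) * Y (insert (r, j) A)) + gg r * ∑ i ∈ univ.erase j, Y (insert (r, i) A)) *
        xx gg A ω := by
    rw [← add_sum_erase univ _ (mem_univ j)]
    rw [h1 j, if_pos rfl]
    have h3 : ∑ i ∈ univ.erase j, Y (insert (r, i) A) * xx gg (insert (r, i) A) ω =
        (gg r * ∑ i ∈ univ.erase j, Y (insert (r, i) A)) * xx gg A ω := by
      rw [mul_sum, sum_mul]
      refine sum_congr rfl fun i hi => ?_
      rw [h1 i, if_neg (ne_of_mem_erase hi)]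
      ring
    rw [h3]
    ring
  rw [h2]
  unfold Yr
  ring

end Pool.Agent.Work.MP_bd2dcc_nt
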