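import Mathlib
import Pool.Agent.Work.MP_bd2dcc_nt.Defs
import Pool.Agent.Work.MP_70e905_nt.MT.A5
import Pool.Agent.Work.MP_73869e_nt.TH.T02

set_option autoImplicit false

/-!
MODULE R2 (second moment of a weight with arbitrary coefficients), size S-M.
By ff_cv (A5) ff gg P Y = ff go P (cv P Y), by Ex_upper (TH/T02; K * go p ≤ 1 because p > D₀ > K) the left side is at
most the sum over A ∈ LS K P of (cv P Y A)^2 * ga go A. Put h c = gg c.1 - go c.1 ≥ 0.
Cauchy-Schwarz (Finset.sum_mul_sq_le_sq_mul_sq or inner_mul_le_norm_mul_norm) with the weights ∏ c ∈ C \ A, h c ≥ 0: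
(cv P Y A)^2 ≤ cv P (fun _ => 1) A * (sum over C ∈ LS K P, A ⊆ C, of Y C ^ 2 * ∏ c ∈ C \ A, h c), and
cv P (fun _ => 1) A ≤ exp (K / D₀) by cv_bd (A5) with sum_dif (A5). Exchange the sums:
sum over A ⊆ C of ga go A * ∏ c ∈ C \ A, h c = ∏ c ∈ C, (go c.1 + h c) = ga gg C (Finset.prod_add; subsets of a labelled
set are labelled sets).
-/

namespace Pool.Agent.Work.MP_bd2dcc_nt

open Finset Pool.Agent.Work.MP_73869e_nt.TH Pool.Agent.Work.MP_70e905_nt.MT

theorem Ex_any {K : ℕ} (D₀ : ℕ) (hD : K < D₀) (P : Finset ℕ) (hP : ∀ p ∈ P, p.Prime ∧ D₀ < p)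
    (Y : Finset (ℕ × Fin K) → ℝ) :
    Ex go P (fun ω => (ff gg P Y ω) ^ 2) ≤
      Real.exp (K / D₀) * ∑ A ∈ LS K P, Y A ^ 2 * ga gg A := by
  have hP1 : ∀ p ∈ P, p.Prime := fun p hp => (hP p hp).1
  have h1 : (fun ω => (ff gg P Y ω) ^ 2) = fun ω => (ff go P (cv P Y) ω) ^ 2 := by
    funext ω
    rw [ff_cv]
  rw [h1]
  have hD1 : 1 ≤ D₀ := by omega
  refine (Ex_upper go P (fun p hp => ?_) _).trans ?_
  · have h2 := hP p hp
    have h3 : (K : ℝ) ≤ p := by exact_mod_cast (by omega : K ≤ p)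
    have h4 : (0 : ℝ) < p := by exact_mod_cast h2.1.pos
    unfold go
    refine ⟨by positivity, ?_⟩
    rw [mul_one_div, div_le_one h4]
    exact h3
  -- the products
  have hh : ∀ C ∈ LS K P, ∀ A : Finset (ℕ × Fin K), 0 ≤ ∏ c ∈ C \ A, (gg c.1 - go c.1) := by
    intro C hC A
    refine prod_nonneg fun a ha => ?_
    have h6 := (hP1 _ ((mem_LS.1 hC).1 a (mem_sdiff.1 ha).1)).two_le
    have h7 : (2 : ℝ) ≤ (a.1 : ℝ) := by exact_mod_cast h6
    unfold gg go
    rw [sub_nonneg]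
    exact one_div_le_one_div_of_le (by linarith) (by linarith)
  have hone : ∀ A : Finset (ℕ × Fin K), cv P (fun _ => (1 : ℝ)) A ≤ Real.exp (K / D₀) := by
    intro A
    have h3 := cv_bd P hP1 (fun _ : Finset (ℕ × Fin K) => (1 : ℝ))
      (fun _ => zero_le_one) (fun _ _ _ _ => le_rfl) _
      (sum_dif D₀ hD1 P fun p hp => (hP p hp).2) A
    refine h3.2.trans (le_of_eq ?_)
    rw [one_mul, mul_one_div]
  have hcs : ∀ A : Finset (ℕ × Fin K), cv P Y A ^ 2 ≤ Real.exp (K / D₀) *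
      ∑ C ∈ (LS K P).filter (fun C => A ⊆ C), Y C ^ 2 * ∏ c ∈ C \ A, (gg c.1 - go c.1) := by
    intro A
    set F := (LS K P).filter (fun C => A ⊆ C) with hF
    have h2 := Finset.sum_mul_sq_le_sq_mul_sq F
      (fun C => √(∏ c ∈ C \ A, (gg c.1 - go c.1)))
      (fun C => √(∏ c ∈ C \ A, (gg c.1 - go c.1)) * Y C)
    have h3 : ∑ C ∈ F, √(∏ c ∈ C \ A, (gg c.1 - go c.1)) *
        (√(∏ c ∈ C \ A, (gg c.1 - go c.1)) * Y C) = cv P Y A := by
      unfold cv
      refine sum_congr rfl fun C hC => ?_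
      rw [← mul_assoc, Real.mul_self_sqrt (hh C (mem_filter.1 hC).1 A)]
      ring
    have h4 : ∑ C ∈ F, √(∏ c ∈ C \ A, (gg c.1 - go c.1)) ^ 2 = cv P (fun _ => (1 : ℝ)) A := by
      unfold cv
      refine sum_congr rfl fun C hC => ?_
      rw [Real.sq_sqrt (hh C (mem_filter.1 hC).1 A), one_mul]
    have h5 : ∑ C ∈ F, (√(∏ c ∈ C \ A, (gg c.1 - go c.1)) * Y C) ^ 2 =
        ∑ C ∈ F, Y C ^ 2 * ∏ c ∈ C \ A, (gg c.1 - go c.1) := by
      refine sum_congr rfl fun C hC => ?_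
      rw [mul_pow, Real.sq_sqrt (hh C (mem_filter.1 hC).1 A)]
      ring
    rw [h3, h4, h5] at h2
    refine h2.trans (mul_le_mul_of_nonneg_right (hone A) ?_)
    exact sum_nonneg fun C hC => mul_nonneg (sq_nonneg _) (hh C (mem_filter.1 hC).1 A)
  have hgo : ∀ A : Finset (ℕ × Fin K), 0 ≤ ga go A := fun A => prod_nonneg fun a _ => by
    unfold go
    positivity
  calc ∑ A ∈ LS K P, cv P Y A ^ 2 * ga go A
      ≤ ∑ A ∈ LS K P, (Real.exp (K / D₀) *
        ∑ C ∈ (LS K P).filter (fun C => A ⊆ C), Y C ^ 2 * ∏ c ∈ C \ A, (gg c.1 - go c.1)) *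
          ga go A := sum_le_sum fun A _ => mul_le_mul_of_nonneg_right (hcs A) (hgo A)
    _ = Real.exp (K / D₀) * ∑ A ∈ LS K P, ∑ C ∈ LS K P, (if A ⊆ C then
          Y C ^ 2 * (ga go A * ∏ c ∈ C \ A, (gg c.1 - go c.1)) else 0) := by
        rw [mul_sum]
        refine sum_congr rfl fun A _ => ?_
        rw [mul_assoc, sum_filter, sum_mul]
        congr 1
        refine sum_congr rfl fun C _ => ?_
        split_ifs
        · ring
        · rw [zero_mul]
    _ = Real.exp (K / D₀) * ∑ C ∈ LS K P, ∑ A ∈ LS K P, (if A ⊆ C then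
          Y C ^ 2 * (ga go A * ∏ c ∈ C \ A, (gg c.1 - go c.1)) else 0) := by
        rw [sum_comm]
    _ = Real.exp (K / D₀) * ∑ C ∈ LS K P, Y C ^ 2 * ga gg C := by
        congr 1
        refine sum_congr rfl fun C hC => ?_
        rw [← sum_filter]
        have h2 : (LS K P).filter (fun A => A ⊆ C) = C.powerset := by
          ext A
          rw [mem_filter, mem_powerset]
          refine ⟨fun h => h.2, fun h => ⟨?_, h⟩⟩
          rw [mem_LS] at hC ⊢
          exact ⟨fun a ha => hC.1 a (h ha), fun a ha b hb => hC.2 a (h ha) b (h hb)⟩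
        rw [h2, ← mul_sum]
        congr 1
        have h3 := Finset.prod_add (fun c : ℕ × Fin K => go c.1)
          (fun c : ℕ × Fin K => gg c.1 - go c.1) C
        unfold ga
        rw [← h3]
        refine prod_congr rfl fun c _ => ?_
        ring

end Pool.Agent.Work.MP_bd2dcc_nt
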