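import Mathlib
import Pool.Agent.Work.MP_bd2dcc_nt.Defs
import Pool.Agent.Work.MP_70e905_nt.MT.A6

set_option autoImplicit false

/-!
MODULE R4 (the difference of yy), size S-M.
D = yy (pd S) - yy (r pd S) = sum over l < L of 2^(-l) 1[y_l / r < pd S ≤ y_l], y_l = x^(2^l t₀) > 0 (x ≥ 1), so 0 ≤ D ≤ 2
(yy_anti, yy_bd of A6) and D^2 ≤ 2 D. Exchange the sums and use h3 for each l; sum of 2^(-l) ≤ 2; 1 ≤ C₂, log r ≥ 0.
-/

namespace Pool.Agent.Work.MP_bd2dcc_nt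

open Finset Pool.Agent.Work.MP_73869e_nt.TH Pool.Agent.Work.MP_70e905_nt.MT

theorem yy_short (C₂ : ℝ) (P : Finset ℕ) (hP : ∀ p ∈ P, p.Prime)
    (h3 : ∀ (y : ℝ) (r : ℕ), 0 < y → 1 ≤ r →
      ∑ S ∈ P.powerset.filter (fun S => y / r < ((pd S : ℕ) : ℝ) ∧ ((pd S : ℕ) : ℝ) ≤ y), HH S ≤
        C₂ * (1 + Real.log r))
    (x L : ℕ) (t₀ : ℝ) (hx : 1 ≤ x) (r : ℕ) (hr : 1 ≤ r) :
    ∑ S ∈ P.powerset, HH S * (yy x L t₀ (pd S) - yy x L t₀ (r * pd S)) ^ 2 ≤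
      4 * (C₂ * (1 + Real.log r)) := by
  have hx0 : (0 : ℝ) < x := by exact_mod_cast hx
  have hr0 : (0 : ℝ) < r := by exact_mod_cast hr
  have hHH : ∀ S ∈ P.powerset, 0 ≤ HH S := by
    intro S hS
    unfold HH
    refine prod_nonneg fun p hp => ?_
    unfold gg
    have h5 : (2 : ℝ) ≤ p := by exact_mod_cast (hP p (mem_powerset.1 hS hp)).two_le
    exact div_nonneg zero_le_one (by linarith)
  have hM : 0 ≤ C₂ * (1 + Real.log r) := by
    refine le_trans ?_ (h3 1 r one_pos hr)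
    exact sum_nonneg fun S hS => hHH S (mem_filter.1 hS).1
  have hD : ∀ S, yy x L t₀ (pd S) - yy x L t₀ (r * pd S) =
      ∑ l ∈ range L, (1 / 2 : ℝ) ^ l *
        (if (x : ℝ) ^ ((2 : ℝ) ^ l * t₀) / r < ((pd S : ℕ) : ℝ) ∧
          ((pd S : ℕ) : ℝ) ≤ (x : ℝ) ^ ((2 : ℝ) ^ l * t₀) then 1 else 0) := by
    intro S
    unfold yy
    rw [← sum_sub_distrib]
    refine sum_congr rfl fun l _ => ?_
    rw [← mul_sub]
    congr 1
    set Y := (x : ℝ) ^ ((2 : ℝ) ^ l * t₀) with hY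
    push_cast
    by_cases h1 : ((pd S : ℕ) : ℝ) ≤ Y
    · by_cases h2 : (r : ℝ) * ((pd S : ℕ) : ℝ) ≤ Y
      · have h4 : ¬ Y / r < ((pd S : ℕ) : ℝ) := by
          rw [not_lt, le_div_iff₀ hr0]
          linarith
        rw [if_pos h1, if_pos h2, if_neg (fun h => h4 h.1)]
        norm_num
      · have h4 : Y / r < ((pd S : ℕ) : ℝ) := by
          rw [div_lt_iff₀ hr0]
          push Not at h2
          linarith
        rw [if_pos h1, if_neg h2, if_pos ⟨h4, h1⟩]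
        norm_num
    · have h2 : ¬ (r : ℝ) * ((pd S : ℕ) : ℝ) ≤ Y := by
        push Not at h1 ⊢
        have h5 : (1 : ℝ) ≤ r := by exact_mod_cast hr
        have h6 : (0 : ℝ) ≤ ((pd S : ℕ) : ℝ) := Nat.cast_nonneg _
        nlinarith
      rw [if_neg h1, if_neg h2, if_neg (fun h => h1 h.2)]
      norm_num
  have hD2 : ∀ S, (yy x L t₀ (pd S) - yy x L t₀ (r * pd S)) ^ 2 ≤
      2 * (yy x L t₀ (pd S) - yy x L t₀ (r * pd S)) := by
    intro S
    have h1 : yy x L t₀ (r * pd S) ≤ yy x L t₀ (pd S) :=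
      yy_anti x L t₀ _ _ (Nat.le_mul_of_pos_left _ hr)
    have h2 := (yy_bd x L t₀ (pd S)).2
    have h4 := (yy_bd x L t₀ (r * pd S)).1
    nlinarith
  calc ∑ S ∈ P.powerset, HH S * (yy x L t₀ (pd S) - yy x L t₀ (r * pd S)) ^ 2
      ≤ ∑ S ∈ P.powerset, HH S * (2 * (yy x L t₀ (pd S) - yy x L t₀ (r * pd S))) :=
        sum_le_sum fun S hS => mul_le_mul_of_nonneg_left (hD2 S) (hHH S hS)
    _ = ∑ l ∈ range L, 2 * (1 / 2 : ℝ) ^ l * ∑ S ∈ P.powerset.filter (fun S =>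
          (x : ℝ) ^ ((2 : ℝ) ^ l * t₀) / r < ((pd S : ℕ) : ℝ) ∧
          ((pd S : ℕ) : ℝ) ≤ (x : ℝ) ^ ((2 : ℝ) ^ l * t₀)), HH S := by
        simp only [hD, mul_sum]
        rw [sum_comm]
        refine sum_congr rfl fun l _ => ?_
        rw [sum_filter]
        refine sum_congr rfl fun S _ => ?_
        split_ifs
        · ring
        · ring
    _ ≤ ∑ l ∈ range L, 2 * (1 / 2 : ℝ) ^ l * (C₂ * (1 + Real.log r)) :=
        sum_le_sum fun l _ => mul_le_mul_of_nonneg_left (h3 _ r (Real.rpow_pos_of_pos hx0 _) hr)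
          (by positivity)
    _ = 2 * (∑ l ∈ range L, (1 / 2 : ℝ) ^ l) * (C₂ * (1 + Real.log r)) := by
        rw [← sum_mul, ← mul_sum]
    _ ≤ 2 * 2 * (C₂ * (1 + Real.log r)) := by
        have h := geom_sum_eq (show (1 / 2 : ℝ) ≠ 1 by norm_num) L
        have h2 : 0 ≤ (1 / 2 : ℝ) ^ L := by positivity
        have e : ((1 / 2 : ℝ) ^ L - 1) / (1 / 2 - 1) = 2 * (1 - (1 / 2 : ℝ) ^ L) := by ring
        have h5 : ∑ l ∈ range L, (1 / 2 : ℝ) ^ l ≤ 2 := by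
          rw [h, e]
          linarith
        gcongr
    _ = _ := by ring

end Pool.Agent.Work.MP_bd2dcc_nt
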