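import Mathlib
import Pool.Agent.Work.MP_bd2dcc_nt.Defs
import Pool.Agent.Work.MP_73869e_nt.TH.T06

set_option autoImplicit false

/-!
MODULE R5 (separating one label), size M.
A ↦ (A.filter (·.2 ≠ j), lb j A) is a bijection from the subsets of P ×ˢ univ to the pairs (A', S), A' a subset of
P ×ˢ univ.erase j, S a subset of P (inverse: A' ∪ S.image (·, j)); lb i A = lb i A' for i ≠ j. So the left side is the sum
over A' of ∏ g (lb i A') * (sum over S of h (T A') S) ≤ M * ∏ g (lb i A') because ∏ g ≥ 0 and T A' > 0 (primes are positive;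
only hP is used). The sum over A' of ∏ over i ≠ j of g (lb i A') is (sum of g)^(K-1): apply prod_labels (TH/T06) to the function equal
to g for i ≠ j and to the indicator of S = ∅ for i = j (the subsets A with lb j A = ∅ are the A').
-/

namespace Pool.Agent.Work.MP_bd2dcc_nt

open Finset Pool.Agent.Work.MP_73869e_nt.TH Pool.Agent.Work.MP_70e905_nt.MT

private def R5_Q {K : ℕ} (P : Finset ℕ) (j : Fin K) : Finset (Finset (ℕ × Fin K)) :=
  (P ×ˢ (univ.erase j : Finset (Fin K))).powerset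

private theorem R5_lb {K : ℕ} (j : Fin K) (A' : Finset (ℕ × Fin K)) (hA' : ∀ a ∈ A', a.2 ≠ j)
    (S : Finset ℕ) (i : Fin K) :
    lb i (A' ∪ S.image (fun p => (p, j))) = if i = j then S else lb i A' := by
  ext p
  rw [mem_lb, mem_union, mem_image]
  by_cases h : i = j
  · rw [if_pos h]
    constructor
    · rintro (h1 | ⟨q, hq, h1⟩)
      · exact absurd h (hA' _ h1)
      · rw [← (Prod.mk.inj h1).1]
        exact hq
    · intro h1
      exact Or.inr ⟨p, h1, by rw [h]⟩
  · rw [if_neg h, mem_lb]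
    constructor
    · rintro (h1 | ⟨q, hq, h1⟩)
      · exact h1
      · exact absurd (Prod.mk.inj h1).2.symm h
    · exact Or.inl

private theorem R5_bij {K : ℕ} (P : Finset ℕ) (j : Fin K) (F : Finset (ℕ × Fin K) → ℝ) :
    ∑ A ∈ (P ×ˢ (univ : Finset (Fin K))).powerset, F A =
      ∑ q ∈ R5_Q P j ×ˢ P.powerset, F (q.1 ∪ q.2.image (fun p => (p, j))) := by
  symm
  refine sum_bij (fun q _ => q.1 ∪ q.2.image (fun p => (p, j))) ?_ ?_ ?_ ?_
  · intro q hq
    rw [mem_product] at hq
    unfold R5_Q at hq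
    rw [mem_powerset, mem_powerset] at hq
    rw [mem_powerset]
    intro a ha
    rcases mem_union.1 ha with h | h
    · exact mem_product.2 ⟨(mem_product.1 (hq.1 h)).1, mem_univ _⟩
    · obtain ⟨p, hp, rfl⟩ := mem_image.1 h
      exact mem_product.2 ⟨hq.2 hp, mem_univ _⟩
  · intro q hq q' hq' h
    rw [mem_product] at hq hq'
    unfold R5_Q at hq hq'
    rw [mem_powerset, mem_powerset] at hq hq'
    have n1 : ∀ a ∈ q.1, a.2 ≠ j := fun a ha => (mem_erase.1 (mem_product.1 (hq.1 ha)).2).1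
    have n2 : ∀ a ∈ q'.1, a.2 ≠ j := fun a ha => (mem_erase.1 (mem_product.1 (hq'.1 ha)).2).1
    have h2 : q.2 = q'.2 := by
      have e1 := R5_lb j q.1 n1 q.2 j
      have e2 := R5_lb j q'.1 n2 q'.2 j
      rw [if_pos rfl] at e1 e2
      rw [← e1, ← e2]
      exact congrArg (lb j) h
    have h1 : q.1 = q'.1 := by
      ext a
      have e := Finset.ext_iff.1 h a
      simp only [mem_union, mem_image] at e
      constructor
      · intro ha
        rcases e.1 (Or.inl ha) with h3 | ⟨p, _, h3⟩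
        · exact h3
        · exact absurd (by rw [← h3]) (n1 a ha)
      · intro ha
        rcases e.2 (Or.inl ha) with h3 | ⟨p, _, h3⟩
        · exact h3
        · exact absurd (by rw [← h3]) (n2 a ha)
    exact Prod.ext h1 h2
  · intro A hA
    rw [mem_powerset] at hA
    refine ⟨(A.filter (fun a => a.2 ≠ j), lb j A), ?_, ?_⟩
    · rw [mem_product]
      unfold R5_Q
      rw [mem_powerset, mem_powerset]
      refine ⟨fun a ha => ?_, fun p hp => ?_⟩
      · obtain ⟨h1, h2⟩ := mem_filter.1 ha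
        exact mem_product.2 ⟨(mem_product.1 (hA h1)).1, mem_erase.2 ⟨h2, mem_univ _⟩⟩
      · rw [mem_lb] at hp
        exact (mem_product.1 (hA hp)).1
    · ext a
      simp only [mem_union, mem_filter, mem_image, mem_lb]
      constructor
      · rintro (h | ⟨p, hp, rfl⟩)
        · exact h.1
        · exact hp
      · intro ha
        by_cases h : a.2 = j
        · refine Or.inr ⟨a.1, ?_, ?_⟩
          · rw [← h]
            exact ha
          · rw [← h]
        · exact Or.inl ⟨ha, h⟩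
  · intro q _
    rfl

theorem split_label {K : ℕ} (P : Finset ℕ) (hP : ∀ p ∈ P, 0 < p) (j : Fin K)
    (g : Finset ℕ → ℝ) (hg : ∀ S ∈ P.powerset, 0 ≤ g S) (h : ℝ → Finset ℕ → ℝ) (M : ℝ)
    (hM : ∀ T : ℝ, 0 < T → ∑ S ∈ P.powerset, h T S ≤ M) :
    ∑ A ∈ (P ×ˢ (univ : Finset (Fin K))).powerset,
      (∏ i ∈ univ.erase j, g (lb i A)) * h (∏ i ∈ univ.erase j, ((pd (lb i A) : ℕ) : ℝ)) (lb j A) ≤
      M * (∑ S ∈ P.powerset, g S) ^ (K - 1) := by
  have hQ : ∀ A' ∈ R5_Q P j, (∀ a ∈ A', a.2 ≠ j) ∧ ∀ i, lb i A' ⊆ P := by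
    intro A' hA'
    unfold R5_Q at hA'
    rw [mem_powerset] at hA'
    refine ⟨fun a ha => (mem_erase.1 (mem_product.1 (hA' ha)).2).1, fun i p hp => ?_⟩
    rw [mem_lb] at hp
    exact (mem_product.1 (hA' hp)).1
  rw [R5_bij P j, sum_product]
  have h1 : ∀ A' ∈ R5_Q P j, ∀ S ∈ P.powerset,
      (∏ i ∈ univ.erase j, g (lb i (A' ∪ S.image (fun p => (p, j))))) *
        h (∏ i ∈ univ.erase j, ((pd (lb i (A' ∪ S.image (fun p => (p, j)))) : ℕ) : ℝ))
          (lb j (A' ∪ S.image (fun p => (p, j)))) =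
      (∏ i ∈ univ.erase j, g (lb i A')) *
        h (∏ i ∈ univ.erase j, ((pd (lb i A') : ℕ) : ℝ)) S := by
    intro A' hA' S _
    have n1 := (hQ A' hA').1
    rw [R5_lb j A' n1 S j, if_pos rfl]
    have e1 : ∏ i ∈ univ.erase j, g (lb i (A' ∪ S.image (fun p => (p, j)))) =
        ∏ i ∈ univ.erase j, g (lb i A') := prod_congr rfl fun i hi => by
      rw [R5_lb j A' n1 S i, if_neg (ne_of_mem_erase hi)]
    have e2 : ∏ i ∈ univ.erase j, ((pd (lb i (A' ∪ S.image (fun p => (p, j)))) : ℕ) : ℝ) =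
        ∏ i ∈ univ.erase j, ((pd (lb i A') : ℕ) : ℝ) := prod_congr rfl fun i hi => by
      rw [R5_lb j A' n1 S i, if_neg (ne_of_mem_erase hi)]
    rw [e1, e2]
  have h2 : ∀ A' ∈ R5_Q P j, ∑ S ∈ P.powerset,
      (∏ i ∈ univ.erase j, g (lb i (A' ∪ S.image (fun p => (p, j))))) *
        h (∏ i ∈ univ.erase j, ((pd (lb i (A' ∪ S.image (fun p => (p, j)))) : ℕ) : ℝ))
          (lb j (A' ∪ S.image (fun p => (p, j)))) ≤
      M * ∏ i ∈ univ.erase j, g (lb i A') := by
    intro A' hA'
    rw [sum_congr rfl (h1 A' hA'), ← mul_sum, mul_comm M]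
    refine mul_le_mul_of_nonneg_left (hM _ ?_) ?_
    · refine prod_pos fun i _ => ?_
      have : 0 < pd (lb i A') := by
        unfold pd
        exact prod_pos fun p hp => hP p ((hQ A' hA').2 i hp)
      exact_mod_cast this
    · exact prod_nonneg fun i _ => hg _ (mem_powerset.2 ((hQ A' hA').2 i))
  refine (sum_le_sum h2).trans (le_of_eq ?_)
  rw [← mul_sum]
  congr 1
  -- the sum over the sets without the label j
  have h3 := prod_labels P (fun (i : Fin K) (S : Finset ℕ) =>
    if i = j then (if S = ∅ then (1 : ℝ) else 0) else g S)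
  rw [R5_bij P j, sum_product] at h3
  have h4 : ∀ A' ∈ R5_Q P j, ∑ S ∈ P.powerset,
      ∏ i, (if i = j then (if lb i (A' ∪ S.image (fun p => (p, j))) = ∅ then (1 : ℝ) else 0)
        else g (lb i (A' ∪ S.image (fun p => (p, j))))) = ∏ i ∈ univ.erase j, g (lb i A') := by
    intro A' hA'
    have n1 := (hQ A' hA').1
    have h5 : ∀ S ∈ P.powerset,
        ∏ i, (if i = j then (if lb i (A' ∪ S.image (fun p => (p, j))) = ∅ then (1 : ℝ) else 0)
          else g (lb i (A' ∪ S.image (fun p => (p, j))))) =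
        (if S = ∅ then 1 else 0) * ∏ i ∈ univ.erase j, g (lb i A') := by
      intro S _
      rw [← mul_prod_erase univ _ (mem_univ j), if_pos rfl, R5_lb j A' n1 S j, if_pos rfl]
      congr 1
      refine prod_congr rfl fun i hi => ?_
      rw [if_neg (ne_of_mem_erase hi), R5_lb j A' n1 S i, if_neg (ne_of_mem_erase hi)]
    rw [sum_congr rfl h5, ← sum_mul, sum_ite_eq', if_pos (empty_mem_powerset P), one_mul]
  rw [sum_congr rfl h4] at h3
  rw [h3, ← mul_prod_erase univ _ (mem_univ j)]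
  simp only [if_true]
  rw [sum_ite_eq', if_pos (empty_mem_powerset P), one_mul]
  have h6 : ∀ i ∈ (univ.erase j : Finset (Fin K)),
      ∑ S ∈ P.powerset, (if i = j then (if S = ∅ then (1 : ℝ) else 0) else g S) =
        ∑ S ∈ P.powerset, g S := fun i hi =>
    sum_congr rfl fun S _ => by rw [if_neg (ne_of_mem_erase hi)]
  rw [prod_congr rfl h6, prod_const, card_erase_of_mem (mem_univ j), card_univ, Fintype.card_fin]

end Pool.Agent.Work.MP_bd2dcc_nt
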