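import Mathlib
import Pool.Agent.Work.MP_bd2dcc_nt.R4
import Pool.Agent.Work.MP_bd2dcc_nt.R5
import Pool.Agent.Work.MP_70e905_nt.MT.A6

set_option autoImplicit false

/-!
MODULE R6 (the difference of the coefficients), size M.
Let A ∈ LS K P, s_i = pd (lb i A), A⁺ = insert (r, j) A, r ∉ P prime. pr A⁺ = r * pr A, lb j A⁺ = insert r (lb j A), so
pd (lb j A⁺) = r * s_j, lb i A⁺ = lb i A for i ≠ j; pr A = T * s_j with T = ∏ i ≠ j, s_i > 0 (pr_lb of TH/T06).
If pr A > x^v both YY are 0. If r * pr A ≤ x^v the difference is ∏ i ≠ j yy (s_i) * (yy (s_j) - yy (r s_j)). If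
x^v / r < pr A ≤ x^v it is ∏ i yy (s_i), with yy (s_j) ≤ 2. So its square is at most ∏ i ≠ j yy(s_i)^2 *
((yy (s_j) - yy (r s_j))^2 + 4 * 1[(x^v / T) / r < s_j ≤ x^v / T]).
ga gg A = ∏ i, HH (lb i A) (ga_HH, A6). Extend the sum from LS K P to all subsets of P ×ˢ univ (terms ≥ 0) and apply split_label (R5) with
g S = HH S * yy (pd S)^2 (its sum is U2) and h T S = HH S * ((yy (pd S) - yy (r pd S))^2 + 4 * 1[...]); the sum over S is
≤ 4 C₂ (1 + log r) + 4 C₂ (1 + log r) by yy_short (R4) and h3.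
-/

namespace Pool.Agent.Work.MP_bd2dcc_nt

open Finset Pool.Agent.Work.MP_73869e_nt.TH Pool.Agent.Work.MP_70e905_nt.MT

private theorem R6_lb {K : ℕ} (r : ℕ) (j : Fin K) (A : Finset (ℕ × Fin K)) (i : Fin K) :
    lb i (insert (r, j) A) = if i = j then insert r (lb j A) else lb i A := by
  ext p
  by_cases h : i = j
  · rw [if_pos h, h, mem_lb, mem_insert, mem_insert, mem_lb]
    constructor
    · rintro (h1 | h1)
      · exact Or.inl (Prod.mk.inj h1).1
      · exact Or.inr h1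
    · rintro (h1 | h1)
      · exact Or.inl (by rw [h1])
      · exact Or.inr h1
  · rw [if_neg h, mem_lb, mem_insert, mem_lb]
    constructor
    · rintro (h1 | h1)
      · exact absurd (Prod.mk.inj h1).2 h
      · exact h1
    · exact Or.inr

private theorem R6_HH (P : Finset ℕ) (hP : ∀ p ∈ P, p.Prime) (S : Finset ℕ) (hS : S ⊆ P) :
    0 ≤ HH S := by
  unfold HH
  refine prod_nonneg fun p hp => ?_
  unfold gg
  have h5 : (2 : ℝ) ≤ p := by exact_mod_cast (hP p (hS hp)).two_le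
  exact div_nonneg zero_le_one (by linarith)

private theorem R6_point {K : ℕ} (P : Finset ℕ) (hP : ∀ p ∈ P, p.Prime)
    (x L : ℕ) (t₀ v : ℝ) (r : ℕ) (hr : r.Prime) (hrP : r ∉ P) (j : Fin K)
    (A : Finset (ℕ × Fin K)) (hA : A ∈ LS K P) :
    (YY x L t₀ v A - YY x L t₀ v (insert (r, j) A)) ^ 2 ≤
      (∏ i ∈ univ.erase j, yy x L t₀ (pd (lb i A)) ^ 2) *
        ((yy x L t₀ (pd (lb j A)) - yy x L t₀ (r * pd (lb j A))) ^ 2 +
          4 * (if (x : ℝ) ^ v / (∏ i ∈ univ.erase j, ((pd (lb i A) : ℕ) : ℝ)) / r <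
              ((pd (lb j A) : ℕ) : ℝ) ∧ ((pd (lb j A) : ℕ) : ℝ) ≤
              (x : ℝ) ^ v / (∏ i ∈ univ.erase j, ((pd (lb i A) : ℕ) : ℝ)) then 1 else 0)) := by
  have hr0 : (0 : ℝ) < r := by exact_mod_cast hr.pos
  have hr1 : (1 : ℝ) ≤ r := by exact_mod_cast hr.one_le
  have hlbP : ∀ i, lb i A ⊆ P := by
    intro i p hp
    rw [mem_lb] at hp
    exact (mem_LS.1 hA).1 _ hp
  set T : ℝ := ∏ i ∈ univ.erase j, ((pd (lb i A) : ℕ) : ℝ) with hT
  have hT0 : 0 < T := by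
    refine prod_pos fun i _ => ?_
    have : 0 < pd (lb i A) := by
      unfold pd
      exact prod_pos fun p hp => (hP p (hlbP i hp)).pos
    exact_mod_cast this
  have hprA : (pr A : ℝ) = T * ((pd (lb j A) : ℕ) : ℝ) := by
    rw [pr_lb]
    have : (∏ i, ∏ p ∈ lb i A, p) = ∏ i, pd (lb i A) := rfl
    rw [this, ← mul_prod_erase univ _ (mem_univ j), mul_comm]
    push_cast
    rfl
  have hrA : (r, j) ∉ A := fun h => hrP ((mem_LS.1 hA).1 _ h)
  have hprA' : (pr (insert (r, j) A) : ℝ) = r * pr A := by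
    unfold pr
    rw [prod_insert hrA]
    push_cast
    rfl
  have hrl : r ∉ lb j A := fun h => hrP (hlbP j h)
  have hpdj : pd (lb j (insert (r, j) A)) = r * pd (lb j A) := by
    rw [R6_lb, if_pos rfl]
    unfold pd
    exact prod_insert hrl
  have hpdi : ∀ i, i ≠ j → pd (lb i (insert (r, j) A)) = pd (lb i A) := by
    intro i hi
    rw [R6_lb, if_neg hi]
  have hY : ∀ B : Finset (ℕ × Fin K), (pr B : ℝ) ≤ (x : ℝ) ^ v →
      YY x L t₀ v B = ∏ i, yy x L t₀ (pd (lb i B)) := by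
    intro B hB
    unfold YY
    rw [if_pos hB]
    rfl
  have hY0 : ∀ B : Finset (ℕ × Fin K), ¬ (pr B : ℝ) ≤ (x : ℝ) ^ v → YY x L t₀ v B = 0 := by
    intro B hB
    unfold YY
    rw [if_neg hB]
  have hprod : ∏ i, yy x L t₀ (pd (lb i A)) =
      yy x L t₀ (pd (lb j A)) * ∏ i ∈ univ.erase j, yy x L t₀ (pd (lb i A)) :=
    (mul_prod_erase univ _ (mem_univ j)).symm
  have hprod' : ∏ i, yy x L t₀ (pd (lb i (insert (r, j) A))) =
      yy x L t₀ (r * pd (lb j A)) * ∏ i ∈ univ.erase j, yy x L t₀ (pd (lb i A)) := by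
    rw [← mul_prod_erase univ _ (mem_univ j), hpdj]
    congr 1
    exact prod_congr rfl fun i hi => by rw [hpdi i (ne_of_mem_erase hi)]
  have hR : 0 ≤ ∏ i ∈ univ.erase j, yy x L t₀ (pd (lb i A)) ^ 2 :=
    prod_nonneg fun i _ => sq_nonneg _
  by_cases h1 : (pr A : ℝ) ≤ (x : ℝ) ^ v
  · by_cases h2 : (pr (insert (r, j) A) : ℝ) ≤ (x : ℝ) ^ v
    · rw [hY _ h1, hY _ h2, hprod, hprod', ← sub_mul, mul_pow, ← prod_pow, mul_comm]
      refine mul_le_mul_of_nonneg_left ?_ hR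
      have : (0 : ℝ) ≤ 4 * (if (x : ℝ) ^ v / T / r < ((pd (lb j A) : ℕ) : ℝ) ∧
          ((pd (lb j A) : ℕ) : ℝ) ≤ (x : ℝ) ^ v / T then 1 else 0) := by
        split_ifs <;> norm_num
      linarith
    · rw [hY _ h1, hY0 _ h2, hprod, sub_zero, mul_pow, ← prod_pow, mul_comm]
      refine mul_le_mul_of_nonneg_left ?_ hR
      have h3 : (x : ℝ) ^ v / T / r < ((pd (lb j A) : ℕ) : ℝ) := by
        rw [div_div, div_lt_iff₀ (by positivity)]
        rw [hprA', hprA] at h2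
        push Not at h2
        linarith
      have h4 : ((pd (lb j A) : ℕ) : ℝ) ≤ (x : ℝ) ^ v / T := by
        rw [le_div_iff₀ hT0]
        rw [hprA] at h1
        linarith
      rw [if_pos ⟨h3, h4⟩]
      have h5 := yy_bd x L t₀ (pd (lb j A))
      have h6 := sq_nonneg (yy x L t₀ (pd (lb j A)) - yy x L t₀ (r * pd (lb j A)))
      nlinarith
  · have h2 : ¬ (pr (insert (r, j) A) : ℝ) ≤ (x : ℝ) ^ v := by
      intro h
      apply h1
      rw [hprA'] at h
      refine le_trans ?_ h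
      exact le_mul_of_one_le_left (Nat.cast_nonneg _) hr1
    rw [hY0 _ h1, hY0 _ h2, sub_zero, zero_pow two_ne_zero]
    refine mul_nonneg hR (add_nonneg (sq_nonneg _) ?_)
    split_ifs <;> norm_num

theorem YY_diff {K : ℕ} (C₂ : ℝ) (P : Finset ℕ) (hP : ∀ p ∈ P, p.Prime)
    (h3 : ∀ (y : ℝ) (r : ℕ), 0 < y → 1 ≤ r →
      ∑ S ∈ P.powerset.filter (fun S => y / r < ((pd S : ℕ) : ℝ) ∧ ((pd S : ℕ) : ℝ) ≤ y), HH S ≤
        C₂ * (1 + Real.log r))
    (x L : ℕ) (t₀ v : ℝ) (hx : 1 ≤ x) (r : ℕ) (hr : r.Prime) (hrP : r ∉ P) (j : Fin K) :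
    ∑ A ∈ LS K P, (YY x L t₀ v A - YY x L t₀ v (insert (r, j) A)) ^ 2 * ga gg A ≤
      8 * (C₂ * (1 + Real.log r)) * U2 P x L t₀ ^ (K - 1) := by
  have hx0 : (0 : ℝ) < x := by exact_mod_cast hx
  set g : Finset ℕ → ℝ := fun S => HH S * yy x L t₀ (pd S) ^ 2 with hg
  set h : ℝ → Finset ℕ → ℝ := fun T S => HH S *
    ((yy x L t₀ (pd S) - yy x L t₀ (r * pd S)) ^ 2 +
      4 * (if (x : ℝ) ^ v / T / r < ((pd S : ℕ) : ℝ) ∧ ((pd S : ℕ) : ℝ) ≤ (x : ℝ) ^ v / T
        then 1 else 0)) with hh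
  have hg0 : ∀ S ∈ P.powerset, 0 ≤ g S := fun S hS =>
    mul_nonneg (R6_HH P hP S (mem_powerset.1 hS)) (sq_nonneg _)
  have hh0 : ∀ T, ∀ S ∈ P.powerset, 0 ≤ h T S := fun T S hS => by
    refine mul_nonneg (R6_HH P hP S (mem_powerset.1 hS)) (add_nonneg (sq_nonneg _) ?_)
    split_ifs <;> norm_num
  have hM : ∀ T : ℝ, 0 < T → ∑ S ∈ P.powerset, h T S ≤ 8 * (C₂ * (1 + Real.log r)) := by
    intro T hT
    have e : ∑ S ∈ P.powerset, h T S =
        ∑ S ∈ P.powerset, HH S * (yy x L t₀ (pd S) - yy x L t₀ (r * pd S)) ^ 2 +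
        4 * ∑ S ∈ P.powerset.filter (fun S => (x : ℝ) ^ v / T / r < ((pd S : ℕ) : ℝ) ∧
          ((pd S : ℕ) : ℝ) ≤ (x : ℝ) ^ v / T), HH S := by
      rw [sum_filter, mul_sum, ← sum_add_distrib]
      refine sum_congr rfl fun S _ => ?_
      rw [hh]
      simp only
      split_ifs <;> ring
    rw [e]
    have h1 := yy_short C₂ P hP h3 x L t₀ hx r hr.one_le
    have h2 := h3 ((x : ℝ) ^ v / T) r (by positivity) hr.one_le
    linarith
  have hsplit := split_label P (fun p hp => (hP p hp).pos) j g hg0 h _ hM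
  have hU : ∑ S ∈ P.powerset, g S = U2 P x L t₀ := rfl
  rw [hU] at hsplit
  refine le_trans ?_ hsplit
  calc ∑ A ∈ LS K P, (YY x L t₀ v A - YY x L t₀ v (insert (r, j) A)) ^ 2 * ga gg A
      ≤ ∑ A ∈ LS K P, (∏ i ∈ univ.erase j, g (lb i A)) *
        h (∏ i ∈ univ.erase j, ((pd (lb i A) : ℕ) : ℝ)) (lb j A) := by
        refine sum_le_sum fun A hA => ?_
        have hlbP : ∀ i, lb i A ⊆ P := by
          intro i p hp
          rw [mem_lb] at hp
          exact (mem_LS.1 hA).1 _ hp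
        have h1 := R6_point P hP x L t₀ v r hr hrP j A hA
        have h2 : 0 ≤ ga gg A := by
          rw [ga_HH]
          exact prod_nonneg fun i _ => R6_HH P hP _ (hlbP i)
        refine (mul_le_mul_of_nonneg_right h1 h2).trans (le_of_eq ?_)
        rw [ga_HH, ← mul_prod_erase univ _ (mem_univ j), hg, hh]
        simp only
        rw [prod_mul_distrib]
        ring
    _ ≤ _ := by
        refine sum_le_sum_of_subset_of_nonneg ?_ ?_
        · unfold LS
          exact filter_subset _ _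
        · intro A hA _
          have hlbP : ∀ i, lb i A ⊆ P := by
            intro i p hp
            rw [mem_lb] at hp
            exact (mem_product.1 (mem_powerset.1 hA hp)).1
          exact mul_nonneg (prod_nonneg fun i _ => hg0 _ (mem_powerset.2 (hlbP i)))
            (hh0 _ _ (mem_powerset.2 (hlbP j)))

end Pool.Agent.Work.MP_bd2dcc_nt
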