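import Mathlib
import Pool.Agent.Work.MP_bd2dcc_nt.R6
import Pool.Agent.Work.MP_70e905_nt.MT.C1

set_option autoImplicit false

/-!
MODULE R7 (norm of the conditioned coefficients), size S-M.
For A ∈ LS K (P.erase r): Yr r j YY A = (YY A - YY (insert (r, j) A)) + gg r * (sum over all i of YY (insert (r, i) A)); by
YY_anti, YY_bd (A6; insert (r, i) A ∈ LS K P by insert_mem_LS of TH/T01, P = insert r (P.erase r)) the second term is in
[0, gg r * K * YY A]. (a + b)^2 ≤ 2 a^2 + 2 b^2; the first part is YY_diff (R6) for P.erase r, the second part is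
2 (K gg r)^2 * (sum of YY A ^ 2 ga gg A) ≤ 2 (K gg r)^2 U2 (P.erase r)^K (YY_sum, A6); U2 (P.erase r) ≤ U2 P (U_mono, C1).
Yr_bd: |Yr| ≤ (K + 2) 2^K (0 ≤ gg r ≤ 1 as r ≥ 2), and Yr A ≠ 0 → pr A ≤ x^v (otherwise all the YY vanish, since
pr (insert (r, i) A) ≥ pr A for A ∈ LS K (P.erase r); for other A nothing is claimed).
-/

namespace Pool.Agent.Work.MP_bd2dcc_nt

open Finset Pool.Agent.Work.MP_73869e_nt.TH Pool.Agent.Work.MP_70e905_nt.MT

private theorem R7_gg (r : ℕ) (hr : r.Prime) : 0 ≤ gg r ∧ gg r ≤ 1 := by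
  have h : (2 : ℝ) ≤ r := by exact_mod_cast hr.two_le
  unfold gg
  constructor
  · exact div_nonneg zero_le_one (by linarith)
  · rw [div_le_one (by linarith)]
    linarith

private theorem R7_eq {K : ℕ} (r : ℕ) (j : Fin K) (Y : Finset (ℕ × Fin K) → ℝ)
    (A : Finset (ℕ × Fin K)) :
    Yr r j Y A = (Y A - Y (insert (r, j) A)) + gg r * ∑ i, Y (insert (r, i) A) := by
  unfold Yr
  rw [← add_sum_erase univ _ (mem_univ j)]
  ring

theorem Yr_norm {K : ℕ} (C₂ : ℝ) (hC₂ : 0 ≤ C₂) (P : Finset ℕ) (hP : ∀ p ∈ P, p.Prime)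
    (h3 : ∀ P' : Finset ℕ, (∀ p ∈ P', p.Prime) → ∀ (y : ℝ) (r : ℕ), 0 < y → 1 ≤ r →
      ∑ S ∈ P'.powerset.filter (fun S => y / r < ((pd S : ℕ) : ℝ) ∧ ((pd S : ℕ) : ℝ) ≤ y), HH S ≤
        C₂ * (1 + Real.log r))
    (x L : ℕ) (t₀ v : ℝ) (hx : 1 ≤ x) (r : ℕ) (hr : r ∈ P) (j : Fin K) :
    ∑ A ∈ LS K (P.erase r), Yr r j (YY x L t₀ v) A ^ 2 * ga gg A ≤
      16 * (C₂ * (1 + Real.log r)) * U2 P x L t₀ ^ (K - 1) +
        2 * (K * gg r) ^ 2 * U2 P x L t₀ ^ K := by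
  have hrp := hP r hr
  obtain ⟨g0, g1⟩ := R7_gg r hrp
  have hP' : ∀ p ∈ P.erase r, p.Prime := fun p hp => hP p (mem_of_mem_erase hp)
  have hn : r ∉ P.erase r := notMem_erase r P
  have hlr : 0 ≤ Real.log r := Real.log_natCast_nonneg r
  have hUm := (U_mono (P.erase r) P (erase_subset r P) hP x L t₀).2
  have hU0 : 0 ≤ U2 (P.erase r) x L t₀ := by
    unfold U2
    refine sum_nonneg fun S hS => mul_nonneg ?_ (sq_nonneg _)
    unfold HH
    refine prod_nonneg fun p hp => ?_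
    exact (R7_gg p (hP' p (mem_powerset.1 hS hp))).1
  have hga : ∀ A ∈ LS K (P.erase r), 0 ≤ ga gg A := by
    intro A hA
    unfold ga
    exact prod_nonneg fun a ha => (R7_gg a.1 (hP' _ ((mem_LS.1 hA).1 a ha))).1
  have h1 : ∀ A ∈ LS K (P.erase r), Yr r j (YY x L t₀ v) A ^ 2 * ga gg A ≤
      2 * ((YY x L t₀ v A - YY x L t₀ v (insert (r, j) A)) ^ 2 * ga gg A) +
        2 * (K * gg r) ^ 2 * ((YY x L t₀ v A) ^ 2 * ga gg A) := by
    intro A hA
    have hins : ∀ i : Fin K, insert (r, i) A ∈ LS K P := by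
      intro i
      have := insert_mem_LS hn hA i
      rwa [insert_erase hr] at this
    have h2 : ∀ i : Fin K, 0 ≤ YY x L t₀ v (insert (r, i) A) ∧
        YY x L t₀ v (insert (r, i) A) ≤ YY x L t₀ v A := fun i =>
      ⟨(YY_bd x L t₀ v _).1, YY_anti P (fun p hp => (hP p hp).one_le) x L t₀ v A _ (hins i)
        (subset_insert _ _)⟩
    have h4 : 0 ≤ ∑ i, YY x L t₀ v (insert (r, i) A) := sum_nonneg fun i _ => (h2 i).1
    have h5 : ∑ i, YY x L t₀ v (insert (r, i) A) ≤ K * YY x L t₀ v A := by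
      calc _ ≤ ∑ _i : Fin K, YY x L t₀ v A := sum_le_sum fun i _ => (h2 i).2
        _ = _ := by rw [sum_const, card_univ, Fintype.card_fin, nsmul_eq_mul]
    rw [R7_eq]
    set u := YY x L t₀ v A - YY x L t₀ v (insert (r, j) A) with hu
    set w := gg r * ∑ i, YY x L t₀ v (insert (r, i) A) with hw
    have h6 : 0 ≤ w := mul_nonneg g0 h4
    have h7 : w ≤ (K * gg r) * YY x L t₀ v A := by
      calc w ≤ gg r * (K * YY x L t₀ v A) := mul_le_mul_of_nonneg_left h5 g0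
        _ = _ := by ring
    have h8 : w ^ 2 ≤ (K * gg r) ^ 2 * (YY x L t₀ v A) ^ 2 := by
      rw [← mul_pow]
      exact pow_le_pow_left₀ h6 h7 2
    have h9 : (u + w) ^ 2 ≤ 2 * u ^ 2 + 2 * ((K * gg r) ^ 2 * (YY x L t₀ v A) ^ 2) := by
      nlinarith [sq_nonneg (u - w)]
    calc (u + w) ^ 2 * ga gg A ≤
          (2 * u ^ 2 + 2 * ((K * gg r) ^ 2 * (YY x L t₀ v A) ^ 2)) * ga gg A :=
          mul_le_mul_of_nonneg_right h9 (hga A hA)
      _ = _ := by ring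
  calc ∑ A ∈ LS K (P.erase r), Yr r j (YY x L t₀ v) A ^ 2 * ga gg A
      ≤ ∑ A ∈ LS K (P.erase r),
        (2 * ((YY x L t₀ v A - YY x L t₀ v (insert (r, j) A)) ^ 2 * ga gg A) +
        2 * (K * gg r) ^ 2 * ((YY x L t₀ v A) ^ 2 * ga gg A)) := sum_le_sum h1
    _ = 2 * ∑ A ∈ LS K (P.erase r),
          (YY x L t₀ v A - YY x L t₀ v (insert (r, j) A)) ^ 2 * ga gg A +
        2 * (K * gg r) ^ 2 * ∑ A ∈ LS K (P.erase r), (YY x L t₀ v A) ^ 2 * ga gg A := by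
        rw [sum_add_distrib, ← mul_sum, ← mul_sum]
    _ ≤ 2 * (8 * (C₂ * (1 + Real.log r)) * U2 (P.erase r) x L t₀ ^ (K - 1)) +
        2 * (K * gg r) ^ 2 * U2 (P.erase r) x L t₀ ^ K := by
        have h2 := YY_diff C₂ (P.erase r) hP' (h3 (P.erase r) hP') x L t₀ v hx r hrp hn j
        have h4 := YY_sum (K := K) (P.erase r) hP' x L t₀ v
        gcongr
    _ ≤ 2 * (8 * (C₂ * (1 + Real.log r)) * U2 P x L t₀ ^ (K - 1)) +
        2 * (K * gg r) ^ 2 * U2 P x L t₀ ^ K := by gcongr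
    _ = _ := by ring

theorem Yr_bd {K : ℕ} (x L : ℕ) (t₀ v : ℝ) (r : ℕ) (hr : r.Prime) (j : Fin K)
    (A : Finset (ℕ × Fin K)) :
    |Yr r j (YY x L t₀ v) A| ≤ (K + 2) * 2 ^ K ∧
      ((∀ i, (r, i) ∉ A) → Yr r j (YY x L t₀ v) A ≠ 0 → (pr A : ℝ) ≤ (x : ℝ) ^ v) := by
  obtain ⟨g0, g1⟩ := R7_gg r hr
  have hb := fun B : Finset (ℕ × Fin K) => YY_bd x L t₀ v B
  constructor
  · rw [R7_eq]
    have h1 : 0 ≤ ∑ i, YY x L t₀ v (insert (r, i) A) := sum_nonneg fun i _ => (hb _).1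
    have h2 : ∑ i, YY x L t₀ v (insert (r, i) A) ≤ K * 2 ^ K := by
      calc _ ≤ ∑ _i : Fin K, (2 : ℝ) ^ K := sum_le_sum fun i _ => (hb _).2.1
        _ = _ := by rw [sum_const, card_univ, Fintype.card_fin, nsmul_eq_mul]
    have h3 : gg r * ∑ i, YY x L t₀ v (insert (r, i) A) ≤ 1 * (K * 2 ^ K) :=
      mul_le_mul g1 h2 h1 zero_le_one
    have h4 : 0 ≤ gg r * ∑ i, YY x L t₀ v (insert (r, i) A) := mul_nonneg g0 h1
    have h5 := hb A
    have h6 := hb (insert (r, j) A)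
    have h7 : (0 : ℝ) ≤ 2 ^ K := by positivity
    rw [abs_le]
    constructor <;> nlinarith [h5.1, h5.2.1, h6.1, h6.2.1, (Nat.cast_nonneg K : (0 : ℝ) ≤ K)]
  · intro hA hne
    by_contra hcon
    apply hne
    have h1 : YY x L t₀ v A = 0 := by
      unfold YY
      rw [if_neg hcon]
    have h2 : ∀ i, YY x L t₀ v (insert (r, i) A) = 0 := by
      intro i
      unfold YY
      rw [if_neg]
      intro h
      apply hcon
      refine le_trans ?_ h
      unfold pr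
      rw [prod_insert (hA i)]
      have h3 : (1 : ℝ) ≤ r := by exact_mod_cast hr.one_le
      push_cast
      exact le_mul_of_one_le_left (prod_nonneg fun a _ => Nat.cast_nonneg _) h3
    rw [R7_eq, h1, h2 j]
    simp only [h2]
    simp

end Pool.Agent.Work.MP_bd2dcc_nt
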