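import Mathlib
import Pool.Agent.Work.MP_bd2dcc_nt.R1
import Pool.Agent.Work.MP_bd2dcc_nt.R2
import Pool.Agent.Work.MP_bd2dcc_nt.R7
import Pool.Agent.Work.MP_70e905_nt.MT.A4
import Pool.Agent.Work.MP_70e905_nt.MT.A7
import Pool.Agent.Work.MP_70e905_nt.MT.D1

set_option autoImplicit false

/-!
MODULE R8 (the weight on the multiples of a prime), size M-L; very similar to the proof of E1_up (MT/A7), please copy from there.
P = c.P W δ, r ∈ P, P' = P.erase r. For z ∈ c.dom W with r ∣ a j z + b j: (r, j) ∈ om P z (mem_om, A1), om P z ∈ LS K P (om_LS; the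
primes of P are not bd), so by ff_cond (R1) c.f z = ff gg P' (Yr r j YY) (om P z) = ff gg P' (Yr r j YY) (om P' z) (for
A ∈ LS K P' and a ∈ A: a ∈ om P z iff a ∈ om P' z) = ff go P' Y (om P' z) with Y = cv P' (Yr r j YY) (ff_cv, A5). The
indicator of r ∣ a j z + b j is 1[{(r, j)} ⊆ om {r} z]. sq_leg (A4) with P', P₀ = {r}, e E = 1 if E = {(r, j)} and 0
otherwise: sum over E ∈ LS K {r} of e E ga go E = 1 / r, #(LS K {r}) = K + 1 (or ≤ 2 ^ K: any bound), and Ex go P' (ff gg P' Yr)^2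
is bounded by Ex_any (R2). Error: |cv P' Yr A| ≤ (K + 2) 2^K cv P' 1 A ≤ (K + 2) 2^K e (cv_bd with the constant function
1 and sum_dif, as in A7); cv P' Yr A ≠ 0 → some C ∈ LS K P', A ⊆ C with Yr C ≠ 0, hence pr A ≤ pr C ≤ x^δ (Yr_bd, R7);
la_sum (TH/T04) as in A7: sum |la| ≤ (K + 2) 2^K e (C₁ log x)^(2 K) x^(2 δ), so the error is
≤ (K + 1) ((K + 2) 2^K e)^2 (C₁ log x)^(4 K) x^(4 δ) ≤ x^(1/2) for large x (δ ≤ 1/20).
-/

namespace Pool.Agent.Work.MP_bd2dcc_nt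

open Finset Pool.Agent.Work.MP_73869e_nt.TH Pool.Agent.Work.MP_70e905_nt.MT

private theorem R8_asym (D : ℝ) (n : ℕ) : ∃ X₀ : ℕ, ∀ x : ℕ, X₀ ≤ x →
    D * Real.log x ^ n ≤ (x : ℝ) ^ (3 / 10 : ℝ) := by
  have h := isLittleO_log_rpow_rpow_atTop (n : ℝ) (show (0 : ℝ) < 3 / 10 by norm_num)
  have h2 := (h.comp_tendsto tendsto_natCast_atTop_atTop).def
    (show (0 : ℝ) < 1 / (|D| + 1) by positivity)
  obtain ⟨X₀, hX₀⟩ := Filter.eventually_atTop.1 h2
  refine ⟨max X₀ 1, fun x hx => ?_⟩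
  have hx1 : 1 ≤ x := (le_max_right _ _).trans hx
  have h3 := hX₀ x ((le_max_left _ _).trans hx)
  simp only [Function.comp_apply] at h3
  have hl0 : 0 ≤ Real.log x := Real.log_natCast_nonneg x
  rw [Real.rpow_natCast, Real.norm_of_nonneg (by positivity), Real.norm_of_nonneg (by positivity)]
    at h3
  have hD1 : 0 < |D| + 1 := by positivity
  have h4 : (|D| + 1) * Real.log x ^ n ≤ (x : ℝ) ^ (3 / 10 : ℝ) := by
    have := mul_le_mul_of_nonneg_left h3 hD1.le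
    rw [← mul_assoc, mul_one_div_cancel hD1.ne', one_mul] at this
    exact this
  refine le_trans ?_ h4
  refine mul_le_mul_of_nonneg_right ?_ (by positivity)
  have := le_abs_self D
  linarith

/-- the weight restricted to `P.erase r` -/
private theorem R8_f {K : ℕ} (c : Cfg K) (W L : ℕ) (δ t₀ : ℝ) (r : ℕ) (hr : r ∈ c.P W δ)
    (j : Fin K) (z : ℕ) (hz : r ∣ c.a j * z + c.b j) :
    c.f W L δ t₀ z = ff go ((c.P W δ).erase r)
      (cv ((c.P W δ).erase r) (Yr r j (YY c.x L t₀ δ))) (om ((c.P W δ).erase r) c.a c.b z) := by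
  have hbd : ∀ p ∈ c.P W δ, ¬ bd c.a c.b p := fun p hp => by
    unfold Cfg.P Cfg.PZ at hp
    exact (mem_filter.1 hp).2.2.2
  have h1 := om_LS (c.P W δ) c.a c.b hbd z
  have h2 : (r, j) ∈ om (c.P W δ) c.a c.b z := (mem_om _ _ _ _ _).2 ⟨hr, hz⟩
  unfold Cfg.f
  rw [ff_cond (c.P W δ) r hr j _ _ (mem_LS.1 h1).2 h2, ← ff_cv]
  unfold ff
  refine sum_congr rfl fun A hA => ?_
  congr 1
  unfold xx
  refine prod_congr rfl fun a ha => ?_
  have h3 := (mem_LS.1 hA).1 a ha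
  have h4 : a ∈ om (c.P W δ) c.a c.b z ↔ a ∈ om ((c.P W δ).erase r) c.a c.b z := by
    rw [mem_om, mem_om]
    constructor
    · rintro ⟨_, h⟩
      exact ⟨h3, h⟩
    · rintro ⟨_, h⟩
      exact ⟨(mem_erase.1 h3).2, h⟩
  by_cases h : a ∈ om (c.P W δ) c.a c.b z
  · rw [if_pos h, if_pos (h4.1 h)]
  · rw [if_neg h, if_neg (fun h' => h (h4.2 h'))]

private theorem R8_LS {K : ℕ} (r : ℕ) (j : Fin K) : ({(r, j)} : Finset (ℕ × Fin K)) ∈ LS K {r} := by
  rw [mem_LS]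
  refine ⟨fun a ha => ?_, fun a ha b hb _ => ?_⟩
  · rw [mem_singleton] at ha
    rw [ha, mem_singleton]
  · rw [mem_singleton] at ha hb
    rw [ha, hb]

theorem cond_count (K L : ℕ) (δ t₀ : ℝ) (hδ : 0 < δ) (hδ' : δ ≤ 1 / 20) (ht₀ : 0 < t₀)
    (D₀ W A₀ C : ℕ) (hD : K < D₀) :
    ∃ X₀ : ℕ, ∀ c : Cfg K, c.Ok D₀ W A₀ C → X₀ ≤ c.x → ∀ r ∈ c.P W δ, ∀ j : Fin K,
      ∑ z ∈ (c.dom W).filter (fun z => r ∣ c.a j * z + c.b j), (c.f W L δ t₀ z) ^ 2 ≤
        c.x / W * (1 / r) * (Real.exp (K / D₀) *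
          ∑ A ∈ LS K ((c.P W δ).erase r), Yr r j (YY c.x L t₀ δ) A ^ 2 * ga gg A) +
        (c.x : ℝ) ^ (1 / 2 : ℝ) := by
  obtain ⟨C₁, hC₁, hgg⟩ := sum_gg
  have hC₁0 : 0 < C₁ := by linarith
  set E₀ : ℝ := (K + 2) * 2 ^ K * Real.exp 1 with hE₀
  set D : ℝ := (K + 1) * E₀ ^ 2 * C₁ ^ (4 * K) with hDdef
  have hE₀0 : 0 < E₀ := by positivity
  have hD0 : 0 < D := by positivity
  obtain ⟨X₂, hX₂⟩ := R8_asym D (4 * K)
  refine ⟨max X₂ 3, fun c hc hx r hr j => ?_⟩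
  have hxX₂ : X₂ ≤ c.x := (le_max_left _ _).trans hx
  have hx3 : 3 ≤ c.x := (le_max_right _ _).trans hx
  have hx3' : (3 : ℝ) ≤ c.x := by exact_mod_cast hx3
  have hx0 : (0 : ℝ) < c.x := by linarith
  have hl1 : 1 ≤ Real.log c.x := by
    rw [Real.le_log_iff_exp_le hx0]
    have := Real.exp_one_lt_d9
    linarith
  have hl0 : 0 < Real.log c.x := by linarith
  have hW0 : (0 : ℝ) < W := by exact_mod_cast hc.hW
  have hPp : ∀ p ∈ c.P W δ, p.Prime ∧ p ≤ c.x ∧ D₀ < p ∧ ¬ p ∣ W ∧ ¬ bd c.a c.b p := fun p hp =>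
    D1_P c D₀ W A₀ C δ hc (by linarith) (by omega) p hp
  set P := (c.P W δ).erase r with hP
  have hPp' : ∀ p ∈ P, p.Prime ∧ p ≤ c.x ∧ D₀ < p ∧ ¬ p ∣ W ∧ ¬ bd c.a c.b p := fun p hp =>
    hPp p (mem_of_mem_erase hp)
  have hrp : r.Prime := (hPp r hr).1
  have hdiva : ∀ p : ℕ, p.Prime → ¬ p ∣ W → ∀ i, ¬ p ∣ c.a i :=
    fun p hp h i hi => h (hc.haW i p hp hi)
  have hdis : Disjoint P {r} := by
    rw [disjoint_singleton_right, hP]
    exact notMem_erase r _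
  set Y : Finset (ℕ × Fin K) → ℝ := cv P (Yr r j (YY c.x L t₀ δ)) with hY
  set e : Finset (ℕ × Fin K) → ℝ := fun E => if E = {(r, j)} then 1 else 0 with he
  have hmain := sq_leg c.x W c.v hc.hW P {r} hdis c.a c.b (by
    intro p hp
    rcases mem_union.1 hp with h | h
    · exact ⟨(hPp' p h).1, (hPp' p h).2.2.2.1, hdiva p (hPp' p h).1 (hPp' p h).2.2.2.1⟩
    · rw [mem_singleton] at h
      rw [h]
      exact ⟨hrp, (hPp r hr).2.2.2.1, hdiva r hrp (hPp r hr).2.2.2.1⟩)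
    (fun p hp => (hPp' p hp).2.2.2.2) e Y (fun E => by
      rw [he]
      dsimp only
      split_ifs <;> norm_num)
  have hee : ∀ F : Finset (ℕ × Fin K) → ℝ, ∑ E ∈ LS K {r}, e E * F E = F {(r, j)} := by
    intro F
    rw [Finset.sum_eq_single_of_mem {(r, j)} (R8_LS r j)]
    · rw [he]
      simp
    · intro E _ hE
      rw [he]
      simp [hE]
  have h1 : ∑ E ∈ LS K {r}, e E * ga go E = 1 / (r : ℝ) := by
    rw [hee]
    unfold ga go
    rw [prod_singleton]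
  have h2 : ∀ z, ∑ E ∈ LS K {r}, e E * (if E ⊆ om {r} c.a c.b z then (1 : ℝ) else 0) =
      if r ∣ c.a j * z + c.b j then 1 else 0 := by
    intro z
    rw [hee]
    have h3 : ({(r, j)} : Finset (ℕ × Fin K)) ⊆ om {r} c.a c.b z ↔ r ∣ c.a j * z + c.b j := by
      rw [singleton_subset_iff, mem_om]
      simp
    by_cases h : r ∣ c.a j * z + c.b j
    · rw [if_pos h, if_pos (h3.2 h)]
    · rw [if_neg h, if_neg (fun h' => h (h3.1 h'))]
  have hsum : ∑ z ∈ (c.dom W).filter (fun z => r ∣ c.a j * z + c.b j), (c.f W L δ t₀ z) ^ 2 =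
      ∑ z ∈ (Ioc c.x (2 * c.x)).filter (fun z => z % W = c.v % W),
        (∑ E ∈ LS K {r}, e E * (if E ⊆ om {r} c.a c.b z then 1 else 0)) *
          (ff go P Y (om P c.a c.b z)) ^ 2 := by
    rw [sum_filter]
    unfold Cfg.dom
    refine sum_congr rfl fun z _ => ?_
    rw [h2]
    by_cases h : r ∣ c.a j * z + c.b j
    · rw [if_pos h, if_pos h, one_mul, R8_f c W L δ t₀ r hr j z h]
    · rw [if_neg h, if_neg h, zero_mul]
  rw [hsum]
  rw [h1] at hmain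
  have hEx : Ex go P (fun ω => (ff go P Y ω) ^ 2) ≤
      Real.exp (K / D₀) * ∑ A ∈ LS K P, Yr r j (YY c.x L t₀ δ) A ^ 2 * ga gg A := by
    have h3 := Ex_any D₀ hD P (fun p hp => ⟨(hPp' p hp).1, (hPp' p hp).2.2.1⟩)
      (Yr r j (YY c.x L t₀ δ))
    have h4 : (fun ω => (ff gg P (Yr r j (YY c.x L t₀ δ)) ω) ^ 2) =
        fun ω => (ff go P Y ω) ^ 2 := by
      funext ω
      rw [ff_cv]
    rw [h4] at h3
    exact h3
  -- the error
  have hcard : (#(LS K {r}) : ℝ) = K + 1 := by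
    have h2 := sum_LS_prod (K := K) {r} (fun _ => (1 : ℝ))
    simp only [Finset.prod_const_one, Finset.sum_const, Finset.card_univ, Fintype.card_fin,
      nsmul_eq_mul, mul_one, Finset.prod_const, card_singleton, pow_one] at h2
    rw [h2, add_comm]
  have hD1 : 1 ≤ D₀ := by omega
  have hcv1 : ∀ A : Finset (ℕ × Fin K), 0 ≤ cv P (fun _ => (1 : ℝ)) A ∧
      cv P (fun _ => (1 : ℝ)) A ≤ Real.exp 1 := by
    intro A
    have h3 := cv_bd P (fun p hp => (hPp' p hp).1) (fun _ : Finset (ℕ × Fin K) => (1 : ℝ))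
      (fun _ => zero_le_one) (fun _ _ _ _ => le_rfl) _
      (sum_dif D₀ hD1 P fun p hp => (hPp' p hp).2.2.1) A
    refine ⟨h3.1, h3.2.trans ?_⟩
    rw [one_mul, Real.exp_le_exp, mul_one_div]
    have h1 : (K : ℝ) ≤ D₀ := by exact_mod_cast hD.le
    have h2 : (0 : ℝ) < D₀ := by exact_mod_cast (by omega : 0 < D₀)
    rwa [div_le_one h2]
  have hYle : ∀ A, |Y A| ≤ E₀ := by
    intro A
    rw [hY]
    have h3 : |cv P (Yr r j (YY c.x L t₀ δ)) A| ≤ ((K + 2) * 2 ^ K) * cv P (fun _ => (1 : ℝ)) A := by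
      unfold cv
      refine (abs_sum_le_sum_abs _ _).trans ?_
      rw [mul_sum]
      refine sum_le_sum fun C' hC' => ?_
      rw [abs_mul, one_mul]
      have h5 : 0 ≤ ∏ c ∈ C' \ A, (gg c.1 - go c.1) := by
        refine prod_nonneg fun a ha => ?_
        have h6 := (hPp' _ ((mem_LS.1 (mem_filter.1 hC').1).1 a (mem_sdiff.1 ha).1)).1.two_le
        have h7 : (2 : ℝ) ≤ (a.1 : ℝ) := by exact_mod_cast h6
        unfold gg go
        rw [sub_nonneg]
        exact one_div_le_one_div_of_le (by linarith) (by linarith)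
      rw [abs_of_nonneg h5]
      exact mul_le_mul_of_nonneg_right (Yr_bd c.x L t₀ δ r hrp j C').1 h5
    refine h3.trans ?_
    rw [hE₀]
    exact mul_le_mul_of_nonneg_left (hcv1 A).2 (by positivity)
  have hYR : ∀ A, Y A ≠ 0 → (pr A : ℝ) ≤ (c.x : ℝ) ^ δ := by
    intro A hA
    rw [hY] at hA
    unfold cv at hA
    obtain ⟨C', hC', hne⟩ := Finset.exists_ne_zero_of_sum_ne_zero hA
    rw [mem_filter] at hC'
    have h1 : Yr r j (YY c.x L t₀ δ) C' ≠ 0 := fun h => hne (by rw [h, zero_mul])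
    have h2 := (Yr_bd c.x L t₀ δ r hrp j C').2 (fun i hi => by
      have := (mem_LS.1 hC'.1).1 _ hi
      rw [hP] at this
      exact notMem_erase r _ this) h1
    have h3 : pr A ≤ pr C' := by
      unfold pr
      refine Finset.prod_le_prod_of_subset_of_one_le' hC'.2 fun a ha _ => ?_
      exact (hPp' _ ((mem_LS.1 hC'.1).1 a ha)).1.one_le
    have h3' : (pr A : ℝ) ≤ pr C' := by exact_mod_cast h3
    exact h3'.trans h2
  have hgo0 : ∀ p ∈ P, 0 ≤ go p := fun p _ => by unfold go; positivity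
  have hgogg : ∑ p ∈ P, go p ≤ ∑ p ∈ P, gg p := by
    refine Finset.sum_le_sum fun p hp => ?_
    have h1 : (2 : ℝ) ≤ p := by exact_mod_cast (hPp' p hp).1.two_le
    unfold go gg
    exact one_div_le_one_div_of_le (by linarith) (by linarith)
  have hla := la_sum go P (fun p hp => (hPp' p hp).1.one_le) hgo0 (∑ p ∈ P, gg p)
    (∑ p ∈ P, gg p) ((c.x : ℝ) ^ δ) hgogg hgogg Y E₀ hYle hYR
  have hexpS : Real.exp (∑ p ∈ P, gg p) ≤ C₁ * Real.log c.x :=
    hgg c.x (by omega) P fun p hp => ⟨(hPp' p hp).1, (hPp' p hp).2.1⟩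
  have hexpKS : Real.exp (K * ∑ p ∈ P, gg p) ≤ (C₁ * Real.log c.x) ^ K := by
    rw [Real.exp_nat_mul]
    exact pow_le_pow_left₀ (Real.exp_pos _).le hexpS K
  set y : ℝ := (c.x : ℝ) ^ (1 / 10 : ℝ) with hy
  have hy0 : 0 < y := by positivity
  have hR2 : ((c.x : ℝ) ^ δ) ^ 2 ≤ y := by
    rw [hy, ← Real.rpow_natCast, ← Real.rpow_mul hx0.le]
    refine Real.rpow_le_rpow_of_exponent_le (by linarith) ?_
    push_cast
    linarith
  have hlasum : ∑ B ∈ LS K P, |la go P Y B| ≤ E₀ * (C₁ * Real.log c.x) ^ (2 * K) * y := by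
    calc ∑ B ∈ LS K P, |la go P Y B| ≤ ∑ B ∈ LS K P, |la go P Y B| * pr B := by
          refine Finset.sum_le_sum fun B hB => ?_
          refine le_mul_of_one_le_right (abs_nonneg _) ?_
          have h1 : 1 ≤ pr B := by
            unfold pr
            refine Nat.succ_le_of_lt (Finset.prod_pos fun a ha => ?_)
            exact (hPp' _ ((mem_LS.1 hB).1 a ha)).1.pos
          exact_mod_cast h1
      _ ≤ _ := hla
      _ ≤ E₀ * (C₁ * Real.log c.x) ^ K * (y * (C₁ * Real.log c.x) ^ K) := by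
          refine mul_le_mul (mul_le_mul_of_nonneg_left hexpKS (by positivity)) ?_
            (by positivity) (by positivity)
          exact mul_le_mul hR2 hexpKS (Real.exp_pos _).le hy0.le
      _ = _ := by ring
  have herr : (#(LS K {r}) : ℝ) * (∑ B ∈ LS K P, |la go P Y B|) ^ 2 ≤
      (c.x : ℝ) ^ (1 / 2 : ℝ) := by
    have h1 : 0 ≤ ∑ B ∈ LS K P, |la go P Y B| := Finset.sum_nonneg fun _ _ => abs_nonneg _
    have hy5 : (c.x : ℝ) ^ (1 / 2 : ℝ) = (c.x : ℝ) ^ (3 / 10 : ℝ) * y ^ 2 := by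
      rw [hy, ← Real.rpow_natCast, ← Real.rpow_mul hx0.le, ← Real.rpow_add hx0]
      norm_num
    calc (#(LS K {r}) : ℝ) * (∑ B ∈ LS K P, |la go P Y B|) ^ 2
        ≤ (K + 1) * (E₀ * (C₁ * Real.log c.x) ^ (2 * K) * y) ^ 2 := by
          rw [hcard]
          exact mul_le_mul_of_nonneg_left (pow_le_pow_left₀ h1 hlasum 2) (by positivity)
      _ = (D * Real.log c.x ^ (4 * K)) * y ^ 2 := by
          rw [hDdef]
          ring
      _ ≤ (c.x : ℝ) ^ (3 / 10 : ℝ) * y ^ 2 :=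
          mul_le_mul_of_nonneg_right (hX₂ c.x hxX₂) (by positivity)
      _ = _ := hy5.symm
  have hup := (abs_le.1 hmain).2
  have hxx : (c.x : ℝ) / W * (1 / r) * Ex go P (fun ω => (ff go P Y ω) ^ 2) ≤
      (c.x : ℝ) / W * (1 / r) * (Real.exp (K / D₀) *
        ∑ A ∈ LS K P, Yr r j (YY c.x L t₀ δ) A ^ 2 * ga gg A) :=
    mul_le_mul_of_nonneg_left hEx (by positivity)
  linarith

end Pool.Agent.Work.MP_bd2dcc_nt
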