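import Mathlib
import Pool.Agent.Work.MP_bd2dcc_nt.Defs
import Pool.Agent.Work.MP_2dba45_nt.Mert

set_option autoImplicit false

/-!
MODULE R9 (two sums over primes), size S-M.
sum_logp: sum over primes p ≤ y of log p / p ≤ log y + C (Mertens 1: mertens_one of MP_2dba45_nt/Mert), and
1 ≤ log p / log 2.
sum_cube: 1 / (p (p-1)^2) ≤ 1/(p-1)^2 - 1/p^2, telescoping over the integers > D₀.
-/

namespace Pool.Agent.Work.MP_bd2dcc_nt

open Finset Pool.Agent.Work.MP_73869e_nt.TH Pool.Agent.Work.MP_70e905_nt.MT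

theorem sum_logp : ∃ C₃ : ℝ, 1 ≤ C₃ ∧ ∀ y : ℝ, 2 ≤ y →
    ∑ p ∈ (Icc 1 ⌊y⌋₊).filter Nat.Prime, 1 / (p : ℝ) * (1 + Real.log p) ≤ C₃ * Real.log y := by
  obtain ⟨C, hC⟩ := Pool.Agent.Work.MP_2dba45_nt.Mert.mertens_one
  have hl2 : 0 < Real.log 2 := Real.log_pos (by norm_num)
  have hl2' : (1 : ℝ) / 2 ≤ Real.log 2 := by
    have := Real.log_two_gt_d9
    linarith
  refine ⟨3 * (1 + 2 * |C|), by nlinarith [abs_nonneg C], fun y hy => ?_⟩
  have hly : Real.log 2 ≤ Real.log y := Real.log_le_log (by norm_num) hy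
  set N := ⌊y⌋₊ with hN
  have hN2 : 2 ≤ N := Nat.le_floor (by exact_mod_cast hy)
  have hN0 : (0 : ℝ) < N := by exact_mod_cast (by omega : 0 < N)
  have hNy : Real.log N ≤ Real.log y := Real.log_le_log hN0 (Nat.floor_le (by linarith))
  have h1 := (abs_le.1 (hC N (by omega))).2
  have hset : (Icc 1 N).filter Nat.Prime = (Ioc 0 N).filter Nat.Prime := by
    ext p
    simp only [mem_filter, mem_Icc, mem_Ioc]
    constructor
    · rintro ⟨⟨a, b⟩, c⟩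
      exact ⟨⟨by omega, b⟩, c⟩
    · rintro ⟨⟨a, b⟩, c⟩
      exact ⟨⟨by omega, b⟩, c⟩
  rw [hset]
  calc ∑ p ∈ (Ioc 0 N).filter Nat.Prime, 1 / (p : ℝ) * (1 + Real.log p)
      ≤ ∑ p ∈ (Ioc 0 N).filter Nat.Prime, 3 * (Real.log p / p) := by
        refine sum_le_sum fun p hp => ?_
        have h2 := (mem_filter.1 hp).2
        have h3 : (2 : ℝ) ≤ p := by exact_mod_cast h2.two_le
        have h4 : Real.log 2 ≤ Real.log p := Real.log_le_log (by norm_num) h3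
        have h5 : (0 : ℝ) < p := by linarith
        rw [one_div, inv_mul_eq_div, mul_div_assoc', div_le_div_iff_of_pos_right h5]
        linarith
    _ = 3 * ∑ p ∈ (Ioc 0 N).filter Nat.Prime, Real.log p / p := by rw [mul_sum]
    _ ≤ 3 * (Real.log y + |C|) := by
        have := le_abs_self C
        linarith
    _ ≤ 3 * (1 + 2 * |C|) * Real.log y := by
        have h6 : |C| ≤ 2 * |C| * Real.log y := by
          nlinarith [abs_nonneg C]
        linarith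

theorem sum_cube (D₀ : ℕ) (hD : 1 ≤ D₀) (P : Finset ℕ) (hP : ∀ p ∈ P, D₀ < p) :
    ∑ p ∈ P, 1 / (p : ℝ) * gg p ^ 2 ≤ 1 / (D₀ : ℝ) ^ 2 := by
  set X := P.sup id + D₀ with hX
  have hsub : P ⊆ Ioc D₀ X := by
    intro p hp
    rw [mem_Ioc]
    have h9 : p ≤ P.sup id := Finset.le_sup (f := id) hp
    exact ⟨hP p hp, by omega⟩
  have htel : ∀ x : ℕ, D₀ ≤ x →
      ∑ m ∈ Ioc D₀ x, (1 / ((m : ℝ) - 1) ^ 2 - 1 / (m : ℝ) ^ 2) =
        1 / (D₀ : ℝ) ^ 2 - 1 / (x : ℝ) ^ 2 := by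
    intro x hx
    induction x, hx using Nat.le_induction with
    | base => simp
    | succ n hn ih =>
      rw [← Finset.insert_Ioc_right_eq_Ioc_add_one (by omega), sum_insert (by simp), ih]
      push_cast
      ring
  have hterm : ∀ m ∈ Ioc D₀ X, 0 ≤ 1 / ((m : ℝ) - 1) ^ 2 - 1 / (m : ℝ) ^ 2 ∧
      1 / (m : ℝ) * gg m ^ 2 ≤ 1 / ((m : ℝ) - 1) ^ 2 - 1 / (m : ℝ) ^ 2 := by
    intro m hm
    have h1 : 2 ≤ m := by
      have := (mem_Ioc.1 hm).1
      omega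
    have h2 : (2 : ℝ) ≤ m := by exact_mod_cast h1
    have h3 : (0 : ℝ) < (m : ℝ) - 1 := by linarith
    have h4 : (0 : ℝ) < m := by linarith
    have e : 1 / ((m : ℝ) - 1) ^ 2 - 1 / (m : ℝ) ^ 2 =
        (2 * m - 1) / (((m : ℝ) - 1) ^ 2 * (m : ℝ) ^ 2) := by
      field_simp
      ring
    rw [e]
    constructor
    · exact div_nonneg (by linarith) (by positivity)
    · unfold gg
      rw [div_pow, one_pow, one_div_mul_one_div, div_le_div_iff₀ (by positivity) (by positivity)]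
      have h5 : (0 : ℝ) ≤ ((m : ℝ) - 1) ^ 2 * m := by positivity
      nlinarith
  calc ∑ p ∈ P, 1 / (p : ℝ) * gg p ^ 2
      ≤ ∑ p ∈ P, (1 / ((p : ℝ) - 1) ^ 2 - 1 / (p : ℝ) ^ 2) :=
        sum_le_sum fun p hp => (hterm p (hsub hp)).2
    _ ≤ ∑ p ∈ Ioc D₀ X, (1 / ((p : ℝ) - 1) ^ 2 - 1 / (p : ℝ) ^ 2) :=
        sum_le_sum_of_subset_of_nonneg hsub fun m hm _ => (hterm m hm).1
    _ = 1 / (D₀ : ℝ) ^ 2 - 1 / (X : ℝ) ^ 2 := htel X (by omega)
    _ ≤ _ := by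
        have : (0 : ℝ) ≤ 1 / (X : ℝ) ^ 2 := by positivity
        linarith

end Pool.Agent.Work.MP_bd2dcc_nt
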