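import Mathlib
import Pool.Agent.Work.MP_bd2dcc_nt.R3
import Pool.Agent.Work.MP_bd2dcc_nt.R8
import Pool.Agent.Work.MP_bd2dcc_nt.R9
import Pool.Agent.Work.MP_70e905_nt.MT.F0
import Pool.Agent.Work.MP_70e905_nt.MT.F1
import Pool.Agent.Work.MP_70e905_nt.MT.D1

set_option autoImplicit false

/-!
MODULE R10 (the weight on the integers with a small prime factor), size M.
U2_ge: U2 P x L t₀ ≥ sum over S with pd S ≤ x^t₀ of HH S * yy(pd S)^2 ≥ Nz P (x^t₀) (yy ≥ 1 there: the term l = 0, L ≥ 1) ≥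
κ log x t₀ by Nz_low (F1, t = t₀ ≤ δ); κ ≥ rW W / 2 by kappa_ge (F0) with ε = 1 because c.P₀ W s = ∅ (hbd: no prime outside
W is bd; s = 1), rt ∅ = 1.
bad_mass: the set of z on the left is contained in the union over j and r ∈ c.P W δ, r ≤ x^δ₁ of the sets in cond_count (R8) (a prime
r ≤ x^δ₁ ≤ x^δ dividing a j z + b j, z ∈ dom, does not divide W by hcop (a j z + b j ≡ a j v + b j mod W), so it is in c.P W δ
by hbd). With C₂ of R3, Yr_norm (R7), the sum is at most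
(x/W) U2^K K e ^ (K/D₀) (16 C₂ (sum of (1 + log r)/r) / U2 + 2 K^2 sum of gg r^2 / r) + K x^δ₁ x^(1/2)
≤ (x/W) U2^K (K e 16 C₂ C₃ δ₁ log x / (t₀ (rW W / 2) log x) + 2 e K^3 / D₀^2) + K x^(δ₁ + 1/2)
with sum_logp, sum_cube (R9), K ≤ D₀, number of r at most x^δ₁. Choose δ₁ = min (δ, 1/4, t₀ rW W / (2 * 16 * 3 * 400 * K C₂ C₃))
(> 0); 2 e K^3 / D₀^2 ≤ 6 K^3 / (64 * 10^6 K^4) ≤ 1/400 for D₀ ≥ 8000 K^2; the last term is ≤ (1/400) x / W for large x, U2 ≥ 1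
(U_ge_one, A6).
-/

namespace Pool.Agent.Work.MP_bd2dcc_nt

open Finset Pool.Agent.Work.MP_73869e_nt.TH Pool.Agent.Work.MP_70e905_nt.MT

theorem U2_ge (K L : ℕ) (hL : 1 ≤ L) (δ t₀ : ℝ) (hδ : δ ≤ 1) (ht₀ : 0 < t₀) (htδ : t₀ ≤ δ)
    (D₀ W A₀ C : ℕ) : ∃ X₀ : ℕ, ∀ c : Cfg K, c.Ok D₀ W A₀ C →
      (∀ p : ℕ, p.Prime → ¬ p ∣ W → ¬ bd c.a c.b p) → X₀ ≤ c.x →
      rW W / 2 * t₀ * Real.log c.x ≤ U2 (c.P W δ) c.x L t₀ := by
  obtain ⟨X1, hX1⟩ := kappa_ge K 1 1 one_pos one_pos D₀ W A₀ C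
  refine ⟨max X1 3, fun c hc hbd hx => ?_⟩
  have x1 : X1 ≤ c.x := (le_max_left _ _).trans hx
  have x3 : 3 ≤ c.x := (le_max_right _ _).trans hx
  have hxr : (3 : ℝ) ≤ c.x := by exact_mod_cast x3
  have hlx : 0 < Real.log c.x := Real.log_pos (by linarith)
  have hP₀ : c.P₀ W 1 = ∅ := by
    unfold Cfg.P₀
    rw [filter_eq_empty_iff]
    intro p _ h
    exact hbd p h.1 h.2.1 h.2.2
  have h1 := hX1 c hc x1
  rw [hP₀] at h1
  have h2 : rt ∅ = 1 := by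
    unfold rt
    exact prod_empty
  rw [h2, mul_one] at h1
  have h3 := Nz_low c W δ t₀ (by omega) ht₀.le htδ hδ
  have hP : ∀ p ∈ c.P W δ, p.Prime := fun p hp => by
    unfold Cfg.P Cfg.PZ at hp
    exact (mem_filter.1 hp).2.1
  have h4 : Nz (c.P W δ) ((c.x : ℝ) ^ t₀) ≤ U2 (c.P W δ) c.x L t₀ := by
    unfold Nz U2
    rw [sum_filter]
    refine sum_le_sum fun S hS => ?_
    have hH : 0 ≤ HH S := by
      unfold HH
      refine prod_nonneg fun p hp => ?_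
      unfold gg
      have h5 : (2 : ℝ) ≤ p := by exact_mod_cast (hP p (mem_powerset.1 hS hp)).two_le
      exact div_nonneg zero_le_one (by linarith)
    split_ifs with h5
    · have h6 : 1 ≤ yy c.x L t₀ (pd S) := by
        unfold yy
        have h7 : (1 / 2 : ℝ) ^ 0 * (if ((pd S : ℕ) : ℝ) ≤ (c.x : ℝ) ^ ((2 : ℝ) ^ 0 * t₀)
            then (1 : ℝ) else 0) = 1 := by
          rw [pow_zero, pow_zero, one_mul, one_mul, if_pos h5]
        have h8 : 0 ∈ range L := mem_range.2 (by omega)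
        have h9 := single_le_sum (f := fun l => (1 / 2 : ℝ) ^ l *
          (if ((pd S : ℕ) : ℝ) ≤ (c.x : ℝ) ^ ((2 : ℝ) ^ l * t₀) then (1 : ℝ) else 0))
          (fun l _ => by split_ifs <;> positivity) h8
        exact h7.symm.le.trans h9
      exact le_mul_of_one_le_right hH (one_le_pow₀ h6)
    · exact mul_nonneg hH (sq_nonneg _)
  calc rW W / 2 * t₀ * Real.log c.x ≤ c.κ W * t₀ * Real.log c.x := by
        have : rW W / 2 ≤ c.κ W := by linarith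
        gcongr
    _ = c.κ W * Real.log c.x * t₀ := by ring
    _ ≤ _ := h3.trans h4

private theorem R10_mass (K L : ℕ) (hK : 1 ≤ K) (hL : 1 ≤ L) (δ t₀ δ₁ : ℝ) (hδ' : δ ≤ 1 / 20)
    (ht₀ : 0 < t₀) (hδ₁ : 0 < δ₁) (hδ₁' : δ₁ ≤ δ) (D₀ W A₀ C : ℕ) (hWp : 0 < W)
    (hD : 8000 * K ^ 2 ≤ D₀) (C₂ C₃ : ℝ) (hC₂ : 1 ≤ C₂) (hC₃ : 1 ≤ C₃)
    (hδ₁'' : δ₁ ≤ t₀ * rW W / (38400 * K * C₂ * C₃))
    (h3 : ∀ P' : Finset ℕ, (∀ p ∈ P', p.Prime) → ∀ (y : ℝ) (r : ℕ), 0 < y → 1 ≤ r →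
      ∑ S ∈ P'.powerset.filter (fun S => y / r < ((pd S : ℕ) : ℝ) ∧ ((pd S : ℕ) : ℝ) ≤ y), HH S ≤
        C₂ * (1 + Real.log r))
    (h9 : ∀ y : ℝ, 2 ≤ y →
      ∑ p ∈ (Icc 1 ⌊y⌋₊).filter Nat.Prime, 1 / (p : ℝ) * (1 + Real.log p) ≤ C₃ * Real.log y)
    (c : Cfg K) (hc : c.Ok D₀ W A₀ C) (hbd : ∀ p : ℕ, p.Prime → ¬ p ∣ W → ¬ bd c.a c.b p)
    (hx3 : 3 ≤ c.x) (hy2 : 2 ≤ (c.x : ℝ) ^ δ₁)
    (hbig : 400 * K * W * ((c.x : ℝ) ^ δ₁ * (c.x : ℝ) ^ (1 / 2 : ℝ)) ≤ c.x)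
    (hcond : ∀ r ∈ c.P W δ, ∀ j : Fin K,
      ∑ z ∈ (c.dom W).filter (fun z => r ∣ c.a j * z + c.b j), (c.f W L δ t₀ z) ^ 2 ≤
        c.x / W * (1 / r) * (Real.exp (K / D₀) *
          ∑ A ∈ LS K ((c.P W δ).erase r), Yr r j (YY c.x L t₀ δ) A ^ 2 * ga gg A) +
        (c.x : ℝ) ^ (1 / 2 : ℝ))
    (hU2 : rW W / 2 * t₀ * Real.log c.x ≤ U2 (c.P W δ) c.x L t₀)
    (dom' : Finset ℕ) (hdom : dom' ⊆ c.dom W) (hbad : ∀ z ∈ dom', ¬ Rg c ((c.x : ℝ) ^ δ₁) z) :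
    ∑ z ∈ dom', (c.f W L δ t₀ z) ^ 2 ≤ 1 / 100 * (c.x / W) * U2 (c.P W δ) c.x L t₀ ^ K := by
  have hxr : (3 : ℝ) ≤ c.x := by exact_mod_cast hx3
  have hx0 : (0 : ℝ) < c.x := by linarith
  have hlx : 0 < Real.log c.x := Real.log_pos (by linarith)
  have hW0 : (0 : ℝ) < W := by exact_mod_cast hWp
  have hKr : (1 : ℝ) ≤ K := by exact_mod_cast hK
  have hrW : 0 < rW W := by
    unfold rW
    have : (0 : ℝ) < Nat.totient W := by exact_mod_cast Nat.totient_pos.2 hWp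
    positivity
  have hP : ∀ p ∈ c.P W δ, p.Prime := fun p hp => by
    unfold Cfg.P Cfg.PZ at hp
    exact (mem_filter.1 hp).2.1
  obtain ⟨-, v2⟩ := U_ge_one (c.P W δ) hP c.x L t₀ (by omega) hL ht₀.le
  set P := c.P W δ with hPd
  set U := U2 P c.x L t₀ with hU
  set y := (c.x : ℝ) ^ δ₁ with hy
  have hD0 : (0 : ℝ) < D₀ := by
    have h1 : 1 ≤ K ^ 2 := Nat.one_le_pow _ _ hK
    exact_mod_cast (by omega : 0 < D₀)
  have hKD : K < D₀ := by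
    have h1 : K ≤ K ^ 2 := Nat.le_self_pow (by norm_num) K
    omega
  -- the pairs
  set PR : Finset ℕ := P.filter (fun r : ℕ => (r : ℝ) ≤ y) with hPR
  have hstep1 : ∑ z ∈ dom', (c.f W L δ t₀ z) ^ 2 ≤
      ∑ q ∈ PR ×ˢ (univ : Finset (Fin K)),
        ∑ z ∈ (c.dom W).filter (fun z => q.1 ∣ c.a q.2 * z + c.b q.2), (c.f W L δ t₀ z) ^ 2 := by
    calc ∑ z ∈ dom', (c.f W L δ t₀ z) ^ 2
        ≤ ∑ z ∈ dom', ∑ q ∈ PR ×ˢ (univ : Finset (Fin K)),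
          (if q.1 ∣ c.a q.2 * z + c.b q.2 then (c.f W L δ t₀ z) ^ 2 else 0) := by
          refine sum_le_sum fun z hz => ?_
          have h1 := hbad z hz
          unfold Rg at h1
          push Not at h1
          obtain ⟨j, r, hr, hd, hry⟩ := h1
          have hzd := hdom hz
          unfold Cfg.dom at hzd
          rw [mem_filter] at hzd
          have hrW' : ¬ r ∣ W := by
            intro hrW
            have h2 : (c.a j * z + c.b j) % W = (c.a j * c.v + c.b j) % W := by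
              rw [Nat.add_mod, Nat.mul_mod, hzd.2, ← Nat.mul_mod, ← Nat.add_mod]
            have h3 : r ∣ c.a j * c.v + c.b j := by
              have h4 : (c.a j * c.v + c.b j) % r = (c.a j * z + c.b j) % r := by
                rw [← Nat.mod_mod_of_dvd (c.a j * c.v + c.b j) hrW, ← h2, Nat.mod_mod_of_dvd _ hrW]
              exact Nat.dvd_of_mod_eq_zero (h4.trans (Nat.mod_eq_zero_of_dvd hd))
            have h5 := Nat.dvd_gcd h3 hrW
            rw [hc.hcop j] at h5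
            exact hr.one_lt.ne' (Nat.dvd_one.1 h5)
          have hrP : r ∈ PR := by
            rw [hPR, mem_filter]
            refine ⟨?_, hry⟩
            rw [hPd]
            unfold Cfg.P Cfg.PZ
            rw [mem_filter, mem_Icc]
            refine ⟨⟨hr.one_le, ?_⟩, hr, hrW', hbd r hr hrW'⟩
            rw [Nat.le_floor_iff (by positivity)]
            exact hry.trans (Real.rpow_le_rpow_of_exponent_le (by linarith) hδ₁')
          have h7 : ((r, j) : ℕ × Fin K) ∈ PR ×ˢ (univ : Finset (Fin K)) :=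
            mem_product.2 ⟨hrP, mem_univ j⟩
          have h6 := single_le_sum (f := fun q : ℕ × Fin K =>
            (if q.1 ∣ c.a q.2 * z + c.b q.2 then (c.f W L δ t₀ z) ^ 2 else 0))
            (s := PR ×ˢ (univ : Finset (Fin K)))
            (fun q _ => by
              split_ifs
              · positivity
              · exact le_rfl) h7
          refine le_trans (le_of_eq ?_) h6
          simp only
          rw [if_pos hd]
      _ = ∑ q ∈ PR ×ˢ (univ : Finset (Fin K)), ∑ z ∈ dom',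
          (if q.1 ∣ c.a q.2 * z + c.b q.2 then (c.f W L δ t₀ z) ^ 2 else 0) := sum_comm
      _ ≤ ∑ q ∈ PR ×ˢ (univ : Finset (Fin K)), ∑ z ∈ c.dom W,
          (if q.1 ∣ c.a q.2 * z + c.b q.2 then (c.f W L δ t₀ z) ^ 2 else 0) := by
          refine sum_le_sum fun q _ => ?_
          refine sum_le_sum_of_subset_of_nonneg hdom fun z _ _ => ?_
          split_ifs
          · positivity
          · exact le_rfl
      _ = _ := by
          refine sum_congr rfl fun q _ => ?_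
          rw [sum_filter]
  set β := rW W / 2 * t₀ * Real.log c.x with hβ
  have hβ0 : 0 < β := by positivity
  have hexp : Real.exp ((K : ℝ) / D₀) ≤ 3 := by
    have h1 : (K : ℝ) / D₀ ≤ 1 := by
      rw [div_le_one hD0]
      exact_mod_cast hKD.le
    have h2 := Real.exp_le_exp.2 h1
    have := Real.exp_one_lt_d9
    linarith
  have hUK : U ^ (K - 1) ≤ U ^ K / β := by
    rw [le_div_iff₀ hβ0]
    calc U ^ (K - 1) * β ≤ U ^ (K - 1) * U := by gcongr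
      _ = U ^ K := by
          rw [← pow_succ]
          congr 1
          omega
  have hterm : ∀ r ∈ PR, ∀ j : Fin K,
      ∑ z ∈ (c.dom W).filter (fun z => r ∣ c.a j * z + c.b j), (c.f W L δ t₀ z) ^ 2 ≤
        c.x / W * U ^ K * (48 * C₂ / β * (1 / (r : ℝ) * (1 + Real.log r)) +
          6 * K ^ 2 * (1 / (r : ℝ) * gg r ^ 2)) + (c.x : ℝ) ^ (1 / 2 : ℝ) := by
    intro r hr j
    have hrP := (mem_filter.1 hr).1
    have hrp := hP r hrP
    have hr0 : (0 : ℝ) < r := by exact_mod_cast hrp.pos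
    have hlr : 0 ≤ Real.log r := Real.log_natCast_nonneg r
    refine (hcond r hrP j).trans ?_
    have h1 := Yr_norm C₂ (by linarith) P hP h3 c.x L t₀ δ (by omega) r hrP j
    have h2 : ∑ A ∈ LS K (P.erase r), Yr r j (YY c.x L t₀ δ) A ^ 2 * ga gg A ≤
        U ^ K * (16 * C₂ / β * (1 + Real.log r) + 2 * K ^ 2 * gg r ^ 2) := by
      refine h1.trans ?_
      have h4 : 16 * (C₂ * (1 + Real.log r)) * U ^ (K - 1) ≤
          16 * (C₂ * (1 + Real.log r)) * (U ^ K / β) :=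
        mul_le_mul_of_nonneg_left hUK (by positivity)
      calc _ ≤ 16 * (C₂ * (1 + Real.log r)) * (U ^ K / β) + 2 * (K * gg r) ^ 2 * U ^ K := by
            linarith
        _ = _ := by
            field_simp
    have h5 : 0 ≤ U ^ K * (16 * C₂ / β * (1 + Real.log r) + 2 * K ^ 2 * gg r ^ 2) := by
      have : 0 < U := by linarith
      positivity
    have h6 : Real.exp (K / D₀) *
        ∑ A ∈ LS K (P.erase r), Yr r j (YY c.x L t₀ δ) A ^ 2 * ga gg A ≤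
        3 * (U ^ K * (16 * C₂ / β * (1 + Real.log r) + 2 * K ^ 2 * gg r ^ 2)) := by
      calc _ ≤ Real.exp (K / D₀) *
            (U ^ K * (16 * C₂ / β * (1 + Real.log r) + 2 * K ^ 2 * gg r ^ 2)) :=
            mul_le_mul_of_nonneg_left h2 (Real.exp_pos _).le
        _ ≤ _ := mul_le_mul_of_nonneg_right hexp h5
    have h7 : (c.x : ℝ) / W * (1 / r) * (Real.exp (K / D₀) *
          ∑ A ∈ LS K (P.erase r), Yr r j (YY c.x L t₀ δ) A ^ 2 * ga gg A) ≤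
        c.x / W * (1 / r) *
          (3 * (U ^ K * (16 * C₂ / β * (1 + Real.log r) + 2 * K ^ 2 * gg r ^ 2))) :=
      mul_le_mul_of_nonneg_left h6 (by positivity)
    have h8 : (c.x : ℝ) / W * (1 / r) *
          (3 * (U ^ K * (16 * C₂ / β * (1 + Real.log r) + 2 * K ^ 2 * gg r ^ 2))) =
        c.x / W * U ^ K * (48 * C₂ / β * (1 / (r : ℝ) * (1 + Real.log r)) +
          6 * K ^ 2 * (1 / (r : ℝ) * gg r ^ 2)) := by ring
    linarith
  have hPRsub : PR ⊆ (Icc 1 ⌊y⌋₊).filter Nat.Prime := by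
    intro r hr
    have h1 := mem_filter.1 hr
    rw [mem_filter, mem_Icc]
    exact ⟨⟨(hP r h1.1).one_le, (Nat.le_floor_iff (by positivity)).2 h1.2⟩, hP r h1.1⟩
  have hs1 : ∑ r ∈ PR, 1 / (r : ℝ) * (1 + Real.log r) ≤ C₃ * (δ₁ * Real.log c.x) := by
    have h1 := h9 y hy2
    rw [hy, Real.log_rpow hx0] at h1
    refine le_trans ?_ h1
    refine sum_le_sum_of_subset_of_nonneg hPRsub fun r _ _ => ?_
    have hlr : 0 ≤ Real.log r := Real.log_natCast_nonneg r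
    positivity
  have hs2 : ∑ r ∈ PR, 1 / (r : ℝ) * gg r ^ 2 ≤ 1 / (D₀ : ℝ) ^ 2 := by
    refine sum_cube D₀ (by omega) PR fun p hp => ?_
    exact (D1_P c D₀ W A₀ C δ hc (by linarith) (by omega) p (mem_filter.1 hp).1).2.2.1
  have hcard : (#PR : ℝ) ≤ y := by
    have h1 : #PR ≤ ⌊y⌋₊ := by
      calc #PR ≤ #(Icc 1 ⌊y⌋₊) := card_le_card (hPRsub.trans (filter_subset _ _))
        _ = ⌊y⌋₊ := by rw [Nat.card_Icc]; omega
    calc (#PR : ℝ) ≤ (⌊y⌋₊ : ℝ) := by exact_mod_cast h1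
      _ ≤ y := Nat.floor_le (by positivity)
  have hU0 : 0 < U := by linarith
  have hstep2 : ∑ q ∈ PR ×ˢ (univ : Finset (Fin K)),
        ∑ z ∈ (c.dom W).filter (fun z => q.1 ∣ c.a q.2 * z + c.b q.2), (c.f W L δ t₀ z) ^ 2 ≤
      K * (c.x / W * U ^ K * (48 * C₂ / β * (C₃ * (δ₁ * Real.log c.x)) +
        6 * K ^ 2 * (1 / (D₀ : ℝ) ^ 2)) + y * (c.x : ℝ) ^ (1 / 2 : ℝ)) := by
    calc _ ≤ ∑ q ∈ PR ×ˢ (univ : Finset (Fin K)),
          (c.x / W * U ^ K * (48 * C₂ / β * (1 / (q.1 : ℝ) * (1 + Real.log q.1)) +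
          6 * K ^ 2 * (1 / (q.1 : ℝ) * gg q.1 ^ 2)) + (c.x : ℝ) ^ (1 / 2 : ℝ)) :=
          sum_le_sum fun q hq => hterm q.1 (mem_product.1 hq).1 q.2
      _ = ∑ r ∈ PR, K * (c.x / W * U ^ K * (48 * C₂ / β * (1 / (r : ℝ) * (1 + Real.log r)) +
          6 * K ^ 2 * (1 / (r : ℝ) * gg r ^ 2)) + (c.x : ℝ) ^ (1 / 2 : ℝ)) := by
          rw [sum_product]
          refine sum_congr rfl fun r _ => ?_
          simp only
          rw [sum_const, card_univ, Fintype.card_fin, nsmul_eq_mul]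
      _ = K * (c.x / W * U ^ K * (48 * C₂ / β * (∑ r ∈ PR, 1 / (r : ℝ) * (1 + Real.log r)) +
          6 * K ^ 2 * (∑ r ∈ PR, 1 / (r : ℝ) * gg r ^ 2)) + #PR * (c.x : ℝ) ^ (1 / 2 : ℝ)) := by
          rw [← mul_sum, sum_add_distrib, sum_const, nsmul_eq_mul, ← mul_sum, sum_add_distrib,
            ← mul_sum, ← mul_sum]
      _ ≤ _ := by
          gcongr
  refine hstep1.trans (hstep2.trans ?_)
  -- the three terms
  have hT : 0 ≤ (c.x : ℝ) / W * U ^ K := by positivity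
  have a1 : (K : ℝ) * (48 * C₂ / β * (C₃ * (δ₁ * Real.log c.x))) ≤ 1 / 400 := by
    have h1 : (K : ℝ) * (48 * C₂ / β * (C₃ * (δ₁ * Real.log c.x))) =
        96 * K * C₂ * C₃ / (rW W * t₀) * δ₁ := by
      rw [hβ]
      field_simp
      ring
    rw [h1]
    calc 96 * K * C₂ * C₃ / (rW W * t₀) * δ₁ ≤
          96 * K * C₂ * C₃ / (rW W * t₀) * (t₀ * rW W / (38400 * K * C₂ * C₃)) := by gcongr
      _ = 1 / 400 := by
          field_simp
          norm_num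
  have a2 : (K : ℝ) * (6 * K ^ 2 * (1 / (D₀ : ℝ) ^ 2)) ≤ 1 / 400 := by
    have h1 : (8000 * (K : ℝ) ^ 2) ^ 2 ≤ (D₀ : ℝ) ^ 2 := by
      have : (8000 * (K : ℝ) ^ 2) ≤ D₀ := by exact_mod_cast hD
      gcongr
    have h2 : (K : ℝ) * (6 * K ^ 2 * (1 / (D₀ : ℝ) ^ 2)) = 6 * K ^ 3 / (D₀ : ℝ) ^ 2 := by
      field_simp
    rw [h2, div_le_div_iff₀ (by positivity) (by norm_num)]
    have h3 : (K : ℝ) ^ 3 ≤ K ^ 4 := pow_le_pow_right₀ hKr (by norm_num)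
    nlinarith
  have a3 : (K : ℝ) * (y * (c.x : ℝ) ^ (1 / 2 : ℝ)) ≤ 1 / 400 * (c.x / W * U ^ K) := by
    have h1 : (K : ℝ) * (y * (c.x : ℝ) ^ (1 / 2 : ℝ)) ≤ 1 / 400 * (c.x / W) := by
      rw [mul_div_assoc', le_div_iff₀ hW0]
      linarith
    refine h1.trans ?_
    have h2 : (c.x : ℝ) / W * 1 ≤ c.x / W * U ^ K :=
      mul_le_mul_of_nonneg_left (one_le_pow₀ v2) (by positivity)
    linarith
  calc (K : ℝ) * (c.x / W * U ^ K * (48 * C₂ / β * (C₃ * (δ₁ * Real.log c.x)) +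
        6 * K ^ 2 * (1 / (D₀ : ℝ) ^ 2)) + y * (c.x : ℝ) ^ (1 / 2 : ℝ))
      = c.x / W * U ^ K * (K * (48 * C₂ / β * (C₃ * (δ₁ * Real.log c.x)))) +
        c.x / W * U ^ K * (K * (6 * K ^ 2 * (1 / (D₀ : ℝ) ^ 2))) +
        K * (y * (c.x : ℝ) ^ (1 / 2 : ℝ)) := by ring
    _ ≤ c.x / W * U ^ K * (1 / 400) + c.x / W * U ^ K * (1 / 400) +
        1 / 400 * (c.x / W * U ^ K) := by gcongr
    _ ≤ _ := by linarith

theorem bad_mass (K L : ℕ) (hK : 1 ≤ K) (hL : 1 ≤ L) (δ t₀ : ℝ) (hδ : 0 < δ) (hδ' : δ ≤ 1 / 20)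
    (ht₀ : 0 < t₀) (htδ : t₀ ≤ δ) (D₀ W A₀ C : ℕ) (hW : 0 < W) (hD : 8000 * K ^ 2 ≤ D₀) :
    ∃ δ₁ : ℝ, 0 < δ₁ ∧ δ₁ ≤ δ ∧ ∃ X₀ : ℕ, ∀ c : Cfg K, c.Ok D₀ W A₀ C →
      (∀ p : ℕ, p.Prime → ¬ p ∣ W → ¬ bd c.a c.b p) → X₀ ≤ c.x →
      ∀ dom' : Finset ℕ, dom' ⊆ c.dom W → (∀ z ∈ dom', ¬ Rg c ((c.x : ℝ) ^ δ₁) z) →
      ∑ z ∈ dom', (c.f W L δ t₀ z) ^ 2 ≤
        1 / 100 * (c.x / W) * U2 (c.P W δ) c.x L t₀ ^ K := by
  obtain ⟨C₂, hC₂, h3⟩ := short_phi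
  obtain ⟨C₃, hC₃, h9⟩ := sum_logp
  have hKD : K < D₀ := by
    have h1 : K ≤ K ^ 2 := Nat.le_self_pow (by norm_num) K
    omega
  have hKr : (1 : ℝ) ≤ K := by exact_mod_cast hK
  have hW0 : (1 : ℝ) ≤ W := by exact_mod_cast hW
  have hrW : 0 < rW W := by
    unfold rW
    have : (0 : ℝ) < Nat.totient W := by exact_mod_cast Nat.totient_pos.2 hW
    positivity
  obtain ⟨X1, hX1⟩ := cond_count K L δ t₀ hδ hδ' ht₀ D₀ W A₀ C hKD
  obtain ⟨X2, hX2⟩ := U2_ge K L hL δ t₀ (by linarith) ht₀ htδ D₀ W A₀ C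
  set δ₁ : ℝ := min δ (t₀ * rW W / (38400 * K * C₂ * C₃)) with hδ₁
  have hδ₁0 : 0 < δ₁ := lt_min hδ (by positivity)
  have hδ₁1 : δ₁ ≤ δ := min_le_left _ _
  have hδ₁2 : δ₁ ≤ t₀ * rW W / (38400 * K * C₂ * C₃) := min_le_right _ _
  obtain ⟨X3, hX3, hX3'⟩ := D1_log (max (Real.log 2 / δ₁) (20 / 9 * Real.log (400 * K * W)))
  refine ⟨δ₁, hδ₁0, hδ₁1, max (max X1 X2) X3, fun c hc hbd hx dom' hdom hbad => ?_⟩
  simp only [max_le_iff] at hx
  obtain ⟨⟨x1, x2⟩, x3⟩ := hx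
  have hx3 : 3 ≤ c.x := hX3.trans x3
  have hxr : (3 : ℝ) ≤ c.x := by exact_mod_cast hx3
  have hx0 : (0 : ℝ) < c.x := by linarith
  have hl := hX3' c.x x3
  have hl1 : Real.log 2 / δ₁ ≤ Real.log c.x := (le_max_left _ _).trans hl
  have hl2 : 20 / 9 * Real.log (400 * K * W) ≤ Real.log c.x := (le_max_right _ _).trans hl
  refine R10_mass K L hK hL δ t₀ δ₁ hδ' ht₀ hδ₁0 hδ₁1 D₀ W A₀ C hW hD C₂ C₃ hC₂ hC₃ hδ₁2
    (fun P' hP' y r hy hr => h3 P' hP' y r hy hr) h9 c hc hbd hx3 ?_ ?_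
    (hX1 c hc x1) (hX2 c hc hbd x2) dom' hdom hbad
  · rw [← Real.log_le_log_iff (by norm_num) (by positivity), Real.log_rpow hx0]
    rwa [div_le_iff₀ hδ₁0, mul_comm] at hl1
  · have h1 : (400 * K * W : ℝ) ≤ (c.x : ℝ) ^ (9 / 20 : ℝ) := by
      rw [← Real.log_le_log_iff (by positivity) (by positivity), Real.log_rpow hx0]
      linarith
    have h2 : (c.x : ℝ) ^ δ₁ ≤ (c.x : ℝ) ^ (1 / 20 : ℝ) :=
      Real.rpow_le_rpow_of_exponent_le (by linarith) (by linarith)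
    calc 400 * K * W * ((c.x : ℝ) ^ δ₁ * (c.x : ℝ) ^ (1 / 2 : ℝ)) ≤
          (c.x : ℝ) ^ (9 / 20 : ℝ) * ((c.x : ℝ) ^ (1 / 20 : ℝ) * (c.x : ℝ) ^ (1 / 2 : ℝ)) := by
          gcongr
      _ = c.x := by
          rw [← Real.rpow_add hx0, ← Real.rpow_add hx0]
          norm_num

end Pool.Agent.Work.MP_bd2dcc_nt
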