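import Mathlib
import Pool.Agent.Work.MP_bd2dcc_nt.R10
import Pool.Agent.Work.MP_bd2dcc_nt.B1
import Pool.Agent.Work.MP_bd2dcc_nt.B2
import Pool.Agent.Work.MP_bd2dcc_nt.Q
import Pool.Agent.Work.MP_70e905_nt.MT.G3

set_option autoImplicit false

/-!
MODULE M1 (the core for configurations), size M-L. The proof follows `G3_core` of MT/G3 line by line (copy it):
C₀ from Nz_up, ε = δ = 1/1000, L = ⌈5 * 10^8 * κ₀ * C₀^2⌉ (≥ 1), m = 2^L; given K with m ≤ K ≤ κ₀ m (K ≥ 2 since m ≥ 2):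
t₀ = ε δ / (8 K C₀ L), s = δ / (10 (K + 1)), D₀ = 8000 K^2. 2^L t₀ = m t₀ ≤ K t₀ ≤ δ / 2, t₀ ≤ δ. As in G3_core one gets from
E1_up, E2_low, E3_up, s12U, kappa_ge, q_ge: T1 = (g + ε) (x / W) q1 U2^K ≥ sum of w, T2, T3 with ineq_T (G2) and ineq_6R (Q, R = κ₀)
(6 T1 ≤ m T2). Here P₀ = ∅ by hbd, so q1 = 1 and c.w = (c.f)^2 (cop is trivially true).
For each block b < 10 N: block (B1) with B = the labels with cl i = b and q z i = (c.a i * z + c.b i).Prime; the set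
{z : ∃ i ∈ B, q z i} is {z : b ∈ Bz c cl (10 N) z}. many (B2): the z with N ≤ #(Bz z) carry ≥ T1 / 10 ≥ (1/10) (x/W) U2^K.
Let G = these z with Rg c (x^δ₁) z; the others carry ≤ (1/100) (x/W) U2^K by bad_mass (R10). 1/10 - 1/100 = 9/100.
-/

namespace Pool.Agent.Work.MP_bd2dcc_nt

open Finset Pool.Agent.Work.MP_73869e_nt.TH Pool.Agent.Work.MP_70e905_nt.MT

private theorem M1_exp (K D₀ : ℕ) (hK : 1 ≤ K) (hD : D₀ = 8000 * K ^ 2) :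
    1 ≤ Real.exp (2 * K / D₀) ∧ Real.exp (2 * K / D₀) ≤ 1 + 1 / 1000 := by
  have hK' : (1 : ℝ) ≤ K := by exact_mod_cast hK
  have h1 : (2 * K / D₀ : ℝ) = 1 / (4000 * K) := by
    rw [hD]
    push_cast
    field_simp
    ring
  have h2 : (2 * K / D₀ : ℝ) ≤ 1 / 4000 := by
    rw [h1]
    apply one_div_le_one_div_of_le (by norm_num)
    linarith
  have h0 : 0 ≤ (2 * K / D₀ : ℝ) := by positivity
  refine ⟨Real.one_le_exp h0, ?_⟩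
  have h3 := Real.exp_bound' h0 (h2.trans (by norm_num)) (n := 2) (by norm_num)
  have h4 : ∑ m ∈ range 2, (2 * K / D₀ : ℝ) ^ m / m.factorial = 1 + 2 * K / D₀ := by
    simp [Finset.sum_range_succ]
  rw [h4] at h3
  have h5 : (2 * K / D₀ : ℝ) ^ 2 ≤ (1 / 4000) ^ 2 := by gcongr
  refine h3.trans ?_
  norm_num at h5 ⊢
  nlinarith

private theorem M1_core (hLD : ∀ t : ℝ, t < 1 / 2 → LD t) (hPNT : PNT) (C₀ : ℝ) (hC₀ : 1 ≤ C₀)
    (hNz : ∀ (K D₀ W A₀ C : ℕ) (δ τ : ℝ), 0 < τ → ∃ X₀ : ℕ,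
      ∀ c : Cfg K, c.Ok D₀ W A₀ C → X₀ ≤ c.x → ∀ t : ℝ, τ ≤ t → t ≤ 1 →
      Nz (c.P W δ) ((c.x : ℝ) ^ t) ≤ C₀ * (c.κ W * Real.log c.x) * t)
    (κ₀ N K m L D₀ : ℕ) (hκ : 1 ≤ κ₀) (hN : 1 ≤ N) (hm : m = 2 ^ L) (hmK : m ≤ K)
    (hKm : K ≤ κ₀ * m) (hL : 5 * 10 ^ 8 * κ₀ * C₀ ^ 2 ≤ L)
    (hD : D₀ = 8000 * K ^ 2) (t₀ : ℝ) (ht₀ : t₀ = 1 / 1000 * (1 / 1000) / (8 * K * C₀ * L))
    (W A₀ C : ℕ) (hWp : 0 < W) :
    ∃ δ₁ : ℝ, 0 < δ₁ ∧ δ₁ ≤ 1 / 1000 ∧ ∃ X₀ : ℕ, ∀ c : Cfg K, c.Ok D₀ W A₀ C →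
      (∀ p : ℕ, p.Prime → ¬ p ∣ W → ¬ bd c.a c.b p) → X₀ ≤ c.x →
      ∀ cl : Fin K → ℕ, (∀ b < 10 * N, #(univ.filter (fun i => cl i = b)) = m) →
      ∃ G : Finset ℕ, (∀ z ∈ G, z ∈ c.dom W ∧ N ≤ #(Bz c cl (10 * N) z) ∧
          Rg c ((c.x : ℝ) ^ δ₁) z) ∧
        9 / 100 * (c.x / W) * U2 (c.P W (1 / 1000)) c.x L t₀ ^ K ≤
          ∑ z ∈ G, (c.f W L (1 / 1000) t₀ z) ^ 2 := by
  have hL1 : 1 ≤ L := by
    have h1 : (1 : ℝ) ≤ C₀ ^ 2 := one_le_pow₀ hC₀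
    have h3 : (1 : ℝ) ≤ κ₀ := by exact_mod_cast hκ
    have h4 : (1 : ℝ) ≤ κ₀ * C₀ ^ 2 := by nlinarith
    have h2 : (1 : ℝ) ≤ L := by nlinarith
    exact_mod_cast h2
  have hm2 : 2 ≤ m := by
    rw [hm]
    calc 2 = 2 ^ 1 := by norm_num
      _ ≤ 2 ^ L := Nat.pow_le_pow_right (by norm_num) hL1
  have hm0 : 0 < m := by omega
  have hK1 : 1 ≤ K := by omega
  have hK2 : 2 ≤ K := by omega
  have hKr : (1 : ℝ) ≤ K := by exact_mod_cast hK1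
  have hLr : (1 : ℝ) ≤ L := by exact_mod_cast hL1
  have hC0 : 0 < C₀ := by linarith
  have ht₀p : 0 < t₀ := by rw [ht₀]; positivity
  set s : ℝ := 1 / 1000 / (10 * (K + 1)) with hs
  have hsp : 0 < s := by positivity
  have hs1 : s ≤ 1 / 1000 / 10 := by
    rw [hs]
    apply div_le_div_of_nonneg_left (by norm_num) (by norm_num)
    linarith
  have hsK : s * Real.log (K + 1) ≤ 1 / 10 := by
    have h1 : Real.log ((K : ℝ) + 1) ≤ K + 1 := by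
      have := Real.log_le_sub_one_of_pos (x := (K : ℝ) + 1) (by linarith)
      linarith
    calc s * Real.log (K + 1) ≤ s * (K + 1) := by gcongr
      _ = 1 / 10000 := by rw [hs]; field_simp; norm_num
      _ ≤ 1 / 10 := by norm_num
  have hKD : K < D₀ := by
    rw [hD]
    nlinarith
  have h2' : 8 * (K : ℝ) ^ 2 ≤ 1 / 1000 * D₀ := by
    rw [hD]
    push_cast
    linarith [sq_nonneg (K : ℝ)]
  have hKt : (K : ℝ) * t₀ ≤ 1 / 1000 / 2 := by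
    have h2 : (K : ℝ) * t₀ = 1 / 1000 * (1 / 1000) / (8 * C₀ * L) := by
      rw [ht₀]
      field_simp
    rw [h2]
    rw [div_le_iff₀ (by positivity)]
    nlinarith
  have hLδ : (2 : ℝ) ^ L * t₀ ≤ 1 / 1000 / 2 := by
    have h1 : (2 : ℝ) ^ L ≤ K := by
      have : ((2 ^ L : ℕ) : ℝ) ≤ K := by
        rw [← hm]
        exact_mod_cast hmK
      simpa using this
    calc (2 : ℝ) ^ L * t₀ ≤ K * t₀ := by gcongr
      _ ≤ _ := hKt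
  have ht₀δ : t₀ ≤ 1 / 1000 := by
    calc t₀ = 1 * t₀ := (one_mul _).symm
      _ ≤ K * t₀ := by gcongr
      _ ≤ _ := hKt
      _ ≤ _ := by norm_num
  obtain ⟨g1, g2⟩ := M1_exp K D₀ hK1 hD
  obtain ⟨X1, hX1⟩ := E1_up K L hL1 s (1 / 1000) t₀ (1 / 1000) hsp hsK (by norm_num) (by norm_num) ht₀p
    (by norm_num) D₀ W A₀ C hKD
  obtain ⟨X2, hX2⟩ := E2_low K L hK1 hL1 hLD hPNT s (1 / 1000) t₀ (1 / 1000) hsp (by linarith)
    (by norm_num) ht₀p hLδ (by norm_num) (by norm_num) D₀ W A₀ C h2'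
  obtain ⟨X3, hX3⟩ := E3_up K L hL1 hLD hPNT s (1 / 1000) t₀ (1 / 1000) hsp (by linarith)
    (by norm_num) ht₀p (by norm_num) D₀ W A₀ C hKD
  obtain ⟨X4, hX4⟩ := hNz K D₀ W A₀ C (1 / 1000) t₀ ht₀p
  obtain ⟨X5, hX5⟩ := kappa_ge K s (1 / 1000) hsp (by norm_num) D₀ W A₀ C
  obtain ⟨X6, hX6⟩ := q_ge K s hsp
  obtain ⟨δ₁, hδ₁, hδ₁', X7, hX7⟩ := bad_mass K L hK1 hL1 (1 / 1000) t₀ (by norm_num) (by norm_num)
    ht₀p ht₀δ D₀ W A₀ C hWp (by rw [hD])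
  refine ⟨δ₁, hδ₁, hδ₁', max (max (max X1 X2) (max X3 X4)) (max (max X5 X6) (max X7 3)),
    fun c hc hbd hx cl hcl => ?_⟩
  simp only [max_le_iff] at hx
  obtain ⟨⟨⟨x1, x2⟩, x3, x4⟩, ⟨x5, x6⟩, x7, x8⟩ := hx
  have hxr : (3 : ℝ) ≤ c.x := by exact_mod_cast x8
  have hlx : 0 < Real.log c.x := Real.log_pos (by linarith)
  obtain ⟨k1, k2⟩ := kappa_01 c W
  have hP : ∀ p ∈ c.P W (1 / 1000), p.Prime := fun p hp => by
    unfold Cfg.P Cfg.PZ at hp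
    exact (mem_filter.1 hp).2.1
  have e1 := hX1 c hc x1
  have e3 := hX3 c hc x3
  have e5 := hX5 c hc x5
  obtain ⟨e6, e6'⟩ := hX6 c D₀ W A₀ C hc hKD x6
  obtain ⟨u1, u2, u3, u4⟩ := s12U (c.P W (1 / 1000)) c.x L t₀ (1 / 1000) (c.κ W * Real.log c.x)
    (C₀ * (c.κ W * Real.log c.x)) hP (by omega) ht₀p hL1 (hLδ.trans (by norm_num)) (by positivity)
    (fun t h1 h2 => Nz_low c W (1 / 1000) t (by omega) (ht₀p.le.trans h1) h2 (by norm_num))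
    (fun t h1 h2 => hX4 c hc x4 t h1 (h2.trans (by norm_num)))
  obtain ⟨v1, v2⟩ := U_ge_one (c.P W (1 / 1000)) hP c.x L t₀ (by omega) hL1 ht₀p.le
  set U1' := U1 (c.P W (1 / 1000)) c.x L t₀ with hU1'
  set U2' := U2 (c.P W (1 / 1000)) c.x L t₀ with hU2'
  set κ := c.κ W with hκ'
  set lx := Real.log c.x with hlxd
  have h3 : 2 * K * U2t (c.P W (1 / 1000)) c.x L t₀ ≤ 1 / 1000 * (1 / 1000) * U2' := by
    have e : 2 * K * (4 * (C₀ * (κ * lx)) * L * t₀ ^ 2) = 1 / 1000 * (1 / 1000) * (κ * lx * t₀) := by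
      have : t₀ ^ 2 = t₀ * (1 / 1000 * (1 / 1000) / (8 * K * C₀ * L)) := by rw [← ht₀]; ring
      rw [this]
      field_simp
      ring
    calc 2 * K * U2t (c.P W (1 / 1000)) c.x L t₀ ≤ 2 * K * (4 * (C₀ * (κ * lx)) * L * t₀ ^ 2) := by
          gcongr
      _ = 1 / 1000 * (1 / 1000) * (κ * lx * t₀) := e
      _ ≤ _ := by gcongr
  have e2 := hX2 c hc x2 h3
  have hW0 : (0 : ℝ) < W := by exact_mod_cast hc.hW
  have hφ : (0 : ℝ) < Nat.totient W := by exact_mod_cast Nat.totient_pos.2 hc.hW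
  have hX : 0 < c.X W := by
    unfold Cfg.X
    positivity
  have hrW : 0 < rW W := by
    unfold rW
    positivity
  have hq1 : 0 < c.q1 W s := lt_of_lt_of_le (by positivity) e6
  have hq2 : 0 < c.q2 W s := lt_of_lt_of_le hq1 e6'
  have hxW : (c.x : ℝ) / W = c.X W * rW W * lx := by
    unfold Cfg.X rW
    rw [← hlxd]
    field_simp
  -- no exceptional primes
  have hP₀ : c.P₀ W s = ∅ := by
    unfold Cfg.P₀
    rw [filter_eq_empty_iff]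
    intro p _ h
    exact hbd p h.1 h.2.1 h.2.2
  have hq1' : c.q1 W s = 1 := by
    unfold Cfg.q1
    rw [hP₀, prod_empty]
  have hwf : ∀ z, c.w W L s (1 / 1000) t₀ z = (c.f W L (1 / 1000) t₀ z) ^ 2 := by
    intro z
    unfold Cfg.w
    rw [if_pos]
    rw [hP₀]
    unfold cop
    simp
  have hr : 0 ≤ rt (c.P₀ W s) := (rt_01 _).1
  have hT1low : (c.x : ℝ) / W * U2' ^ K ≤
      (Real.exp (2 * K / D₀) + 1 / 1000) * (c.x / W) * c.q1 W s * U2' ^ K := by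
    rw [hq1', mul_one]
    have : 0 ≤ (c.x : ℝ) / W * U2' ^ K := by
      have : 0 < U2' := by linarith
      positivity
    have e : (Real.exp (2 * K / D₀) + 1 / 1000) * ((c.x : ℝ) / W) * U2' ^ K =
      (Real.exp (2 * K / D₀) + 1 / 1000) * ((c.x : ℝ) / W * U2' ^ K) := by ring
    rw [e]
    exact le_mul_of_one_le_left this (by linarith)
  set T1 := (Real.exp (2 * K / D₀) + 1 / 1000) * ((c.x : ℝ) / W) * c.q1 W s * U2' ^ K with hT1d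
  have hT1e : T1 = (Real.exp (2 * K / D₀) + 1 / 1000) * (c.X W * rW W * lx) *
      (c.q2 W s * rt (c.P₀ W s)) * U2' ^ K := by
    rw [hT1d, hxW, q1_eq]
  set T2 := (1 - 4 * (1 / 1000)) * c.X W * c.q2 W s * U1' ^ 2 * U2' ^ (K - 1) with hT2d
  set T3 := ((1 + 1 / 1000) * Real.exp (2 * K / D₀) + 1 / 1000) * c.X W * c.q2 W s * U1' ^ 4 *
    U2' ^ (K - 2) / (κ * ((1 / 4 - 2 * (1 / 1000)) * lx)) with hT3d
  have hT : T1 * T3 ≤ 41 / 10 * T2 ^ 2 := by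
    rw [hT1e]
    exact ineq_T K hK2 _ (rW W) _ κ lx (c.X W) (c.q2 W s) U1' U2' g1 g2 hrW hr k1 hlx hX hq2.le
      (by linarith) (by linarith) e5
  have h6 : 6 * T1 ≤ m * T2 := by
    rw [hT1e]
    exact ineq_6R K L m κ₀ hK1 hκ hKm C₀ t₀ _ (rW W) _ κ lx (c.X W) (c.q2 W s) U1' U2' hC₀ hL ht₀
      g1 g2 hrW hr k1 hlx hX hq2.le u1 (by linarith) u3 e5
  have hU2p : 0 < U2' := by linarith
  have hU1p : 0 < U1' := by linarith
  have hT1p : 0 < T1 := by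
    refine lt_of_lt_of_le ?_ hT1low
    have : (0 : ℝ) < c.x := by linarith
    positivity
  have hT2n : 0 ≤ T2 := by
    have : (0 : ℝ) ≤ 1 - 4 * (1 / 1000) := by norm_num
    positivity
  have hT3n : 0 ≤ T3 := by
    have : (0 : ℝ) ≤ 1 / 4 - 2 * (1 / 1000) := by norm_num
    positivity
  simp only [hwf] at e1 e2 e3
  -- blocks
  have hmany := many N hN (c.dom W) (fun z => (c.f W L (1 / 1000) t₀ z) ^ 2)
    (fun z => sq_nonneg _) (fun z => Bz c cl (10 * N) z)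
    (fun z => by
      unfold Bz
      exact filter_subset _ _) T1 hT1p.le e1 (fun b hb => by
      have h := block (c.dom W) (fun z => (c.f W L (1 / 1000) t₀ z) ^ 2) (fun z => sq_nonneg _)
        (univ.filter (fun i => cl i = b)) (fun z i => (c.a i * z + c.b i).Prime) m (hcl b hb)
        T1 T2 T3 hT1p hT2n hT3n (fun i _ => e2 i) (fun i _ j _ hij => e3 i j hij) hT h6
      refine h.trans (le_of_eq ?_)
      refine sum_congr ?_ fun _ _ => rfl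
      refine filter_congr fun z _ => ?_
      unfold Bz
      rw [mem_filter, mem_range]
      constructor
      · rintro ⟨i, hi, hp⟩
        exact ⟨hb, i, (mem_filter.1 hi).2, hp⟩
      · rintro ⟨_, i, hi, hp⟩
        exact ⟨i, mem_filter.2 ⟨mem_univ _, hi⟩, hp⟩)
  classical
  set D1 := (c.dom W).filter (fun z => N ≤ #(Bz c cl (10 * N) z)) with hD1
  have hsplit := sum_filter_add_sum_filter_not D1 (fun z => Rg c ((c.x : ℝ) ^ δ₁) z)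
    (fun z => (c.f W L (1 / 1000) t₀ z) ^ 2)
  have hbad := hX7 c hc hbd x7 (D1.filter (fun z => ¬ Rg c ((c.x : ℝ) ^ δ₁) z))
    ((filter_subset _ _).trans (filter_subset _ _)) (fun z hz => (mem_filter.1 hz).2)
  refine ⟨D1.filter (fun z => Rg c ((c.x : ℝ) ^ δ₁) z), fun z hz => ?_, ?_⟩
  · obtain ⟨h1, h2⟩ := mem_filter.1 hz
    obtain ⟨h3, h4⟩ := mem_filter.1 h1
    exact ⟨h3, h4, h2⟩
  · have e : (9 : ℝ) / 100 * (c.x / W) * U2' ^ K = 1 / 10 * (c.x / W * U2' ^ K) -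
        1 / 100 * (c.x / W) * U2' ^ K := by ring
    rw [e]
    linarith

theorem core (hLD : ∀ t : ℝ, t < 1 / 2 → LD t) (hPNT : PNT) (κ₀ N : ℕ) (hκ : 1 ≤ κ₀) (hN : 1 ≤ N) :
    ∃ m : ℕ, 0 < m ∧ ∀ K : ℕ, m ≤ K → K ≤ κ₀ * m →
      ∃ (L : ℕ) (t₀ : ℝ), 1 ≤ L ∧ 0 < t₀ ∧ t₀ ≤ 1 / 1000 ∧ ∀ W A₀ C : ℕ, 0 < W →
        ∃ δ₁ : ℝ, 0 < δ₁ ∧ δ₁ ≤ 1 / 1000 ∧ ∃ X₀ : ℕ, ∀ c : Cfg K, c.Ok (8000 * K ^ 2) W A₀ C →
          (∀ p : ℕ, p.Prime → ¬ p ∣ W → ¬ bd c.a c.b p) → X₀ ≤ c.x →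
          ∀ cl : Fin K → ℕ, (∀ b < 10 * N, #(univ.filter (fun i => cl i = b)) = m) →
          ∃ G : Finset ℕ, (∀ z ∈ G, z ∈ c.dom W ∧ N ≤ #(Bz c cl (10 * N) z) ∧
              Rg c ((c.x : ℝ) ^ δ₁) z) ∧
            9 / 100 * (c.x / W) * U2 (c.P W (1 / 1000)) c.x L t₀ ^ K ≤
              ∑ z ∈ G, (c.f W L (1 / 1000) t₀ z) ^ 2 := by
  obtain ⟨C₀, hC₀, hNz⟩ := Nz_up
  obtain ⟨L, hL⟩ := exists_nat_ge (5 * 10 ^ 8 * κ₀ * C₀ ^ 2)
  refine ⟨2 ^ L, by positivity, fun K hmK hKm => ?_⟩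
  have hL1 : (1 : ℝ) ≤ L := by
    have h1 : (1 : ℝ) ≤ C₀ ^ 2 := one_le_pow₀ hC₀
    have h3 : (1 : ℝ) ≤ κ₀ := by exact_mod_cast hκ
    have h4 : (1 : ℝ) ≤ κ₀ * C₀ ^ 2 := by nlinarith
    nlinarith
  have hK1 : 1 ≤ K := le_trans Nat.one_le_two_pow hmK
  have hKr : (1 : ℝ) ≤ K := by exact_mod_cast hK1
  have hC0 : 0 < C₀ := by linarith
  refine ⟨L, 1 / 1000 * (1 / 1000) / (8 * K * C₀ * L), by exact_mod_cast hL1, by positivity, ?_,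
    fun W A₀ C hW => ?_⟩
  · rw [div_le_iff₀ (by positivity)]
    have h1 : (1 : ℝ) ≤ K * C₀ := by nlinarith
    have h2 : (1 : ℝ) ≤ K * C₀ * L := by nlinarith
    nlinarith
  · exact M1_core hLD hPNT C₀ hC₀ hNz κ₀ N K (2 ^ L) L _ hκ hN rfl hmK hKm hL rfl _ rfl W A₀ C hW

end Pool.Agent.Work.MP_bd2dcc_nt
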