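import Mathlib
import Pool.Agent.Work.MP_bd2dcc_nt.Defs
import Pool.Agent.Work.MP_70e905_nt.MT.A7
import Pool.Agent.Work.MP_70e905_nt.MT.D1

set_option autoImplicit false

/-!
MODULE M2 (size of the weight at integers without small prime factors), size M.
P = c.P W δ. c.f z = ff gg P YY (om P z) = ff go P Y (om P z), Y = cv P YY (ff_cv, A5) = sum over B ∈ LS K P of la go P Y B * 1[B ⊆ om P z]
(ff_exp, TH/T03), so |c.f z| ≤ 2 ^ #(om P z) * max |la go P Y B|. |Y A| ≤ 2^K e (as in A7: cv_bd with YY_bd, YY_anti, sum_dif), so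
|la go P Y B| ≤ 2^K e exp (K S) (la_le, TH/T04) with S = sum over P of gg, exp S ≤ C₁ log x (sum_gg, M0).
#(om P z) ≤ K * ⌈2 / δ₁⌉: for each label j the primes p ∈ P dividing a j z + b j are > x^δ₁ (Rg) and their product divides
a j z + b j ≤ 2 A₀ x + C x ≤ x^2 (x ≥ 2 A₀ + C, a j z + b j > 0), so there are at most 2 / δ₁ of them.
-/

namespace Pool.Agent.Work.MP_bd2dcc_nt

open Finset Pool.Agent.Work.MP_73869e_nt.TH Pool.Agent.Work.MP_70e905_nt.MT

private theorem M2_count (n : ℕ) (hn : 0 < n) (x δ₁ : ℝ) (hx : 1 < x) (hδ₁ : 0 < δ₁)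
    (hnx : (n : ℝ) ≤ x ^ (2 : ℝ)) (Q : Finset ℕ) (hQ : ∀ p ∈ Q, p.Prime ∧ p ∣ n ∧ x ^ δ₁ < p) :
    #Q ≤ ⌈2 / δ₁⌉₊ := by
  have h1 : ∏ p ∈ Q, p ∣ n :=
    Finset.prod_primes_dvd n (fun p hp => (hQ p hp).1.prime) fun p hp => (hQ p hp).2.1
  have h2 : ((∏ p ∈ Q, p : ℕ) : ℝ) ≤ x ^ (2 : ℝ) :=
    le_trans (by exact_mod_cast Nat.le_of_dvd hn h1) hnx
  have h3 : (x ^ δ₁) ^ #Q ≤ ((∏ p ∈ Q, p : ℕ) : ℝ) := by
    push_cast
    rw [← prod_const]
    exact prod_le_prod (fun p _ => by positivity) fun p hp => (hQ p hp).2.2.le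
  have h4 : x ^ (δ₁ * #Q) ≤ x ^ (2 : ℝ) := by
    rw [Real.rpow_mul (by linarith), Real.rpow_natCast]
    exact h3.trans h2
  have h5 : δ₁ * #Q ≤ 2 := (Real.rpow_le_rpow_left_iff hx).1 h4
  have h6 : (#Q : ℝ) ≤ 2 / δ₁ := by
    rw [le_div_iff₀ hδ₁]
    linarith
  exact_mod_cast h6.trans (Nat.le_ceil _)

theorem f_rough (K L : ℕ) (δ t₀ δ₁ : ℝ) (hδ : 0 < δ) (hδ' : δ ≤ 1 / 20) (ht₀ : 0 < t₀)
    (hδ₁ : 0 < δ₁) (D₀ W A₀ C : ℕ) (hD : K < D₀) :
    ∃ (C₄ : ℝ) (X₀ : ℕ), 0 < C₄ ∧ ∀ c : Cfg K, c.Ok D₀ W A₀ C → X₀ ≤ c.x → ∀ z ∈ c.dom W,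
      Rg c ((c.x : ℝ) ^ δ₁) z → (c.f W L δ t₀ z) ^ 2 ≤ C₄ * Real.log c.x ^ (2 * K) := by
  obtain ⟨C₁, hC₁, hgg⟩ := sum_gg
  have hC₁0 : 0 < C₁ := by linarith
  set M := K * ⌈2 / δ₁⌉₊ with hM
  refine ⟨(2 ^ M * (2 ^ K * Real.exp 1 * C₁ ^ K)) ^ 2, max 3 (2 * A₀ + C), by positivity,
    fun c hc hx z hz hR => ?_⟩
  have hx3 : 3 ≤ c.x := (le_max_left _ _).trans hx
  have hxA : 2 * A₀ + C ≤ c.x := (le_max_right _ _).trans hx
  have hx3' : (3 : ℝ) ≤ c.x := by exact_mod_cast hx3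
  have hx0 : (0 : ℝ) < c.x := by linarith
  have hl0 : 0 < Real.log c.x := Real.log_pos (by linarith)
  set P := c.P W δ with hP
  have hPp : ∀ p ∈ P, p.Prime ∧ p ≤ c.x ∧ D₀ < p ∧ ¬ p ∣ W ∧ ¬ bd c.a c.b p := fun p hp =>
    D1_P c D₀ W A₀ C δ hc (by linarith) (by omega) p hp
  set Y : Finset (ℕ × Fin K) → ℝ := cv P (YY c.x L t₀ δ) with hY
  have hD1 : 1 ≤ D₀ := by omega
  have hcv : ∀ A, 0 ≤ Y A ∧ Y A ≤ YY c.x L t₀ δ A * Real.exp (K * (1 / D₀)) := fun A =>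
    cv_bd P (fun p hp => (hPp p hp).1) _ (fun A => (YY_bd c.x L t₀ δ A).1)
      (fun A C' hC' hAC => YY_anti P (fun p hp => (hPp p hp).1.one_le) c.x L t₀ δ A C' hC' hAC) _
      (sum_dif D₀ hD1 P fun p hp => (hPp p hp).2.2.1) A
  have hYle : ∀ A, |Y A| ≤ 2 ^ K * Real.exp 1 := by
    intro A
    rw [abs_of_nonneg (hcv A).1]
    refine (hcv A).2.trans ?_
    refine mul_le_mul (YY_bd c.x L t₀ δ A).2.1 ?_ (Real.exp_pos _).le (by positivity)
    rw [Real.exp_le_exp, mul_one_div]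
    have h1 : (K : ℝ) ≤ D₀ := by exact_mod_cast hD.le
    have h2 : (0 : ℝ) < D₀ := by exact_mod_cast (by omega : 0 < D₀)
    rwa [div_le_one h2]
  have hgo0 : ∀ p ∈ P, 0 ≤ go p := fun p _ => by unfold go; positivity
  have hgogg : ∑ p ∈ P, go p ≤ ∑ p ∈ P, gg p := by
    refine Finset.sum_le_sum fun p hp => ?_
    have h1 : (2 : ℝ) ≤ p := by exact_mod_cast (hPp p hp).1.two_le
    unfold go gg
    exact one_div_le_one_div_of_le (by linarith) (by linarith)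
  have hla := fun B => la_le go P hgo0 (∑ p ∈ P, gg p) hgogg Y (2 ^ K * Real.exp 1) hYle B
  have hexpS : Real.exp (∑ p ∈ P, gg p) ≤ C₁ * Real.log c.x :=
    hgg c.x (by omega) P fun p hp => ⟨(hPp p hp).1, (hPp p hp).2.1⟩
  have hexpKS : Real.exp (K * ∑ p ∈ P, gg p) ≤ (C₁ * Real.log c.x) ^ K := by
    rw [Real.exp_nat_mul]
    exact pow_le_pow_left₀ (Real.exp_pos _).le hexpS K
  set F : ℝ := 2 ^ K * Real.exp 1 * (C₁ * Real.log c.x) ^ K with hF
  have hF0 : 0 ≤ F := by positivity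
  have hla' : ∀ B, |la go P Y B| ≤ F := fun B =>
    (hla B).trans (mul_le_mul_of_nonneg_left hexpKS (by positivity))
  -- number of prime divisors
  have hzd := hz
  unfold Cfg.dom at hzd
  rw [mem_filter, mem_Ioc] at hzd
  have hcard : #(om P c.a c.b z) ≤ M := by
    have h1 : om P c.a c.b z ⊆ (univ : Finset (Fin K)).biUnion (fun j =>
        (P.filter (fun p => p ∣ c.a j * z + c.b j)).image (fun p => (p, j))) := by
      intro a ha
      rw [mem_om] at ha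
      rw [mem_biUnion]
      exact ⟨a.2, mem_univ _, mem_image.2 ⟨a.1, mem_filter.2 ha, rfl⟩⟩
    have h2 : ∀ j : Fin K, #(P.filter (fun p => p ∣ c.a j * z + c.b j)) ≤ ⌈2 / δ₁⌉₊ := by
      intro j
      have hz0 : 0 < z := by omega
      have ha := hc.ha j
      have hpos : 0 < c.a j * z + c.b j := by
        have : 0 < c.a j * z := Nat.mul_pos (by omega) hz0
        omega
      refine M2_count (c.a j * z + c.b j) hpos c.x δ₁ (by linarith) hδ₁ ?_ _ fun p hp => ?_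
      · have h3 : c.a j * z + c.b j ≤ c.x ^ 2 := by
          calc c.a j * z + c.b j ≤ A₀ * (2 * c.x) + C * c.x :=
                Nat.add_le_add (Nat.mul_le_mul (hc.haA j) hzd.1.2) (hc.hb j)
            _ = (2 * A₀ + C) * c.x := by ring
            _ ≤ c.x * c.x := Nat.mul_le_mul_right _ hxA
            _ = c.x ^ 2 := by ring
        have h4 : (c.x : ℝ) ^ (2 : ℝ) = ((c.x ^ 2 : ℕ) : ℝ) := by
          push_cast
          exact Real.rpow_natCast _ 2
        rw [h4]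
        exact_mod_cast h3
      · obtain ⟨h3, h4⟩ := mem_filter.1 hp
        exact ⟨(hPp p h3).1, h4, hR j p (hPp p h3).1 h4⟩
    calc #(om P c.a c.b z) ≤ ∑ j : Fin K,
          #((P.filter (fun p => p ∣ c.a j * z + c.b j)).image (fun p => (p, j))) :=
          (card_le_card h1).trans card_biUnion_le
      _ ≤ ∑ _j : Fin K, ⌈2 / δ₁⌉₊ := sum_le_sum fun j _ => card_image_le.trans (h2 j)
      _ = M := by rw [sum_const, card_univ, Fintype.card_fin, smul_eq_mul]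
  have hf : |c.f W L δ t₀ z| ≤ 2 ^ M * F := by
    unfold Cfg.f
    rw [ff_cv, ff_exp]
    calc |∑ B ∈ LS K P, la go P Y B * (if B ⊆ om P c.a c.b z then 1 else 0)|
        ≤ ∑ B ∈ LS K P, |la go P Y B * (if B ⊆ om P c.a c.b z then 1 else 0)| :=
          abs_sum_le_sum_abs _ _
      _ ≤ ∑ B ∈ LS K P, (if B ⊆ om P c.a c.b z then F else 0) := by
          refine sum_le_sum fun B _ => ?_
          split_ifs
          · rw [mul_one]
            exact hla' B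
          · rw [mul_zero, abs_zero]
      _ = #((LS K P).filter (fun B => B ⊆ om P c.a c.b z)) * F := by
          rw [← sum_filter, sum_const, nsmul_eq_mul]
      _ ≤ 2 ^ M * F := by
          refine mul_le_mul_of_nonneg_right ?_ hF0
          have h5 : #((LS K P).filter (fun B => B ⊆ om P c.a c.b z)) ≤
              #(om P c.a c.b z).powerset :=
            card_le_card fun B hB => mem_powerset.2 (mem_filter.1 hB).2
          rw [card_powerset] at h5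
          have h6 : 2 ^ #(om P c.a c.b z) ≤ 2 ^ M := Nat.pow_le_pow_right (by norm_num) hcard
          exact_mod_cast h5.trans h6
  calc (c.f W L δ t₀ z) ^ 2 = |c.f W L δ t₀ z| ^ 2 := (sq_abs _).symm
    _ ≤ (2 ^ M * F) ^ 2 := pow_le_pow_left₀ (abs_nonneg _) hf 2
    _ = _ := by
        rw [hF]
        ring

end Pool.Agent.Work.MP_bd2dcc_nt
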