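import Mathlib
import Pool.Agent.Work.MP_bd2dcc_nt.M1
import Pool.Agent.Work.MP_bd2dcc_nt.M2
import Pool.Agent.Work.BV.PIV

set_option autoImplicit false

/-!
MODULE M3 (counting), size S-M.
LD and PNT: BV.ld_all and BV.pnt_all (Work/BV/PIV), whose definitions BV.LD, BV.pic, BV.PNT are the same up to
unfolding. From core (M1), f_rough (M2) (δ = 1/1000, D₀ = 8000 K^2 > K) and U2_ge (R10):
#G * C₄ (log x)^(2K) ≥ sum over G of f^2 ≥ (9/100) (x/W) ((rW W / 2) t₀ log x)^K.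
-/

namespace Pool.Agent.Work.MP_bd2dcc_nt

open Finset Pool.Agent.Work.MP_73869e_nt.TH Pool.Agent.Work.MP_70e905_nt.MT

theorem cfg_main (κ₀ N : ℕ) (hκ : 1 ≤ κ₀) (hN : 1 ≤ N) :
    ∃ m : ℕ, 0 < m ∧ ∀ K : ℕ, m ≤ K → K ≤ κ₀ * m → ∀ W A₀ C : ℕ, 0 < W →
      ∃ (δ₁ c₁ : ℝ) (X₀ : ℕ), 0 < δ₁ ∧ 0 < c₁ ∧ ∀ c : Cfg K, c.Ok (8000 * K ^ 2) W A₀ C →
        (∀ p : ℕ, p.Prime → ¬ p ∣ W → ¬ bd c.a c.b p) → X₀ ≤ c.x →
        ∀ cl : Fin K → ℕ, (∀ b < 10 * N, #(univ.filter (fun i => cl i = b)) = m) →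
        ∃ G : Finset ℕ, (∀ z ∈ G, z ∈ c.dom W ∧ N ≤ #(Bz c cl (10 * N) z) ∧
            Rg c ((c.x : ℝ) ^ δ₁) z) ∧
          c₁ * c.x / Real.log c.x ^ K ≤ #G := by
  have hLD : ∀ t : ℝ, t < 1 / 2 → LD t := fun t ht => BV.ld_all t ht
  have hPNT : PNT := BV.pnt_all
  obtain ⟨m, hm, hcore⟩ := core hLD hPNT κ₀ N hκ hN
  refine ⟨m, hm, fun K hmK hKm W A₀ C hW => ?_⟩
  obtain ⟨L, t₀, hL, ht₀, ht₀', h1⟩ := hcore K hmK hKm
  obtain ⟨δ₁, hδ₁, -, X1, hX1⟩ := h1 W A₀ C hW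
  have hK1 : 1 ≤ K := by omega
  have hKD : K < 8000 * K ^ 2 := by
    have h2 : K ≤ K ^ 2 := Nat.le_self_pow (by norm_num) K
    omega
  obtain ⟨C₄, X2, hC₄, hX2⟩ := f_rough K L (1 / 1000) t₀ δ₁ (by norm_num) (by norm_num) ht₀ hδ₁
    (8000 * K ^ 2) W A₀ C hKD
  obtain ⟨X3, hX3⟩ := U2_ge K L hL (1 / 1000) t₀ (by norm_num) ht₀ ht₀' (8000 * K ^ 2) W A₀ C
  have hW0 : (0 : ℝ) < W := by exact_mod_cast hW
  have hrW : 0 < rW W := by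
    unfold rW
    have : (0 : ℝ) < Nat.totient W := by exact_mod_cast Nat.totient_pos.2 hW
    positivity
  refine ⟨δ₁, 9 / 100 / W * (rW W / 2 * t₀) ^ K / C₄, max (max X1 X2) (max X3 3), hδ₁,
    by positivity, fun c hc hbd hx cl hcl => ?_⟩
  simp only [max_le_iff] at hx
  obtain ⟨⟨x1, x2⟩, x3, x4⟩ := hx
  have hxr : (3 : ℝ) ≤ c.x := by exact_mod_cast x4
  have hx0 : (0 : ℝ) < c.x := by linarith
  have hlx : 0 < Real.log c.x := Real.log_pos (by linarith)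
  obtain ⟨G, hG, hG2⟩ := hX1 c hc hbd x1 cl hcl
  refine ⟨G, hG, ?_⟩
  have h2 : ∑ z ∈ G, (c.f W L (1 / 1000) t₀ z) ^ 2 ≤ #G * (C₄ * Real.log c.x ^ (2 * K)) := by
    calc ∑ z ∈ G, (c.f W L (1 / 1000) t₀ z) ^ 2 ≤ ∑ _z ∈ G, C₄ * Real.log c.x ^ (2 * K) :=
          sum_le_sum fun z hz => hX2 c hc x2 z (hG z hz).1 (hG z hz).2.2
      _ = _ := by rw [sum_const, nsmul_eq_mul]
  have h3 : (rW W / 2 * t₀ * Real.log c.x) ^ K ≤ U2 (c.P W (1 / 1000)) c.x L t₀ ^ K :=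
    pow_le_pow_left₀ (by positivity) (hX3 c hc hbd x3) K
  have h4 : 9 / 100 * (c.x / W) * (rW W / 2 * t₀ * Real.log c.x) ^ K ≤
      #G * (C₄ * Real.log c.x ^ (2 * K)) := by
    refine le_trans ?_ (hG2.trans h2)
    exact mul_le_mul_of_nonneg_left h3 (by positivity)
  rw [div_le_iff₀ (by positivity)]
  have h5 : 0 < C₄ * Real.log c.x ^ K := by positivity
  refine le_of_mul_le_mul_right ?_ h5
  calc 9 / 100 / W * (rW W / 2 * t₀) ^ K / C₄ * c.x * (C₄ * Real.log c.x ^ K)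
      = 9 / 100 * (c.x / W) * (rW W / 2 * t₀ * Real.log c.x) ^ K := by
        rw [mul_pow (rW W / 2 * t₀) (Real.log c.x) K]
        field_simp
    _ ≤ _ := h4
    _ = #G * Real.log c.x ^ K * (C₄ * Real.log c.x ^ K) := by
        rw [two_mul, pow_add]
        ring

end Pool.Agent.Work.MP_bd2dcc_nt
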