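import Mathlib
import Pool.Agent.Work.MP_bd2dcc_nt.M3
import Pool.Agent.Work.MP_bd2dcc_nt.CRT
import Pool.Agent.Work.MP_bd2dcc_nt.F1
import Pool.Agent.Work.MP_bd2dcc_nt.F2
import Pool.Agent.Work.MP_bd2dcc_nt.F3

set_option autoImplicit false

/-!
MODULE F4 (one scale), size M.
B ≥ 1. cfg_main (M3) with κ₀ = 20 B! B (N+1)^2 + 1 and N + 1 in place of N gives m; K = KK N B (10 (N+1) m), S = SS N B (10 (N+1) m)
(size, blocks of F3); crt with this K, D₀ = 8000 K^2, S; W, A₀ = W, C = v + K d; c = mkC K d W v x q (F1). For z ∈ G put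
n = W z + v, T z = Nat.count Nat.Prime n. z ∈ dom: x < z ≤ 2 x. The blocks of Bz are disjoint, each contains a label i with
c.a i * z + c.b i prime and cl i < 10 (N + 1), so i ∈ S, q i = 1 and n + i d prime: at least N + 1 positions of S are prime. The other
h < K d: a prime p ∣ W, p ∣ v + h, so p ∣ n + h and p ≤ W < n + h (z ≥ 2): n + h is composite. window (F2): for i ≤ N the
prime nth (T z + i) is n + l i d, l i ∈ S, l i < K. affine (F3): sum a i nth (T z + i) = g n + d g l' = g (n + l' d) =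
g (q l' * ρ), ρ = the form l' at z, with all prime factors > x^δ₁ (Rg).
T is injective on G: for z < z' in G nth (T z) < n z + K d < n z + W ≤ n z' ≤ nth (T z'). The image of G under T is the set H.
-/

namespace Pool.Agent.Work.MP_bd2dcc_nt

open Finset Pool.Agent.Work.MP_70e905_nt.MT

private theorem F4_primes {K d W v x : ℕ} {q : ℕ → ℕ} (S : Finset ℕ) (J N z : ℕ)
    (cl : Fin K → ℕ) (hcl : ∀ i, cl i < J → (i : ℕ) ∈ S) (hq : ∀ j < K, j ∈ S → q j = 1)
    (hform : ∀ (i : Fin K) (z : ℕ), q i * ((mkC K d W v x q).a i * z + (mkC K d W v x q).b i) =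
        W * z + v + i * d)
    (hN : N ≤ #(Bz (mkC K d W v x q) cl J z)) :
    N ≤ #(S.filter (fun l => (W * z + v + l * d).Prime)) := by
  classical
  set c := mkC K d W v x q with hc
  set F := (univ : Finset (Fin K)).filter
    (fun i : Fin K => (i : ℕ) ∈ S ∧ (W * z + v + (i : ℕ) * d).Prime) with hF
  have h1 : Bz c cl J z ⊆ F.image cl := by
    intro b hb
    unfold Bz at hb
    rw [mem_filter, mem_range] at hb
    obtain ⟨hbJ, i, hi, hp⟩ := hb
    have hiS := hcl i (by rw [hi]; exact hbJ)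
    rw [mem_image]
    refine ⟨i, ?_, hi⟩
    rw [hF, mem_filter]
    refine ⟨mem_univ _, hiS, ?_⟩
    rw [← hform i z, hq i i.2 hiS, one_mul]
    exact hp
  have h2 : #F ≤ #(S.filter (fun l => (W * z + v + l * d).Prime)) := by
    refine card_le_card_of_injOn (fun i : Fin K => (i : ℕ)) ?_ ?_
    · intro i hi
      have hi' := mem_filter.1 (mem_coe.1 hi)
      exact mem_coe.2 (mem_filter.2 hi'.2)
    · intro i _ j _ hij
      exact Fin.ext hij
  exact hN.trans ((card_le_card h1).trans (card_image_le.trans h2))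

theorem scale (N B : ℕ) (hB : 1 ≤ B) : ∃ (C K X₀ : ℕ) (δ₁ c₁ : ℝ), 0 < δ₁ ∧ 0 < c₁ ∧ 0 < C ∧
    ∀ x : ℕ, X₀ ≤ x → ∃ H : Finset ℕ, c₁ * x / Real.log x ^ K ≤ #H ∧ ∀ t ∈ H,
      Nat.nth Nat.Prime (t + N) ≤ C * x ∧ Nat.nth Nat.Prime (t + N) ≤ Nat.nth Nat.Prime t + C ∧
      ∀ (g : ℕ) (a : ℕ → ℤ), 1 ≤ g → g ≤ B → (∀ i ≤ N, |a i| ≤ B) →
        ∑ i ∈ range (N + 1), a i = g → ∃ q ρ : ℕ,
          ∑ i ∈ range (N + 1), a i * (Nat.nth Nat.Prime (t + i) : ℤ) = g * (q * ρ : ℕ) ∧
          (q = 1 ∨ q.Prime) ∧ q ≤ C ∧ q * ρ ≤ C * x ∧ 0 < q * ρ ∧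
          ∀ p : ℕ, p.Prime → p ∣ ρ → (x : ℝ) ^ δ₁ < p := by
  classical
  obtain ⟨m, hm, hcfg⟩ := cfg_main (20 * B.factorial * B * (N + 1) ^ 2 + 1) (N + 1) (by omega)
    (by omega)
  obtain ⟨hs1, hs2⟩ := size N B m hB hm
  set K := KK N B (10 * (N + 1) * m) with hK
  set S := SS N B (10 * (N + 1) * m) with hS
  have hSlt : ∀ l ∈ S, l < K := SS_lt N B _ hB
  obtain ⟨d, W, v, q, hd, hW, hprim, hdW, hKdW, hq, hcomp⟩ := crt K (8000 * K ^ 2) S
  obtain ⟨δ₁, c₁, X0, hδ₁, hc₁, hmain⟩ := hcfg K hs1 hs2 W W (v + K * d) hW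
  have hKD : K ≤ 8000 * K ^ 2 := by
    have h2 : K ≤ K ^ 2 := Nat.le_self_pow (by norm_num) K
    omega
  obtain ⟨cl, hcl1, hcl2⟩ := blocks N B (10 * (N + 1)) m hB hm
  refine ⟨2 * W + v + K * d, K, max X0 1, δ₁, c₁, hδ₁, hc₁, by omega, fun x hx => ?_⟩
  have hx0 : X0 ≤ x := (le_max_left _ _).trans hx
  have hx1 : 1 ≤ x := (le_max_right _ _).trans hx
  obtain ⟨hok, hbd, hform⟩ := mkC_ok K (8000 * K ^ 2) d W v x q hKD hd hW hprim hdW hx1
    (fun j hj => ⟨(hq j hj).1, (hq j hj).2.1, (hq j hj).2.2.1⟩)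
  obtain ⟨G, hG, hGc⟩ := hmain (mkC K d W v x q) hok hbd hx0 cl hcl1
  have hcx : (mkC K d W v x q).x = x := rfl
  rw [hcx] at hGc
  have hzx : ∀ z ∈ G, x < z ∧ z ≤ 2 * x := by
    intro z hz
    have h := (hG z hz).1
    unfold Cfg.dom at h
    rw [mem_filter, mem_Ioc, hcx] at h
    exact h.1
  -- the window of z
  have hwin : ∀ z ∈ G, ∀ i ≤ N, ∃ l ∈ S,
      Nat.nth Nat.Prime (Nat.count Nat.Prime (W * z + v) + i) = W * z + v + l * d := by
    intro z hz
    have hz2 : 2 ≤ z := by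
      have := (hzx z hz).1
      omega
    refine window (W * z + v) K d N S hSlt hd ?_ ?_
    · intro h hh hno hprime
      obtain ⟨p, hp, hpW, hpv⟩ := hcomp h hh hno
      have h1 : p ∣ W * z + v + h := by
        rw [add_assoc]
        exact dvd_add (Dvd.dvd.mul_right hpW z) hpv
      have h2 := (Nat.prime_dvd_prime_iff_eq hp hprime).1 h1
      have h3 : p ≤ W := Nat.le_of_dvd hW hpW
      have h4 : W * 2 ≤ W * z := Nat.mul_le_mul_left W hz2
      omega
    · exact F4_primes S (10 * (N + 1)) (N + 1) z cl hcl2 (fun j hj hjS => (hq j hj).2.2.2.1 hjS)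
        hform (hG z hz).2.1
  have hbound : ∀ z ∈ G, ∀ l < K, W * z + v + l * d ≤ (2 * W + v + K * d) * x := by
    intro z hz l hl
    have h1 : W * z ≤ W * (2 * x) := Nat.mul_le_mul_left W (hzx z hz).2
    have h2 : l * d ≤ K * d := Nat.mul_le_mul_right d hl.le
    have h3 : v ≤ v * x := Nat.le_mul_of_pos_right v hx1
    have h4 : K * d ≤ K * d * x := Nat.le_mul_of_pos_right _ hx1
    calc W * z + v + l * d ≤ W * (2 * x) + v * x + K * d * x := by omega
      _ = _ := by ring
  have hnear : ∀ z ∈ G, W * z + v ≤ Nat.nth Nat.Prime (Nat.count Nat.Prime (W * z + v)) ∧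
      Nat.nth Nat.Prime (Nat.count Nat.Prime (W * z + v)) < W * z + v + K * d := by
    intro z hz
    obtain ⟨l, hl, he⟩ := hwin z hz 0 (Nat.zero_le N)
    rw [add_zero] at he
    rw [he]
    have := Nat.mul_lt_mul_of_pos_right (hSlt l hl) hd
    omega
  refine ⟨G.image (fun z => Nat.count Nat.Prime (W * z + v)), ?_, ?_⟩
  · rw [card_image_of_injOn]
    · exact hGc
    · intro z hz z' hz' h
      have hz := mem_coe.1 hz
      have hz' := mem_coe.1 hz'
      have h1 := hnear z hz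
      have h2 := hnear z' hz'
      simp only at h
      rw [h] at h1
      by_contra hne
      rcases Nat.lt_or_gt_of_ne hne with hlt | hlt
      · have h3 : W * (z + 1) ≤ W * z' := Nat.mul_le_mul_left W hlt
        rw [Nat.mul_add, Nat.mul_one] at h3
        omega
      · have h3 : W * (z' + 1) ≤ W * z := Nat.mul_le_mul_left W hlt
        rw [Nat.mul_add, Nat.mul_one] at h3
        omega
  · intro t ht
    obtain ⟨z, hz, rfl⟩ := mem_image.1 ht
    have hw := hwin z hz
    choose! l hlS hle using hw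
    refine ⟨?_, ?_, ?_⟩
    · rw [hle N le_rfl]
      exact hbound z hz _ (hSlt _ (hlS N le_rfl))
    · rw [hle N le_rfl]
      have h1 := (hnear z hz).1
      have h2 := Nat.mul_lt_mul_of_pos_right (hSlt _ (hlS N le_rfl)) hd
      omega
    · intro g a hg hgB ha hsum
      obtain ⟨l', hl', hl2⟩ := affine N B (10 * (N + 1) * m) l (fun i hi => hlS i hi) g hg hgB a ha
        hsum
      have hl'K : l' < K := hl'
      refine ⟨q l', (mkC K d W v x q).a ⟨l', hl'K⟩ * z + (mkC K d W v x q).b ⟨l', hl'K⟩, ?_, ?_, ?_,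
        ?_, ?_, ?_⟩
      · have hf := hform ⟨l', hl'K⟩ z
        simp only at hf
        rw [hf]
        have h1 : ∀ i ∈ range (N + 1),
            a i * (Nat.nth Nat.Prime (Nat.count Nat.Prime (W * z + v) + i) : ℤ) =
            a i * ((W * z + v : ℕ) : ℤ) + (a i * (l i : ℤ)) * d := by
          intro i hi
          rw [hle i (by
            have := mem_range.1 hi
            omega)]
          push_cast
          ring
        rw [sum_congr rfl h1, sum_add_distrib, ← sum_mul, ← sum_mul, hsum, hl2]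
        push_cast
        ring
      · by_cases h : l' ∈ S
        · exact Or.inl ((hq l' hl'K).2.2.2.1 h)
        · exact Or.inr ((hq l' hl'K).2.2.2.2 h)
      · have := Nat.le_of_dvd hW (hq l' hl'K).1
        omega
      · have hf := hform ⟨l', hl'K⟩ z
        simp only at hf
        rw [hf]
        exact hbound z hz l' hl'K
      · have hf := hform ⟨l', hl'K⟩ z
        simp only at hf
        rw [hf]
        have h1 : 0 < W * z := Nat.mul_pos hW (by
          have := (hzx z hz).1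
          omega)
        omega
      · intro p hp hpd
        exact (hG z hz).2.2 ⟨l', hl'K⟩ p hp hpd

end Pool.Agent.Work.MP_bd2dcc_nt
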