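import Mathlib
import Pool.Agent.Work.MP_bd2dcc_nt.F4

set_option autoImplicit false

/-!
MODULE Main (final statement), size S-M.
scale (F4) with B + 1 and x = X / C (natural division; C x ≤ X, x ≥ X / (2 C) ≥ X₀ and x ≥ √X for large X). δ = δ₁ / 2:
x^δ₁ ≥ X^(δ₁/2). c = c₁ / (2 C), κ = K: log x ≤ log X. H is contained in the (finite) set of the statement. Number of prime
factors: q contributes at most 1, ρ ≤ X with all prime factors > X^δ at most 1/δ, so R = 1 + ⌈1/δ⌉ (q * ρ > 0: if q * ρ = 0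
every prime divides ρ = 0, also p = 2, contradiction to X^δ < 2 for large X; or treat primeFactorsList 0 = [] directly).
-/

namespace Pool.Agent.Work.MP_bd2dcc_nt

private theorem Main_len (n : ℕ) (hn : n ≠ 0) (X δ : ℝ) (hX : 1 < X) (hδ : 0 < δ)
    (hnX : (n : ℝ) ≤ X) (h : ∀ p : ℕ, p.Prime → p ∣ n → X ^ δ < p) :
    n.primeFactorsList.length ≤ ⌈1 / δ⌉₊ := by
  have h0 : 0 ≤ X ^ δ := by positivity
  have h1 : ∀ l : List ℕ, (∀ p ∈ l, X ^ δ ≤ (p : ℝ)) → (X ^ δ) ^ l.length ≤ ((l.prod : ℕ) : ℝ) := by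
    intro l
    induction l with
    | nil => intro _; simp
    | cons a l ih =>
      intro hl
      rw [List.length_cons, List.prod_cons, pow_succ, mul_comm, Nat.cast_mul]
      have h2 := ih fun p hp => hl p (List.mem_cons_of_mem _ hp)
      have h3 := hl a List.mem_cons_self
      have h4 : 0 ≤ (X ^ δ) ^ l.length := by positivity
      exact mul_le_mul h3 h2 h4 (by positivity)
  have h2 := h1 n.primeFactorsList fun p hp =>
    (h p (Nat.prime_of_mem_primeFactorsList hp) (Nat.dvd_of_mem_primeFactorsList hp)).le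
  rw [Nat.prod_primeFactorsList hn] at h2
  have h3 : X ^ (δ * n.primeFactorsList.length) ≤ X ^ (1 : ℝ) := by
    rw [Real.rpow_mul (by linarith), Real.rpow_natCast, Real.rpow_one]
    exact h2.trans hnX
  have h4 : δ * n.primeFactorsList.length ≤ 1 := (Real.rpow_le_rpow_left_iff hX).1 h3
  have h5 : (n.primeFactorsList.length : ℝ) ≤ 1 / δ := by
    rw [le_div_iff₀ hδ]
    linarith
  exact_mod_cast h5.trans (Nat.le_ceil _)

theorem main (N B : ℕ) : ∃ (R C κ : ℕ) (δ c : ℝ), 0 < δ ∧ 0 < c ∧ ∀ᶠ X : ℕ in Filter.atTop,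
    c * X / Real.log X ^ κ ≤ (Set.ncard {t : ℕ | Nat.nth Nat.Prime (t + N) ≤ X ∧
      Nat.nth Nat.Prime (t + N) ≤ Nat.nth Nat.Prime t + C ∧
      ∀ (g : ℕ) (a : ℕ → ℤ), 1 ≤ g → g ≤ B → (∀ i ≤ N, |a i| ≤ B) →
        ∑ i ∈ Finset.range (N + 1), a i = g → ∃ y q ρ : ℕ, 0 < y ∧
          ∑ i ∈ Finset.range (N + 1), a i * (Nat.nth Nat.Prime (t + i) : ℤ) = g * y ∧
          y.primeFactorsList.length ≤ R ∧ y = q * ρ ∧ (q = 1 ∨ q.Prime) ∧ q ≤ C ∧
          ∀ p : ℕ, p.Prime → p ∣ ρ → (X : ℝ) ^ δ < p} : ℝ) := by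
  obtain ⟨C, K, X₀, δ₁, c₁, hδ₁, hc₁, hC, hscale⟩ := scale N (B + 1) (by omega)
  have hC0 : (0 : ℝ) < C := by exact_mod_cast hC
  refine ⟨1 + ⌈1 / (δ₁ / 2)⌉₊, C, K, δ₁ / 2, c₁ / (2 * C), by positivity, by positivity, ?_⟩
  filter_upwards [Filter.eventually_ge_atTop (C * (X₀ + 3) + 4 * C ^ 2 + 3)] with X hX
  set x := X / C with hx
  have hXr : (3 : ℝ) ≤ X := by
    have : 3 ≤ X := by omega
    exact_mod_cast this
  have hxX : C * x ≤ X := Nat.mul_div_le X C
  have hxge : X₀ + 3 ≤ x := by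
    rw [hx, Nat.le_div_iff_mul_le hC]
    have : (X₀ + 3) * C = C * (X₀ + 3) := Nat.mul_comm _ _
    omega
  have hlt : X < C * (x + 1) := by
    have := Nat.lt_mul_div_succ X hC
    simpa [hx] using this
  have hx2 : (X : ℝ) ≤ 2 * C * x := by
    have h1 : X ≤ 2 * C * x := by
      have h2 : C ≤ C * x := Nat.le_mul_of_pos_right C (by omega)
      have h3 : C * (x + 1) = C * x + C := by ring
      have h4 : 2 * C * x = C * x + C * x := by ring
      omega
    exact_mod_cast h1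
  have hx0 : (0 : ℝ) < x := by
    have : 0 < x := by omega
    exact_mod_cast this
  have hx1 : (1 : ℝ) < x := by
    have : 1 < x := by omega
    exact_mod_cast this
  have hC2 : (4 * C ^ 2 : ℝ) ≤ X := by
    have : 4 * C ^ 2 ≤ X := by omega
    exact_mod_cast this
  have hsq : (X : ℝ) ≤ (x : ℝ) ^ 2 := by
    -- X ≤ 2 C x and 2 C ≤ sqrt X, so X ^ 2 ≤ 4 C ^ 2 x ^ 2 ≤ X x ^ 2
    have h1 : (X : ℝ) ^ 2 ≤ (2 * C * x) ^ 2 := pow_le_pow_left₀ (by linarith) hx2 2
    have h2 : (2 * C * x : ℝ) ^ 2 = 4 * C ^ 2 * x ^ 2 := by ring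
    have h3 : (4 * C ^ 2 * x ^ 2 : ℝ) ≤ X * x ^ 2 := mul_le_mul_of_nonneg_right hC2 (by positivity)
    have h4 : (X : ℝ) * X ≤ X * x ^ 2 := by
      rw [← sq]
      linarith
    exact le_of_mul_le_mul_left h4 (by linarith)
  have hpow : (X : ℝ) ^ (δ₁ / 2) ≤ (x : ℝ) ^ δ₁ := by
    calc (X : ℝ) ^ (δ₁ / 2) ≤ ((x : ℝ) ^ 2) ^ (δ₁ / 2) :=
          Real.rpow_le_rpow (by linarith) hsq (by positivity)
      _ = (x : ℝ) ^ δ₁ := by
          rw [← Real.rpow_natCast, ← Real.rpow_mul hx0.le]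
          congr 1
          push_cast
          ring
  obtain ⟨H, hH, hHt⟩ := hscale x (by omega)
  set T := {t : ℕ | Nat.nth Nat.Prime (t + N) ≤ X ∧
      Nat.nth Nat.Prime (t + N) ≤ Nat.nth Nat.Prime t + C ∧
      ∀ (g : ℕ) (a : ℕ → ℤ), 1 ≤ g → g ≤ B → (∀ i ≤ N, |a i| ≤ B) →
        ∑ i ∈ Finset.range (N + 1), a i = g → ∃ y q ρ : ℕ, 0 < y ∧
          ∑ i ∈ Finset.range (N + 1), a i * (Nat.nth Nat.Prime (t + i) : ℤ) = g * y ∧
          y.primeFactorsList.length ≤ 1 + ⌈1 / (δ₁ / 2)⌉₊ ∧ y = q * ρ ∧ (q = 1 ∨ q.Prime) ∧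
          q ≤ C ∧ ∀ p : ℕ, p.Prime → p ∣ ρ → (X : ℝ) ^ (δ₁ / 2) < p} with hT
  have hfin : T.Finite := by
    refine (Set.finite_Iic X).subset fun t ht => ?_
    have h1 : t + N ≤ Nat.nth Nat.Prime (t + N) := by
      have := Nat.add_two_le_nth_prime (t + N)
      omega
    have h2 : Nat.nth Nat.Prime (t + N) ≤ X := ht.1
    rw [Set.mem_Iic]
    omega
  have hsub : (H : Set ℕ) ⊆ T := by
    intro t ht
    obtain ⟨h1, h2, h3⟩ := hHt t (Finset.mem_coe.1 ht)
    refine ⟨h1.trans hxX, h2, fun g a hg hgB ha hsum => ?_⟩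
    obtain ⟨q, ρ, e1, e2, e3, e4, e6, e5⟩ := h3 g a hg (by omega)
      (fun i hi => (ha i hi).trans (by push_cast; linarith)) hsum
    refine ⟨q * ρ, q, ρ, e6, e1, ?_, rfl, e2, e3, fun p hp hpd => hpow.trans_lt (e5 p hp hpd)⟩
    have hq0 : q ≠ 0 := by
      rcases e2 with h | h
      · omega
      · exact h.ne_zero
    rcases Nat.eq_zero_or_pos ρ with h0 | h0
    · rw [h0, mul_zero, Nat.primeFactorsList_zero]
      simp
    · have hρX : (ρ : ℝ) ≤ X := by
        have h4 : ρ ≤ q * ρ := Nat.le_mul_of_pos_left ρ (Nat.pos_of_ne_zero hq0)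
        exact_mod_cast h4.trans (e4.trans hxX)
      have h5 := Main_len ρ h0.ne' X (δ₁ / 2) (by linarith) (by positivity) hρX
        fun p hp hpd => hpow.trans_lt (e5 p hp hpd)
      have h6 : q.primeFactorsList.length ≤ 1 := by
        rcases e2 with h | h
        · rw [h]
          simp
        · rw [Nat.primeFactorsList_prime h]
          simp
      have h7 := (Nat.perm_primeFactorsList_mul hq0 h0.ne').length_eq
      rw [List.length_append] at h7
      omega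
  have hcard : (H.card : ℝ) ≤ (T.ncard : ℝ) := by
    have := Set.ncard_le_ncard hsub hfin
    rw [Set.ncard_coe_finset] at this
    exact_mod_cast this
  refine le_trans ?_ (hH.trans hcard)
  have hlx : 0 < Real.log x := Real.log_pos hx1
  have hlX : Real.log x ≤ Real.log X := by
    refine Real.log_le_log hx0 ?_
    have h1 : x ≤ X := Nat.div_le_self X C
    exact_mod_cast h1
  have h1 : c₁ / (2 * C) * X ≤ c₁ * x := by
    rw [div_mul_eq_mul_div, div_le_iff₀ (by positivity)]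
    calc c₁ * X ≤ c₁ * (2 * C * x) := mul_le_mul_of_nonneg_left hx2 hc₁.le
      _ = _ := by ring
  calc c₁ / (2 * C) * X / Real.log X ^ K ≤ c₁ / (2 * C) * X / Real.log x ^ K := by
        refine div_le_div_of_nonneg_left (by positivity) (by positivity) ?_
        exact pow_le_pow_left₀ hlx.le hlX K
    _ ≤ _ := by
        refine div_le_div_of_nonneg_right h1 (by positivity)

end Pool.Agent.Work.MP_bd2dcc_nt
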